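import Pool.Agent.Lib.MP_72646e_co.Stmts

set_option autoImplicit false

/-! The diametric problem for the Lee metric: integer heights. -/

namespace Pool.Agent.Lib.MP_72646e_co

open Finset Filter Topology

theorem cyc_tv (F : ℕ → ℝ) (q a b : ℕ) (ha : a ≤ q) (hb : b ≤ q) (hq : F q = F 0) :
    2 * (F b - F a) ≤ ∑ i ∈ range q, |F (i + 1) - F i| := by
  have key : ∀ i j, i ≤ j → |F j - F i| ≤ ∑ k ∈ Ico i j, |F (k + 1) - F k| := by
    intro i j hij
    have h := dist_le_Ico_sum_dist F hij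
    simp only [Real.dist_eq] at h
    rw [abs_sub_comm]
    refine h.trans (le_of_eq ?_)
    refine Finset.sum_congr rfl ?_
    intro k _
    rw [abs_sub_comm]
  have hsplit : ∀ a b : ℕ, a ≤ b → b ≤ q → ∑ i ∈ range q, |F (i + 1) - F i|
      = ∑ i ∈ Ico 0 a, |F (i + 1) - F i| + ∑ i ∈ Ico a b, |F (i + 1) - F i|
        + ∑ i ∈ Ico b q, |F (i + 1) - F i| := by
    intro a b hab hbq
    rw [Finset.sum_Ico_consecutive _ (Nat.zero_le a) hab,
      Finset.sum_Ico_consecutive _ (Nat.zero_le b) hbq, Finset.range_eq_Ico]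
  rcases le_total a b with hab | hab
  · rw [hsplit a b hab hb]
    have h1 := key 0 a (Nat.zero_le _)
    have h2 := key a b hab
    have h3 := key b q hb
    have e1 := le_abs_self (F b - F a)
    have e2 := neg_abs_le (F a - F 0)
    have e3 := neg_abs_le (F q - F b)
    linarith
  · rw [hsplit b a hab ha]
    have h1 := key 0 b (Nat.zero_le _)
    have h2 := key b a hab
    have h3 := key a q ha
    have e1 := neg_abs_le (F a - F b)
    have e2 := le_abs_self (F b - F 0)
    have e3 := le_abs_self (F q - F a)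
    linarith

theorem lip_aux {q : ℕ} {h : ℕ → ℕ}
    (hs : ∀ i < q, h (i + 1) ≤ h i + 1 ∧ h i ≤ h (i + 1) + 1) (i k : ℕ) (hk : i + k ≤ q) :
    h (i + k) ≤ h i + k ∧ h i ≤ h (i + k) + k := by
  induction k with
  | zero => simp
  | succ k ih =>
    have h1 := ih (by omega)
    have h2 := hs (i + k) (by omega)
    rw [← add_assoc]
    omega

theorem height_le {m H : ℕ} {h : ℕ → ℕ} (h0 : h (2 * m + 1) = h 0)
    (hs : ∀ i < 2 * m + 1, h (i + 1) ≤ h i + 1 ∧ h i ≤ h (i + 1) + 1)
    {a b : ℕ} (ha : a < 2 * m + 1) (hb : b < 2 * m + 1) (hha : h a = 0) (hhb : h b = H) :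
    H ≤ m := by
  rcases le_total a b with hab | hab
  · have h1 := lip_aux hs 0 a (by omega)
    have h2 := lip_aux hs a (b - a) (by omega)
    have h3 := lip_aux hs b (2 * m + 1 - b) (by omega)
    have e1 : 0 + a = a := by omega
    have e2 : a + (b - a) = b := by omega
    have e3 : b + (2 * m + 1 - b) = 2 * m + 1 := by omega
    rw [e1] at h1
    rw [e2] at h2
    rw [e3] at h3
    omega
  · have h1 := lip_aux hs 0 b (by omega)
    have h2 := lip_aux hs b (a - b) (by omega)
    have h3 := lip_aux hs a (2 * m + 1 - a) (by omega)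
    have e1 : 0 + b = b := by omega
    have e2 : b + (a - b) = a := by omega
    have e3 : a + (2 * m + 1 - a) = 2 * m + 1 := by omega
    rw [e1] at h1
    rw [e2] at h2
    rw [e3] at h3
    omega

/-- the loss of one step -/
noncomputable def ww (H : ℕ) (u : ℝ) (j : ℕ) : ℝ :=
  (u ^ H + 1) - (u ^ (H - j) + u ^ (H - j - 1)) / 2 - u ^ j

theorem al_ge {H j : ℕ} {u : ℝ} (hu : 1 ≤ u) (hj : j ≤ H) :
    u ^ (H - j) + u ^ j ≤ u ^ H + 1 := by
  have h1 : (1 : ℝ) ≤ u ^ (H - j) := one_le_pow₀ hu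
  have h2 : (1 : ℝ) ≤ u ^ j := one_le_pow₀ hu
  have h3 : u ^ H = u ^ (H - j) * u ^ j := by
    rw [← pow_add]
    congr 1
    omega
  rw [h3]
  nlinarith

theorem ww_nonneg {H j : ℕ} {u : ℝ} (hu : 1 ≤ u) (hj : j < H) : 0 ≤ ww H u j := by
  unfold ww
  have h1 := al_ge hu (le_of_lt hj)
  have h2 : u ^ (H - j - 1) ≤ u ^ (H - j) := pow_le_pow_right₀ hu (by omega)
  linarith

theorem term_le {H : ℕ} {u : ℝ} (hu : 1 ≤ u) {x y : ℕ} (hx : x ≤ H) (hy : y ≤ H)
    (hxy : y ≤ x + 1 ∧ x ≤ y + 1) :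
    (u ^ (H - x) + u ^ (H - y)) / 2 + u ^ (min x y)
      ≤ (u ^ H + 1) - |∑ j ∈ range y, ww H u j - ∑ j ∈ range x, ww H u j| := by
  have hcase : x = y ∨ y = x + 1 ∨ x = y + 1 := by omega
  rcases hcase with h | h | h
  · subst h
    rw [sub_self, abs_zero, min_self]
    have := al_ge hu hx
    linarith
  · subst h
    rw [Finset.sum_range_succ]
    have e1 : ∑ j ∈ range x, ww H u j + ww H u x - ∑ j ∈ range x, ww H u j = ww H u x := by ring
    rw [e1, abs_of_nonneg (ww_nonneg hu (by omega))]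
    have e2 : min x (x + 1) = x := by omega
    have e3 : H - (x + 1) = H - x - 1 := by omega
    rw [e2, e3]
    unfold ww
    linarith
  · subst h
    rw [Finset.sum_range_succ, abs_sub_comm]
    have e1 : ∑ j ∈ range y, ww H u j + ww H u y - ∑ j ∈ range y, ww H u j = ww H u y := by ring
    rw [e1, abs_of_nonneg (ww_nonneg hu (by omega))]
    have e2 : min (y + 1) y = y := by omega
    have e3 : H - (y + 1) = H - y - 1 := by omega
    rw [e2, e3]
    unfold ww
    linarith

theorem sum_ww {m H : ℕ} {u : ℝ} :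
    (2 * m + 1 : ℝ) * (u ^ H + 1) - 2 * ∑ j ∈ range H, ww H u j = 2 * PP m H u := by
  rcases Nat.eq_zero_or_pos H with h | h
  · subst h
    simp [PP]
    ring
  · obtain ⟨K, rfl⟩ : ∃ K, H = K + 1 := ⟨H - 1, by omega⟩
    have e1 : ∑ j ∈ range (K + 1), u ^ (K + 1 - j) = ∑ j ∈ range (K + 1), u ^ (j + 1) := by
      rw [← Finset.sum_range_reflect]
      refine Finset.sum_congr rfl ?_
      intro j hj
      rw [Finset.mem_range] at hj
      congr 1
      omega
    have e2 : ∑ j ∈ range (K + 1), u ^ (K + 1 - j - 1) = ∑ j ∈ range (K + 1), u ^ j := by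
      rw [← Finset.sum_range_reflect]
      refine Finset.sum_congr rfl ?_
      intro j hj
      rw [Finset.mem_range] at hj
      congr 1
      omega
    have e3 : ∑ j ∈ Ico 1 (K + 1), u ^ j = ∑ j ∈ range K, u ^ (j + 1) := by
      rw [Finset.sum_Ico_eq_sum_range]
      refine Finset.sum_congr rfl ?_
      intro j _
      rw [add_comm]
    have e4 : ∑ j ∈ range (K + 1), ww (K + 1) u j = (K + 1) * (u ^ (K + 1) + 1)
        - (∑ j ∈ range (K + 1), u ^ (j + 1) + ∑ j ∈ range (K + 1), u ^ j) / 2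
        - ∑ j ∈ range (K + 1), u ^ j := by
      have e5 : ∑ i ∈ range (K + 1), (u ^ (K + 1 - i) + u ^ (K + 1 - i - 1))
          = ∑ j ∈ range (K + 1), u ^ (j + 1) + ∑ j ∈ range (K + 1), u ^ j := by
        rw [Finset.sum_add_distrib, e1, e2]
      unfold ww
      rw [Finset.sum_sub_distrib, Finset.sum_sub_distrib, ← Finset.sum_div, e5,
        Finset.sum_const, card_range, nsmul_eq_mul]
      push_cast
      ring
    rw [e4, Finset.sum_range_succ (fun j => u ^ (j + 1)), Finset.sum_range_succ' (fun j => u ^ j)]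
    unfold PP
    rw [if_neg (by omega), e3]
    push_cast
    ring

theorem intHeight : IntStmt := by
  intro m H u h hu h0 hs hH hz hm
  obtain ⟨a, ha, hha⟩ := hz
  obtain ⟨b, hb, hhb⟩ := hm
  refine ⟨height_le h0 hs ha hb hha hhb, ?_⟩
  have hH' : ∀ i ≤ 2 * m + 1, h i ≤ H := by
    intro i hi
    rcases Nat.lt_or_ge i (2 * m + 1) with h1 | h1
    · exact hH i h1
    · have : i = 2 * m + 1 := by omega
      rw [this, h0]
      exact hH 0 (by omega)
  have hupos : 0 < u := by linarith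
  set P := ∑ i ∈ range (2 * m + 1), (u ^ (h i))⁻¹ with hP
  set Q := ∑ i ∈ range (2 * m + 1), u ^ (min (h i) (h (i + 1))) with hQ
  have hP0 : 0 ≤ P := Finset.sum_nonneg fun i _ => by positivity
  have hQ0 : 0 ≤ Q := Finset.sum_nonneg fun i _ => by positivity
  have h1 : u ^ H * P = ∑ i ∈ range (2 * m + 1), u ^ (H - h i) := by
    rw [hP, Finset.mul_sum]
    refine Finset.sum_congr rfl ?_
    intro i hi
    rw [pow_sub₀ u (ne_of_gt hupos) (hH i (Finset.mem_range.1 hi))]
  have h2 : ∑ i ∈ range (2 * m + 1), u ^ (H - h (i + 1))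
      = ∑ i ∈ range (2 * m + 1), u ^ (H - h i) := by
    have e1 := Finset.sum_range_succ (fun i => u ^ (H - h i)) (2 * m + 1)
    have e2 := Finset.sum_range_succ' (fun i => u ^ (H - h i)) (2 * m + 1)
    rw [h0] at e1
    linarith
  have h3 : u ^ H * P + Q = ∑ i ∈ range (2 * m + 1),
      ((u ^ (H - h i) + u ^ (H - h (i + 1))) / 2 + u ^ (min (h i) (h (i + 1)))) := by
    rw [Finset.sum_add_distrib, ← Finset.sum_div, Finset.sum_add_distrib, h2, h1, hQ]
    ring
  have h4 : u ^ H * P + Q ≤ ∑ i ∈ range (2 * m + 1), ((u ^ H + 1)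
      - |∑ j ∈ range (h (i + 1)), ww H u j - ∑ j ∈ range (h i), ww H u j|) := by
    rw [h3]
    refine Finset.sum_le_sum ?_
    intro i hi
    have hi' := Finset.mem_range.1 hi
    exact term_le hu (hH' i (by omega)) (hH' (i + 1) (by omega)) (hs i hi')
  have h5 := cyc_tv (fun i => ∑ j ∈ range (h i), ww H u j) (2 * m + 1) a b (by omega) (by omega)
    (by rw [h0])
  rw [hha, hhb] at h5
  rw [Finset.sum_sub_distrib, Finset.sum_const, card_range] at h4
  have h6 : u ^ H * P + Q ≤ 2 * PP m H u := by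
    rw [← sum_ww]
    simp only [Finset.range_zero, Finset.sum_empty, sub_zero] at h5
    simp only [nsmul_eq_mul] at h4
    push_cast at h4
    linarith
  have h7 : 0 ≤ u ^ H * P := by positivity
  nlinarith [sq_nonneg (u ^ H * P - Q)]

end Pool.Agent.Lib.MP_72646e_co
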