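import Pool.Agent.Lib.MP_72646e_co.Stmts

set_option autoImplicit false

/-! Closed form of the partition functions. -/

namespace Pool.Agent.Lib.MP_72646e_co

open Finset

theorem sum_arc (m H : ℕ) (hH : H ≤ m) (f : ℕ → ℝ) :
    ∑ x : Fin (2 * m + 1), f (arcDist m H x) =
      ((m : ℝ) - H + 1) * f 0 + ∑ j ∈ Finset.Ico 1 (H + 1), f j +
        ∑ j ∈ Finset.Ico 1 (m + 1), f (min j H) := by
  have e1 : ∑ x : Fin (2 * m + 1), f (arcDist m H x) =
      ∑ i ∈ range (2 * m + 1), f (min (min (i - (m - H)) (2 * m + 1 - i)) H) := by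
    rw [← Fin.sum_univ_eq_sum_range (fun i => f (min (min (i - (m - H)) (2 * m + 1 - i)) H))]
    rfl
  rw [e1]
  obtain ⟨d, rfl⟩ := Nat.exists_eq_add_of_le hH
  have e2 : 2 * (H + d) + 1 = (d + 1 + H) + (H + d) := by omega
  rw [e2, Finset.sum_range_add, Finset.sum_range_add]
  have h1 : ∑ i ∈ range (d + 1), f (min (min (i - (H + d - H)) (d + 1 + H + (H + d) - i)) H) =
      ((H + d : ℕ) - H + 1 : ℝ) * f 0 := by
    rw [Finset.sum_congr rfl (g := fun _ => f 0)]
    · simp
    · intro i hi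
      rw [Finset.mem_range] at hi
      congr 1
      omega
  have h2 : ∑ i ∈ range H, f (min (min (d + 1 + i - (H + d - H))
      (d + 1 + H + (H + d) - (d + 1 + i))) H) = ∑ j ∈ Finset.Ico 1 (H + 1), f j := by
    rw [Finset.sum_Ico_eq_sum_range]
    simp only [Nat.add_sub_cancel]
    refine Finset.sum_congr rfl (fun i hi => ?_)
    rw [Finset.mem_range] at hi
    congr 1
    omega
  have h3 : ∑ i ∈ range (H + d), f (min (min (d + 1 + H + i - (H + d - H))
      (d + 1 + H + (H + d) - (d + 1 + H + i))) H) =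
      ∑ j ∈ Finset.Ico 1 (H + d + 1), f (min j H) := by
    rw [Finset.sum_Ico_eq_sum_range]
    simp only [Nat.add_sub_cancel]
    rw [← Finset.sum_range_reflect]
    refine Finset.sum_congr rfl (fun i hi => ?_)
    rw [Finset.mem_range] at hi
    congr 1
    omega
  rw [h1, h2, h3]

theorem kapEq : KapStmt := by
  intro m H u hH hu
  have e1 : kap m H u = u ^ (-(((m : ℝ) - H) / 2)) *
      ∑ x : Fin (2 * m + 1), (fun k : ℕ => (u ^ k)⁻¹) (arcDist m H x) := by
    unfold kap
    rw [Finset.mul_sum]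
    refine Finset.sum_congr rfl (fun x _ => ?_)
    rw [ph, neg_add, Real.rpow_add hu, Real.rpow_neg hu.le (arcDist m H x : ℝ),
      Real.rpow_natCast]
  have e2 : PP m H u = u ^ H * ∑ x : Fin (2 * m + 1), (fun k : ℕ => (u ^ k)⁻¹) (arcDist m H x) := by
    rw [sum_arc m H hH (fun k : ℕ => (u ^ k)⁻¹)]
    unfold PP
    rcases Nat.eq_zero_or_pos H with h0 | h0
    · subst h0
      simp
      ring
    · rw [if_neg (by omega)]
      have hs1 : ∑ j ∈ Finset.Ico 1 (H + 1), (fun k : ℕ => (u ^ k)⁻¹) j =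
          ∑ j ∈ Finset.Ico 1 H, (u ^ j)⁻¹ + (u ^ H)⁻¹ := by
        rw [Finset.sum_Ico_succ_top h0]
      have hs2 : ∑ j ∈ Finset.Ico 1 (m + 1), (fun k : ℕ => (u ^ k)⁻¹) (min j H) =
          ∑ j ∈ Finset.Ico 1 H, (u ^ j)⁻¹ + ((m : ℝ) - H + 1) * (u ^ H)⁻¹ := by
        rw [← Finset.sum_Ico_consecutive _ h0 (by omega : H ≤ m + 1)]
        congr 1
        · refine Finset.sum_congr rfl (fun j hj => ?_)
          rw [Finset.mem_Ico] at hj
          rw [min_eq_left hj.2.le]
        · rw [Finset.sum_congr rfl (g := fun _ => (u ^ H)⁻¹)]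
          · rw [Finset.sum_const, Nat.card_Ico, nsmul_eq_mul, Nat.cast_sub (by omega)]
            push_cast
            ring
          · intro j hj
            rw [Finset.mem_Ico] at hj
            rw [min_eq_right hj.1]
      have hs3 : u ^ H * ∑ j ∈ Finset.Ico 1 H, (u ^ j)⁻¹ = ∑ j ∈ Finset.Ico 1 H, u ^ j := by
        rw [Finset.mul_sum, Finset.sum_Ico_eq_sum_range, Finset.sum_Ico_eq_sum_range,
          ← Finset.sum_range_reflect]
        refine Finset.sum_congr rfl (fun j hj => ?_)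
        rw [Finset.mem_range] at hj
        rw [← div_eq_mul_inv, div_eq_iff (pow_pos hu _).ne', ← pow_add]
        congr 1
        omega
      rw [hs1, hs2]
      have hu' : u ^ H * (u ^ H)⁻¹ = 1 := mul_inv_cancel₀ (pow_pos hu _).ne'
      simp only [pow_zero, inv_one, mul_one]
      rw [← hs3]
      linear_combination (-(1 : ℝ) - ((m : ℝ) - H + 1)) * hu'
  rw [e1, e2]
  have h3 : u ^ (m + H) * (u ^ (-(((m : ℝ) - H) / 2))) ^ 2 = (u ^ H) ^ 2 := by
    rw [← Real.rpow_natCast u (m + H), ← Real.rpow_natCast (u ^ (-(((m : ℝ) - H) / 2))) 2,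
      ← Real.rpow_mul hu.le, ← Real.rpow_add hu, ← Real.rpow_natCast u H,
      ← Real.rpow_natCast (u ^ ((H : ℕ) : ℝ)) 2, ← Real.rpow_mul hu.le]
    congr 1
    push_cast
    ring
  rw [mul_pow, mul_pow, ← mul_assoc, h3]

end Pool.Agent.Lib.MP_72646e_co
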