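import Pool.Agent.Lib.MP_72646e_co.Stmts

set_option autoImplicit false

/-! The first order condition at a minimiser of a maximum of finitely many functions. -/

namespace Pool.Agent.Lib.MP_72646e_co

open Finset Filter Topology

theorem ev_right {f : ℝ → ℝ} {d s : ℝ} (hf : HasDerivAt f d s) (hd : d < 0) :
    ∀ᶠ t in 𝓝[>] s, f t < f s := by
  have h1 := (hasDerivAt_iff_tendsto_slope.1 hf).eventually (gt_mem_nhds hd)
  have h2 : ∀ᶠ t in 𝓝[>] s, slope f s t < 0 :=
    h1.filter_mono (nhdsWithin_mono s (fun t ht => ne_of_gt ht))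
  filter_upwards [h2, self_mem_nhdsWithin] with t h3 h4
  have h5 : 0 < t - s := sub_pos.2 h4
  rw [slope_def_field, div_lt_iff₀ h5, zero_mul] at h3
  linarith

theorem ev_left {f : ℝ → ℝ} {d s : ℝ} (hf : HasDerivAt f d s) (hd : 0 < d) :
    ∀ᶠ t in 𝓝[<] s, f t < f s := by
  have h1 := (hasDerivAt_iff_tendsto_slope.1 hf).eventually (lt_mem_nhds hd)
  have h2 : ∀ᶠ t in 𝓝[<] s, 0 < slope f s t :=
    h1.filter_mono (nhdsWithin_mono s (fun t ht => ne_of_lt ht))
  filter_upwards [h2, self_mem_nhdsWithin] with t h3 h4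
  have h5 : t - s < 0 := sub_neg.2 h4
  rw [slope_def_field, lt_div_iff_of_neg h5, zero_mul] at h3
  linarith

theorem minimax : MinimaxStmt := by
  intro m g g' s hs hder hmin
  obtain ⟨J0, hJ0, hmax⟩ := Finset.exists_max_image (range (m + 1)) (fun K => g K s) ⟨0, by simp⟩
  rw [Finset.mem_range] at hJ0
  have hmax' : ∀ K ≤ m, g K s ≤ g J0 s := fun K hK => hmax K (Finset.mem_range.2 (by omega))
  have hR : ∃ H ≤ m, (∀ J ≤ m, g J s ≤ g H s) ∧ 0 ≤ g' H s := by
    by_contra hcon
    push Not at hcon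
    have h1 : ∀ K ∈ range (m + 1), ∀ᶠ t in 𝓝[>] s, g K t < g J0 s := by
      intro K hK
      rw [Finset.mem_range] at hK
      have hK' : K ≤ m := by omega
      rcases (hmax' K hK').lt_or_eq with h2 | h2
      · have h3 : ContinuousAt (g K) s := (hder K hK' s).continuousAt
        exact (h3.eventually (gt_mem_nhds h2)).filter_mono nhdsWithin_le_nhds
      · have h3 := hcon K hK' (fun J hJ => by rw [h2]; exact hmax' J hJ)
        rw [← h2]
        exact ev_right (hder K hK' s) h3
    have h2 : ∀ᶠ t in 𝓝[>] s, ∀ K ∈ range (m + 1), g K t < g J0 s :=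
      (Filter.eventually_all_finset _).2 h1
    obtain ⟨t, ht1, ht2⟩ := (h2.and self_mem_nhdsWithin).exists
    have ht3 : s < t := ht2
    obtain ⟨H, hH, hH2⟩ := hmin t (by linarith)
    have h4 := hH2 J0 (by omega)
    have h5 := ht1 H (Finset.mem_range.2 (by omega))
    linarith
  obtain ⟨H, hH, hHa, hHd⟩ := hR
  rcases hs.eq_or_lt with h0 | h0
  · refine ⟨H, hH, H, hH, 1, zero_le_one, le_rfl, hHa, hHa, ?_, ?_⟩
    · simpa using hHd
    · rw [← h0, zero_mul]
  · have hL : ∃ K ≤ m, (∀ J ≤ m, g J s ≤ g K s) ∧ g' K s ≤ 0 := by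
      by_contra hcon
      push Not at hcon
      have h1 : ∀ K ∈ range (m + 1), ∀ᶠ t in 𝓝[<] s, g K t < g J0 s := by
        intro K hK
        rw [Finset.mem_range] at hK
        have hK' : K ≤ m := by omega
        rcases (hmax' K hK').lt_or_eq with h2 | h2
        · have h3 : ContinuousAt (g K) s := (hder K hK' s).continuousAt
          exact (h3.eventually (gt_mem_nhds h2)).filter_mono nhdsWithin_le_nhds
        · have h3 := hcon K hK' (fun J hJ => by rw [h2]; exact hmax' J hJ)
          rw [← h2]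
          exact ev_left (hder K hK' s) h3
      have h2 : ∀ᶠ t in 𝓝[<] s, ∀ K ∈ range (m + 1), g K t < g J0 s :=
        (Filter.eventually_all_finset _).2 h1
      have h3 : ∀ᶠ t in 𝓝[<] s, 0 < t := (lt_mem_nhds h0).filter_mono nhdsWithin_le_nhds
      obtain ⟨t, ht1, ht2⟩ := (h2.and h3).exists
      obtain ⟨H, hH, hH2⟩ := hmin t ht2.le
      have h4 := hH2 J0 (by omega)
      have h5 := ht1 H (Finset.mem_range.2 (by omega))
      linarith
    obtain ⟨K, hK, hKa, hKd⟩ := hL
    rcases hHd.eq_or_lt with h1 | h1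
    · refine ⟨H, hH, K, hK, 1, zero_le_one, le_rfl, hHa, hKa, ?_, ?_⟩
      · rw [← h1]; simp
      · rw [← h1]; simp
    · have h2 : 0 < g' H s - g' K s := by linarith
      have h3 : -(g' K s) / (g' H s - g' K s) * g' H s +
          (1 - -(g' K s) / (g' H s - g' K s)) * g' K s = 0 := by
        field_simp
        ring
      refine ⟨H, hH, K, hK, -(g' K s) / (g' H s - g' K s), ?_, ?_, hHa, hKa, ?_, ?_⟩
      · exact div_nonneg (by linarith) h2.le
      · rw [div_le_one h2]
        linarith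
      · rw [h3]
      · rw [h3, mul_zero]

end Pool.Agent.Lib.MP_72646e_co
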