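import Pool.Agent.Lib.MP_72646e_co.Upper

set_option autoImplicit false

/-! The one-dimensional inequality. -/

namespace Pool.Agent.Lib.MP_72646e_co

open Finset

theorem core (h1 : IntStmt) (h2 : RoundStmt) (h3 : KapStmt) (m : ℕ) (u : ℝ) (hu : 1 < u)
    (a : ℕ → ℝ) (ha : ∀ i, 0 < a i) (hper : a (2 * m + 1) = a 0)
    (hr : ∀ i < 2 * m + 1, a (i + 1) ≤ u * a i ∧ a i ≤ u * a (i + 1)) :
    (∑ i ∈ range (2 * m + 1), (a i)⁻¹) * (∑ i ∈ range (2 * m + 1), min (a i) (a (i + 1))) ≤
      u ^ m * kmax m u ^ 2 := by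
  have hu0 : 0 < u := by linarith
  obtain ⟨k, hk1, hk2, hk3⟩ := h2 (2 * m + 1) u a (by omega) hu ha hper hr
  have hne : (range (2 * m + 1)).Nonempty := ⟨0, by simp⟩
  obtain ⟨i0, hi0, hmin⟩ := Finset.exists_min_image (range (2 * m + 1)) k hne
  obtain ⟨i1, hi1, hmax⟩ := Finset.exists_max_image (range (2 * m + 1)) k hne
  rw [Finset.mem_range] at hi0 hi1
  have hge : ∀ i, i ≤ 2 * m + 1 → k i0 ≤ k i := by
    intro i hi
    rcases hi.lt_or_eq with h | h
    · exact hmin i (Finset.mem_range.2 h)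
    · rw [h, hk1]
      exact hmin 0 (by simp)
  have hle : ∀ i, i ≤ 2 * m + 1 → k i ≤ k i1 := by
    intro i hi
    rcases hi.lt_or_eq with h | h
    · exact hmax i (Finset.mem_range.2 h)
    · rw [h, hk1]
      exact hmax 0 (by simp)
  have hH : ∀ i, i ≤ 2 * m + 1 → ((k i - k i0).toNat : ℤ) = k i - k i0 := by
    intro i hi
    exact Int.toNat_of_nonneg (by have := hge i hi; omega)
  obtain ⟨hHm, hI⟩ := h1 m (k i1 - k i0).toNat u (fun i => (k i - k i0).toNat) hu.le
    (by simp only [hk1]) (by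
      intro i hi
      have e1 := hH i hi.le
      have e2 := hH (i + 1) hi
      have e3 := hk2 i hi
      omega) (by
      intro i hi
      have e1 := hle i hi.le
      omega) ⟨i0, hi0, by simp⟩ ⟨i1, hi1, rfl⟩
  have hz : (0 : ℝ) < u ^ (k i0) := zpow_pos hu0 _
  have s1 : ∑ i ∈ range (2 * m + 1), (u ^ (k i))⁻¹ =
      (∑ i ∈ range (2 * m + 1), (u ^ ((k i - k i0).toNat))⁻¹) * (u ^ (k i0))⁻¹ := by
    rw [Finset.sum_mul]
    refine Finset.sum_congr rfl (fun i hi => ?_)
    rw [Finset.mem_range] at hi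
    rw [← mul_inv, ← zpow_natCast, hH i hi.le, ← zpow_add₀ hu0.ne']
    congr 2
    ring
  have s2 : ∑ i ∈ range (2 * m + 1), u ^ (min (k i) (k (i + 1))) =
      (∑ i ∈ range (2 * m + 1), u ^ (min (k i - k i0).toNat (k (i + 1) - k i0).toNat)) *
        u ^ (k i0) := by
    rw [Finset.sum_mul]
    refine Finset.sum_congr rfl (fun i hi => ?_)
    rw [Finset.mem_range] at hi
    rw [← zpow_natCast, ← zpow_add₀ hu0.ne']
    congr 1
    have e1 := hH i hi.le
    have e2 := hH (i + 1) hi
    omega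
  rw [s1, s2] at hk3
  refine hk3.trans ?_
  set X := ∑ i ∈ range (2 * m + 1), (u ^ ((k i - k i0).toNat))⁻¹ with hX
  set Y := ∑ i ∈ range (2 * m + 1), u ^ (min (k i - k i0).toNat (k (i + 1) - k i0).toNat) with hY
  have e4 : X * (u ^ (k i0))⁻¹ * (Y * u ^ (k i0)) = X * Y := by
    field_simp
  rw [e4]
  rw [h3 m _ u hHm hu0, pow_add] at hI
  have hp : 0 < u ^ ((k i1 - k i0).toNat) := pow_pos hu0 _
  have h5 : X * Y ≤ u ^ m * kap m (k i1 - k i0).toNat u ^ 2 := by
    have : u ^ ((k i1 - k i0).toNat) * (X * Y) ≤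
        u ^ ((k i1 - k i0).toNat) * (u ^ m * kap m (k i1 - k i0).toNat u ^ 2) := by
      refine hI.trans (le_of_eq (by ring))
    exact le_of_mul_le_mul_left this hp
  refine h5.trans (mul_le_mul_of_nonneg_left ?_ (pow_pos hu0 m).le)
  exact pow_le_pow_left₀ (kap_pos m _ hu0).le (kap_le_kmax hHm u) 2

theorem lee_succ {m : ℕ} (x x' y : Fin (2 * m + 1)) (h : lee x x' ≤ 1) :
    lee x y ≤ lee x' y + 1 := by
  have hx := x.2
  have hx' := x'.2
  have hy := y.2
  simp only [lee, Nat.dist] at *
  omega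

theorem kap_zero_one (m : ℕ) : kap m 0 1 = 2 * m + 1 := by
  simp [kap]

theorem oneDim (h1 : IntStmt) (h2 : RoundStmt) (h3 : KapStmt) : OneStmt := by
  intro m u f g hu hf hg hfg
  have hu0 : 0 < u := by linarith
  rcases hu.eq_or_lt with h | hu1
  · subst h
    rw [sum_mul_sum]
    have h4 : ∀ x ∈ (univ : Finset (Fin (2 * m + 1))), ∀ y ∈ (univ : Finset (Fin (2 * m + 1))),
        f x * g y ≤ 1 := by
      intro x _ y _
      simpa using hfg x y
    have h5 : ∑ x, ∑ y, f x * g y ≤ ∑ _x : Fin (2 * m + 1), ∑ _y : Fin (2 * m + 1), (1 : ℝ) :=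
      Finset.sum_le_sum (fun x hx => Finset.sum_le_sum (fun y hy => h4 x hx y hy))
    have h6 : ∑ _x : Fin (2 * m + 1), ∑ _y : Fin (2 * m + 1), (1 : ℝ) = kap m 0 1 ^ 2 := by
      rw [kap_zero_one]
      simp
      ring
    rw [h6] at h5
    exact h5.trans (pow_le_pow_left₀ (kap_pos m _ one_pos).le (kap_le_kmax (Nat.zero_le m) 1) 2)
  · by_cases hg0 : ∀ y, g y = 0
    · have : ∑ y, g y = 0 := Finset.sum_eq_zero (fun y _ => hg0 y)
      rw [this, mul_zero]
      positivity
    · push Not at hg0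
      obtain ⟨y0, hy0⟩ := hg0
      have hy0' : 0 < g y0 := lt_of_le_of_ne (hg y0) (Ne.symm hy0)
      obtain ⟨a, ha⟩ : ∃ a : Fin (2 * m + 1) → ℝ, a = fun x =>
        univ.sup' ⟨0, mem_univ _⟩ (fun y => g y * u ^ (lee x y)) := ⟨_, rfl⟩
      have hle : ∀ x y, g y * u ^ (lee x y) ≤ a x := by
        intro x y
        rw [ha]
        exact Finset.le_sup' (fun y => g y * u ^ (lee x y)) (mem_univ y)
      have hapos : ∀ x, 0 < a x := fun x => lt_of_lt_of_le (by positivity) (hle x y0)
      have hfa : ∀ x, f x ≤ (a x)⁻¹ := by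
        intro x
        obtain ⟨y, -, hy⟩ := Finset.exists_mem_eq_sup' (⟨0, mem_univ _⟩ :
          (univ : Finset (Fin (2 * m + 1))).Nonempty) (fun y => g y * u ^ (lee x y))
        have hy' : a x = g y * u ^ (lee x y) := by rw [ha]; exact hy
        rw [← one_div, le_div_iff₀ (hapos x), hy', ← mul_assoc]
        exact hfg x y
      have hratio : ∀ x x', lee x x' ≤ 1 → a x ≤ u * a x' := by
        intro x x' hxx
        rw [ha]
        refine Finset.sup'_le _ _ (fun y _ => ?_)
        have e1 := hle x' y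
        rw [ha] at e1
        have e2 : u ^ (lee x y) ≤ u * u ^ (lee x' y) := by
          rw [← pow_succ']
          exact pow_le_pow_right₀ hu (lee_succ x x' y hxx)
        calc g y * u ^ (lee x y) ≤ g y * (u * u ^ (lee x' y)) :=
              mul_le_mul_of_nonneg_left e2 (hg y)
          _ = u * (g y * u ^ (lee x' y)) := by ring
          _ ≤ _ := mul_le_mul_of_nonneg_left e1 hu0.le
      have hq : 0 < 2 * m + 1 := by omega
      obtain ⟨b, hb⟩ : ∃ b : ℕ → ℝ, b = fun i => a ⟨i % (2 * m + 1), Nat.mod_lt _ hq⟩ := ⟨_, rfl⟩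
      have hbx : ∀ x : Fin (2 * m + 1), b (x : ℕ) = a x := by
        intro x
        rw [hb]
        simp only
        congr 1
        exact Fin.ext (Nat.mod_eq_of_lt x.2)
      have key := core h1 h2 h3 m u hu1 b (by intro i; rw [hb]; exact hapos _) (by
        rw [hb]
        simp only
        congr 1
        exact Fin.ext (by simp)) (by
        intro i hi
        rw [hb]
        simp only
        have hmod : i % (2 * m + 1) = i := Nat.mod_eq_of_lt hi
        have hmod2 : (i + 1) % (2 * m + 1) = if i = 2 * m then 0 else i + 1 := by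
          split_ifs with hc
          · rw [hc, Nat.mod_self]
          · exact Nat.mod_eq_of_lt (by omega)
        constructor
        · apply hratio
          simp only [lee, Nat.dist, hmod, hmod2]
          split_ifs <;> omega
        · apply hratio
          simp only [lee, Nat.dist, hmod, hmod2]
          split_ifs <;> omega)
      have hP : ∑ x, f x ≤ ∑ i ∈ range (2 * m + 1), (b i)⁻¹ := by
        rw [← Fin.sum_univ_eq_sum_range (fun i => (b i)⁻¹)]
        refine Finset.sum_le_sum (fun x _ => ?_)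
        rw [hbx]
        exact hfa x
      have hQ : (∑ y, g y) * u ^ m ≤ ∑ i ∈ range (2 * m + 1), min (b i) (b (i + 1)) := by
        rw [← Fin.sum_univ_eq_sum_range (fun i => min (b i) (b (i + 1)))]
        rw [← Equiv.sum_comp (Equiv.addRight (⟨(m + 1) % (2 * m + 1), Nat.mod_lt _ hq⟩ :
          Fin (2 * m + 1))) g, Finset.sum_mul]
        refine Finset.sum_le_sum (fun x _ => ?_)
        have hx := x.2
        obtain ⟨v, hv⟩ : ∃ v, v = (Equiv.addRight (⟨(m + 1) % (2 * m + 1), Nat.mod_lt _ hq⟩ :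
          Fin (2 * m + 1))) x := ⟨_, rfl⟩
        rw [← hv]
        have hv1 : (v : ℕ) = if (x : ℕ) < m then (x : ℕ) + m + 1 else (x : ℕ) - m := by
          rw [hv, Equiv.coe_addRight, Fin.val_add]
          simp only [Nat.add_mod_mod]
          split_ifs with hc
          · rw [Nat.mod_eq_of_lt (by omega)]
            omega
          · rw [Nat.mod_eq_sub_mod (by omega), Nat.mod_eq_of_lt (by omega)]
            omega
        have hmod2 : ((x : ℕ) + 1) % (2 * m + 1) = if (x : ℕ) = 2 * m then 0 else (x : ℕ) + 1 := by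
          split_ifs with hc
          · rw [hc, Nat.mod_self]
          · exact Nat.mod_eq_of_lt (by omega)
        refine le_min ?_ ?_
        · rw [hbx]
          have e1 := hle x v
          have e2 : lee x v = m := by
            simp only [lee, Nat.dist, hv1]
            split_ifs <;> omega
          rwa [e2] at e1
        · rw [hb]
          have e1 := hle ⟨((x : ℕ) + 1) % (2 * m + 1), Nat.mod_lt _ hq⟩ v
          have e2 : lee ⟨((x : ℕ) + 1) % (2 * m + 1), Nat.mod_lt _ hq⟩ v = m := by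
            simp only [lee, Nat.dist, hv1, hmod2]
            split_ifs <;> omega
          rwa [e2] at e1
      have hf0 : 0 ≤ ∑ x, f x := Finset.sum_nonneg (fun x _ => hf x)
      have hg1 : 0 ≤ (∑ y, g y) * u ^ m :=
        mul_nonneg (Finset.sum_nonneg (fun x _ => hg x)) (by positivity)
      have hmul := mul_le_mul hP hQ hg1 (hf0.trans hP)
      have hfin := hmul.trans key
      have hum : 0 < u ^ m := pow_pos hu0 m
      have : u ^ m * ((∑ x, f x) * ∑ y, g y) ≤ u ^ m * kmax m u ^ 2 :=
        le_trans (le_of_eq (by ring)) hfin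
      exact le_of_mul_le_mul_left this hum

end Pool.Agent.Lib.MP_72646e_co
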