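import Pool.Agent.Lib.MP_72646e_co.Stmts

set_option autoImplicit false

/-! The diametric problem for the Lee metric: rounding to a lattice. -/

namespace Pool.Agent.Lib.MP_72646e_co

open Finset Filter Topology MeasureTheory

theorem fract_meas (c : ℝ) : Measurable (fun t : ℝ => Int.fract (c + t)) :=
  (measurable_const.add measurable_id).fract

theorem fract_integral (c : ℝ) : ∫ t in (0 : ℝ)..1, Int.fract (c + t) = 1 / 2 := by
  rw [intervalIntegral.integral_comp_add_left (fun x => Int.fract x) c]
  have hp : Function.Periodic (fun x : ℝ => Int.fract x) 1 := fun x => Int.fract_add_one x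
  have h1 := hp.intervalIntegral_add_eq c 0
  rw [add_zero]
  rw [h1, zero_add]
  have h2 : ∫ x in (0 : ℝ)..1, Int.fract x = ∫ x in (0 : ℝ)..1, x := by
    refine intervalIntegral.integral_congr_ae ?_
    filter_upwards [(Set.countable_singleton (1 : ℝ)).ae_notMem volume] with x hx hx2
    rw [Set.uIoc_of_le (by norm_num)] at hx2
    refine Int.fract_eq_self.2 ⟨hx2.1.le, lt_of_le_of_ne hx2.2 ?_⟩
    simpa using hx
  rw [h2, integral_id]
  norm_num

theorem fract_integrable (c : ℝ) :
    Integrable (fun t : ℝ => Int.fract (c + t)) (volume.restrict (Set.Ioc (0 : ℝ) 1)) := by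
  refine Integrable.of_bound (fract_meas c).aestronglyMeasurable 1 (Eventually.of_forall ?_)
  intro t
  rw [Real.norm_of_nonneg (Int.fract_nonneg _)]
  exact (Int.fract_lt_one _).le

/-- a good shift -/
theorem good_shift (q : ℕ) (p r x y : ℕ → ℝ)
    (hpr : ∑ i ∈ range q, p i = ∑ i ∈ range q, r i) :
    ∃ t : ℝ, ∑ i ∈ range q, r i * Int.fract (y i + t) ≤ ∑ i ∈ range q, p i * Int.fract (x i + t) := by
  have hprob : IsProbabilityMeasure (volume.restrict (Set.Ioc (0 : ℝ) 1)) := by
    constructor
    rw [Measure.restrict_apply_univ, Real.volume_Ioc]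
    simp
  have h1 : ∀ w z : ℕ → ℝ, Integrable (fun t : ℝ => ∑ i ∈ range q, w i * Int.fract (z i + t))
      (volume.restrict (Set.Ioc (0 : ℝ) 1)) := by
    intro w z
    refine integrable_finsetSum _ ?_
    intro i _
    exact (fract_integrable (z i)).const_mul (w i)
  have h2 : ∀ w z : ℕ → ℝ, ∫ t in Set.Ioc (0 : ℝ) 1, ∑ i ∈ range q, w i * Int.fract (z i + t)
      = (∑ i ∈ range q, w i) / 2 := by
    intro w z
    rw [integral_finsetSum]
    · rw [Finset.sum_div]
      refine Finset.sum_congr rfl ?_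
      intro i _
      rw [integral_const_mul, ← intervalIntegral.integral_of_le (by norm_num), fract_integral]
      ring
    · intro i _
      exact (fract_integrable (z i)).const_mul (w i)
  obtain ⟨t, ht⟩ := exists_integral_le ((h1 p x).sub (h1 r y))
  refine ⟨t, ?_⟩
  simp only [Pi.sub_apply] at ht
  rw [integral_sub (h1 p x) (h1 r y), h2, h2, hpr] at ht
  linarith

theorem jens (s : Finset ℕ) (b x : ℕ → ℝ) (hb : ∀ i ∈ s, 0 ≤ b i) (hP : 0 < ∑ i ∈ s, b i) :
    (∑ i ∈ s, b i) * Real.exp ((∑ i ∈ s, b i * x i) / ∑ i ∈ s, b i)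
      ≤ ∑ i ∈ s, b i * Real.exp (x i) := by
  set P := ∑ i ∈ s, b i with hPdef
  set c := (∑ i ∈ s, b i * x i) / P with hc
  have h1 : ∀ i ∈ s, b i * (Real.exp c * (1 + (x i - c))) ≤ b i * Real.exp (x i) := by
    intro i hi
    refine mul_le_mul_of_nonneg_left ?_ (hb i hi)
    have h2 := Real.add_one_le_exp (x i - c)
    have h3 : Real.exp (x i) = Real.exp c * Real.exp (x i - c) := by
      rw [← Real.exp_add]; congr 1; ring
    rw [h3]
    refine mul_le_mul_of_nonneg_left ?_ (Real.exp_nonneg _)
    linarith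
  refine le_trans (le_of_eq ?_) (Finset.sum_le_sum h1)
  have h4 : ∑ i ∈ s, b i * (Real.exp c * (1 + (x i - c)))
      = Real.exp c * (P * (1 - c) + ∑ i ∈ s, b i * x i) := by
    rw [hPdef, Finset.sum_mul, ← Finset.sum_add_distrib, Finset.mul_sum]
    refine Finset.sum_congr rfl ?_
    intro i _
    ring
  rw [h4]
  have h5 : ∑ i ∈ s, b i * x i = c * P := by
    rw [hc]
    field_simp
  rw [h5]
  ring

theorem rounding : RoundStmt := by
  intro q u a hq hu ha haq hs
  have hu0 : 0 < u := by linarith
  set lam := Real.log u with hlam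
  have hlam0 : 0 < lam := Real.log_pos hu
  set x : ℕ → ℝ := fun i => Real.log (a i) / lam with hx
  set b : ℕ → ℝ := fun i => min (a i) (a (i + 1)) with hb
  set y : ℕ → ℝ := fun i => min (x i) (x (i + 1)) with hy
  have hb0 : ∀ i, 0 < b i := fun i => lt_min (ha i) (ha (i + 1))
  have hne : (range q).Nonempty := ⟨0, Finset.mem_range.2 hq⟩
  set P := ∑ i ∈ range q, (a i)⁻¹ with hP
  set Q := ∑ i ∈ range q, b i with hQ
  have hP0 : 0 < P := Finset.sum_pos (fun i _ => inv_pos.2 (ha i)) hne
  have hQ0 : 0 < Q := Finset.sum_pos (fun i _ => hb0 i) hne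
  have hxa : ∀ i, lam * x i = Real.log (a i) := by
    intro i
    rw [hx]
    field_simp
  have hyb : ∀ i, lam * y i = Real.log (b i) := by
    intro i
    rcases le_total (a i) (a (i + 1)) with h | h
    · have h1 : x i ≤ x (i + 1) := by
        simp only [hx]
        exact div_le_div_of_nonneg_right (Real.log_le_log (ha i) h) hlam0.le
      simp only [hy, hb]
      rw [min_eq_left h1, min_eq_left h, hxa]
    · have h1 : x (i + 1) ≤ x i := by
        simp only [hx]
        exact div_le_div_of_nonneg_right (Real.log_le_log (ha (i + 1)) h) hlam0.le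
      simp only [hy, hb]
      rw [min_eq_right h1, min_eq_right h, hxa]
  obtain ⟨t, ht⟩ := good_shift q (fun i => (a i)⁻¹ / P) (fun i => b i / Q) x y (by
    rw [← Finset.sum_div, ← Finset.sum_div, ← hP, ← hQ, div_self hP0.ne', div_self hQ0.ne'])
  have hzp : ∀ (z : ℤ), u ^ z = Real.exp (lam * z) := by
    intro z
    rw [← Real.rpow_intCast, Real.rpow_def_of_pos hu0]
  have hfl : ∀ w : ℝ, ((⌊w + t⌋ : ℤ) : ℝ) = w + t - Int.fract (w + t) := by
    intro w
    have := Int.floor_add_fract (w + t)
    linarith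
  have hmin : ∀ i, min ⌊x i + t⌋ ⌊x (i + 1) + t⌋ = ⌊y i + t⌋ := by
    intro i
    rcases le_total (x i) (x (i + 1)) with h | h
    · have h1 : ⌊x i + t⌋ ≤ ⌊x (i + 1) + t⌋ := Int.floor_le_floor (by linarith)
      simp only [hy]
      rw [min_eq_left h1, min_eq_left h]
    · have h1 : ⌊x (i + 1) + t⌋ ≤ ⌊x i + t⌋ := Int.floor_le_floor (by linarith)
      simp only [hy]
      rw [min_eq_right h1, min_eq_right h]
  refine ⟨fun i => ⌊x i + t⌋, ?_, ?_, ?_⟩
  · simp only [hx, haq]
  · intro i hi
    have h1 := hs i hi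
    have h2 : x (i + 1) ≤ x i + 1 := by
      have h3 := Real.log_le_log (ha (i + 1)) h1.1
      rw [Real.log_mul hu0.ne' (ha i).ne', ← hlam, ← hxa, ← hxa] at h3
      have h4 : lam * x (i + 1) ≤ lam * (x i + 1) := by linarith
      exact le_of_mul_le_mul_left h4 hlam0
    have h2' : x i ≤ x (i + 1) + 1 := by
      have h3 := Real.log_le_log (ha i) h1.2
      rw [Real.log_mul hu0.ne' (ha (i + 1)).ne', ← hlam, ← hxa, ← hxa] at h3
      have h4 : lam * x i ≤ lam * (x (i + 1) + 1) := by linarith
      exact le_of_mul_le_mul_left h4 hlam0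
    constructor
    · have h5 : ⌊x (i + 1) + t⌋ ≤ ⌊x i + t + 1⌋ := Int.floor_le_floor (by linarith)
      rwa [Int.floor_add_one] at h5
    · have h5 : ⌊x i + t⌋ ≤ ⌊x (i + 1) + t + 1⌋ := Int.floor_le_floor (by linarith)
      rwa [Int.floor_add_one] at h5
  · have e1 : ∑ i ∈ range q, (u ^ ⌊x i + t⌋)⁻¹ = Real.exp (-(lam * t)) *
        ∑ i ∈ range q, (a i)⁻¹ * Real.exp (lam * Int.fract (x i + t)) := by
      rw [Finset.mul_sum]
      refine Finset.sum_congr rfl ?_
      intro i _
      rw [hzp, hfl, ← Real.exp_neg]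
      have h6 : (a i)⁻¹ = Real.exp (-(lam * x i)) := by
        rw [hxa, Real.exp_neg, Real.exp_log (ha i)]
      rw [h6, ← Real.exp_add, ← Real.exp_add]
      congr 1
      ring
    have e2 : ∑ i ∈ range q, u ^ (min ⌊x i + t⌋ ⌊x (i + 1) + t⌋) = Real.exp (lam * t) *
        ∑ i ∈ range q, b i * Real.exp (-(lam * Int.fract (y i + t))) := by
      rw [Finset.mul_sum]
      refine Finset.sum_congr rfl ?_
      intro i _
      rw [hmin, hzp, hfl]
      have h6 : b i = Real.exp (lam * y i) := by
        rw [hyb, Real.exp_log (hb0 i)]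
      rw [h6, ← Real.exp_add, ← Real.exp_add]
      congr 1
      ring
    rw [e1, e2]
    have j1 := jens (range q) (fun i => (a i)⁻¹) (fun i => lam * Int.fract (x i + t))
      (fun i _ => (inv_pos.2 (ha i)).le) hP0
    have j2 := jens (range q) b (fun i => -(lam * Int.fract (y i + t)))
      (fun i _ => (hb0 i).le) hQ0
    rw [← hP] at j1
    rw [← hQ] at j2
    set A := (∑ i ∈ range q, (a i)⁻¹ * (lam * Int.fract (x i + t))) / P with hA
    set B := (∑ i ∈ range q, b i * -(lam * Int.fract (y i + t))) / Q with hB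
    have hAB : 0 ≤ A + B := by
      have h7 : A = lam * ∑ i ∈ range q, (a i)⁻¹ / P * Int.fract (x i + t) := by
        rw [hA, Finset.sum_div, Finset.mul_sum]
        refine Finset.sum_congr rfl ?_
        intro i _
        ring
      have h8 : B = -(lam * ∑ i ∈ range q, b i / Q * Int.fract (y i + t)) := by
        rw [hB, Finset.sum_div, Finset.mul_sum, ← Finset.sum_neg_distrib]
        refine Finset.sum_congr rfl ?_
        intro i _
        ring
      rw [h7, h8]
      have h9 := mul_le_mul_of_nonneg_left ht hlam0.le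
      linarith
    have hE : Real.exp (-(lam * t)) * Real.exp (lam * t) = 1 := by
      rw [← Real.exp_add]; simp
    have h10 : P * Real.exp A * (Q * Real.exp B) ≤
        (∑ i ∈ range q, (a i)⁻¹ * Real.exp (lam * Int.fract (x i + t))) *
        ∑ i ∈ range q, b i * Real.exp (-(lam * Int.fract (y i + t))) :=
      mul_le_mul j1 j2 (by positivity) (le_trans (by positivity) j1)
    have h11 : P * Q ≤ P * Real.exp A * (Q * Real.exp B) := by
      have h12 : P * Real.exp A * (Q * Real.exp B) = P * Q * Real.exp (A + B) := by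
        rw [Real.exp_add]; ring
      rw [h12]
      exact le_mul_of_one_le_right (by positivity) (Real.one_le_exp hAB)
    calc P * Q ≤ _ := h11.trans h10
      _ = (Real.exp (-(lam * t)) * Real.exp (lam * t)) *
        ((∑ i ∈ range q, (a i)⁻¹ * Real.exp (lam * Int.fract (x i + t))) *
        ∑ i ∈ range q, b i * Real.exp (-(lam * Int.fract (y i + t)))) := by rw [hE, one_mul]
      _ = _ := by ring

end Pool.Agent.Lib.MP_72646e_co
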