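import Pool.Agent.Lib.MP_72646e_co.Gen
import Pool.Agent.Lib.MP_72646e_co.Int
import Pool.Agent.Lib.MP_72646e_co.Round
import Pool.Agent.Lib.MP_72646e_co.Kap
import Pool.Agent.Lib.MP_72646e_co.One
import Pool.Agent.Lib.MP_72646e_co.Minimax

set_option autoImplicit false

/-! Products of a Lee ball and a subcube. -/

namespace Pool.Agent.Lib.MP_72646e_co

open Finset Filter Topology

/-- The product of the Lee ball of radius `r` in the coordinates outside `S` and of all of the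
coordinates in `S`. -/
def ballCube (m n : ℕ) (S : Finset (Fin n)) (r : ℕ) : Finset (Fin n → Fin (2 * m + 1)) :=
  univ.filter fun x => ∑ i ∈ Sᶜ, lee 0 (x i) ≤ r

/-- The largest cardinality of such a product with `m |S| + 2 r ≤ D`. -/
noncomputable def BC (m n D : ℕ) : ℕ :=
  sSup {c | ∃ (S : Finset (Fin n)) (r : ℕ), m * S.card + 2 * r ≤ D ∧ (ballCube m n S r).card = c}

theorem bddAbove_BC (m n D : ℕ) : BddAbove {c | ∃ (S : Finset (Fin n)) (r : ℕ),
    m * S.card + 2 * r ≤ D ∧ (ballCube m n S r).card = c} := by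
  refine ⟨Fintype.card (Fin n → Fin (2 * m + 1)), ?_⟩
  rintro c ⟨S, r, -, rfl⟩
  exact Finset.card_le_univ _

theorem card_le_BC {m n D : ℕ} (S : Finset (Fin n)) (r : ℕ) (h : m * S.card + 2 * r ≤ D) :
    (ballCube m n S r).card ≤ BC m n D :=
  le_csSup (bddAbove_BC m n D) ⟨S, r, h, rfl⟩

theorem exists_BC (m n D : ℕ) : ∃ (S : Finset (Fin n)) (r : ℕ),
    m * S.card + 2 * r ≤ D ∧ (ballCube m n S r).card = BC m n D := by
  have hne : {c | ∃ (S : Finset (Fin n)) (r : ℕ),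
      m * S.card + 2 * r ≤ D ∧ (ballCube m n S r).card = c}.Nonempty :=
    ⟨_, ∅, 0, by simp, rfl⟩
  exact Nat.sSup_mem hne (bddAbove_BC m n D)

theorem arc_eq_lee (m : ℕ) (x : Fin (2 * m + 1)) : arcDist m m x = lee 0 x := by
  have hx := x.2
  simp only [arcDist, lee, Nat.dist, Fin.val_zero]
  omega

theorem ph_zero (m : ℕ) (x : Fin (2 * m + 1)) : ph m 0 x = (m : ℝ) / 2 := by
  simp [ph, arcDist]

theorem ph_self (m : ℕ) (x : Fin (2 * m + 1)) : ph m m x = lee 0 x := by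
  simp [ph, arc_eq_lee]

theorem sum_ph {m n : ℕ} (S : Finset (Fin n)) (x : Fin n → Fin (2 * m + 1)) :
    ∑ i, ph m (if i ∈ S then 0 else m) (x i) =
      (m : ℝ) * S.card / 2 + ((∑ i ∈ Sᶜ, lee 0 (x i) : ℕ) : ℝ) := by
  rw [← Finset.sum_add_sum_compl S]
  have h1 : ∑ i ∈ S, ph m (if i ∈ S then 0 else m) (x i) = (m : ℝ) * S.card / 2 := by
    rw [Finset.sum_congr rfl (g := fun _ => (m : ℝ) / 2)]
    · rw [Finset.sum_const, nsmul_eq_mul]
      ring
    · intro i hi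
      rw [if_pos hi, ph_zero]
  have h2 : ∑ i ∈ Sᶜ, ph m (if i ∈ S then 0 else m) (x i) =
      ((∑ i ∈ Sᶜ, lee 0 (x i) : ℕ) : ℝ) := by
    rw [Nat.cast_sum]
    refine Finset.sum_congr rfl (fun i hi => ?_)
    rw [if_neg (Finset.mem_compl.1 hi), ph_self]
  rw [h1, h2]

theorem BC_le_NL (m n D : ℕ) : BC m n D ≤ NL (2 * m + 1) n D := by
  obtain ⟨S, r, hSr, hcard⟩ := exists_BC m n D
  rw [← hcard]
  refine diam m n D (fun i => if i ∈ S then 0 else m) (fun i => by split_ifs <;> omega) _ ?_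
  intro x hx
  have h1 : ∑ i ∈ Sᶜ, lee 0 (x i) ≤ r := (Finset.mem_filter.1 hx).2
  rw [sum_ph]
  have h2 : ((∑ i ∈ Sᶜ, lee 0 (x i) : ℕ) : ℝ) ≤ r := by exact_mod_cast h1
  have h3 : (m : ℝ) * S.card + 2 * r ≤ D := by exact_mod_cast hSr
  linarith

theorem one_le_BC (m n D : ℕ) : 1 ≤ BC m n D := by
  have h1 := card_le_BC (m := m) (n := n) (D := D) ∅ 0 (by simp)
  refine le_trans ?_ h1
  apply Finset.card_pos.2
  refine ⟨fun _ => 0, ?_⟩
  simp [ballCube, lee]

/-- Upper bound for the products of a ball and a subcube. -/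
theorem BC_le (m n D : ℕ) {u K : ℝ} (hu : 1 ≤ u) (h0 : kap m 0 u ≤ K) (hm : kap m m u ≤ K) :
    (BC m n D : ℝ) ≤ u ^ ((D : ℝ) / 2) * K ^ n := by
  have hu0 : 0 < u := by linarith
  obtain ⟨S, r, hSr, hcard⟩ := exists_BC m n D
  rw [← hcard]
  have h3 : (m : ℝ) * S.card + 2 * r ≤ D := by exact_mod_cast hSr
  have h1 : ((ballCube m n S r).card : ℝ) ≤ ∑ x : Fin n → Fin (2 * m + 1),
      u ^ ((D : ℝ) / 2) * ∏ i, u ^ (-(ph m (if i ∈ S then 0 else m) (x i))) := by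
    have h4 : ((ballCube m n S r).card : ℝ) = ∑ x ∈ ballCube m n S r, (1 : ℝ) := by simp
    rw [h4]
    refine le_trans (Finset.sum_le_sum (g := fun x => u ^ ((D : ℝ) / 2) *
      ∏ i, u ^ (-(ph m (if i ∈ S then 0 else m) (x i)))) ?_) ?_
    · intro x hx
      have h5 : ∑ i ∈ Sᶜ, lee 0 (x i) ≤ r := (Finset.mem_filter.1 hx).2
      have h6 : ((∑ i ∈ Sᶜ, lee 0 (x i) : ℕ) : ℝ) ≤ r := by exact_mod_cast h5
      rw [← Real.rpow_sum_of_pos hu0, Finset.sum_neg_distrib, sum_ph, ← Real.rpow_add hu0]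
      apply Real.one_le_rpow hu
      linarith
    · apply Finset.sum_le_sum_of_subset_of_nonneg (Finset.subset_univ _)
      intro x _ _
      have := Real.rpow_pos_of_pos hu0 ((D : ℝ) / 2)
      exact mul_nonneg this.le (Finset.prod_nonneg (fun i _ => (Real.rpow_pos_of_pos hu0 _).le))
  refine h1.trans ?_
  rw [← Finset.mul_sum]
  apply mul_le_mul_of_nonneg_left _ (Real.rpow_pos_of_pos hu0 _).le
  have h7 : ∑ x : Fin n → Fin (2 * m + 1), ∏ i, u ^ (-(ph m (if i ∈ S then 0 else m) (x i))) =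
      ∏ i : Fin n, kap m (if i ∈ S then 0 else m) u := by
    unfold kap
    rw [Finset.prod_univ_sum, Fintype.piFinset_univ]
  rw [h7]
  have h8 : ∏ i : Fin n, kap m (if i ∈ S then 0 else m) u ≤ ∏ _i : Fin n, K := by
    apply Finset.prod_le_prod
    · intro i _
      exact (kap_pos m _ hu0).le
    · intro i _
      split_ifs <;> assumption
  rw [Finset.prod_const, Finset.card_univ, Fintype.card_fin] at h8
  exact h8

/-- Sets of type `0` and `m` are products of a ball and a subcube. -/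
theorem card_le_BC_of_types {m n D : ℕ} (HH : Fin n → ℕ) (hHH : ∀ i, HH i = 0 ∨ HH i = m)
    (hpos : 0 < (univ.filter fun x : Fin n → Fin (2 * m + 1) =>
      ∑ i, ph m (HH i) (x i) ≤ (D : ℝ) / 2).card) :
    (univ.filter fun x : Fin n → Fin (2 * m + 1) =>
      ∑ i, ph m (HH i) (x i) ≤ (D : ℝ) / 2).card ≤ BC m n D := by
  obtain ⟨S, hS⟩ : ∃ S : Finset (Fin n), S = univ.filter (fun i => HH i = 0) := ⟨_, rfl⟩
  have hHS : ∀ i, HH i = if i ∈ S then 0 else m := by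
    intro i
    by_cases h : i ∈ S
    · rw [if_pos h]
      rw [hS, Finset.mem_filter] at h
      exact h.2
    · rw [if_neg h]
      rw [hS, Finset.mem_filter] at h
      rcases hHH i with h1 | h1
      · exact absurd ⟨mem_univ _, h1⟩ h
      · exact h1
  have hsum : ∀ x : Fin n → Fin (2 * m + 1), ∑ i, ph m (HH i) (x i) =
      (m : ℝ) * S.card / 2 + ((∑ i ∈ Sᶜ, lee 0 (x i) : ℕ) : ℝ) := by
    intro x
    rw [← sum_ph]
    exact Finset.sum_congr rfl (fun i _ => by rw [← hHS i])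
  obtain ⟨x0, hx0⟩ := Finset.card_pos.1 hpos
  have h0 := (Finset.mem_filter.1 hx0).2
  rw [hsum] at h0
  have h1 : (m : ℝ) * S.card ≤ D := by
    have : (0 : ℝ) ≤ ((∑ i ∈ Sᶜ, lee 0 (x0 i) : ℕ) : ℝ) := Nat.cast_nonneg _
    linarith
  have h2 : m * S.card ≤ D := by exact_mod_cast h1
  refine le_trans (Finset.card_le_card ?_) (card_le_BC (D := D) S ((D - m * S.card) / 2) (by omega))
  intro x hx
  have h3 := (Finset.mem_filter.1 hx).2
  rw [hsum] at h3
  refine Finset.mem_filter.2 ⟨mem_univ _, ?_⟩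
  have h4 : (m : ℝ) * S.card + 2 * ((∑ i ∈ Sᶜ, lee 0 (x i) : ℕ) : ℝ) ≤ D := by linarith
  have h5 : m * S.card + 2 * (∑ i ∈ Sᶜ, lee 0 (x i)) ≤ D := by exact_mod_cast h4
  omega

end Pool.Agent.Lib.MP_72646e_co
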