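import Pool.Agent.Lib.MP_72646e_co.Stmts

set_option autoImplicit false

/-! The diametric problem for the Lee metric: tilted counting. -/

namespace Pool.Agent.Lib.MP_72646e_co

open Finset Filter Topology

theorem sum_prod_fun {q n : ℕ} (w : Fin n → Fin q → ℝ) :
    ∑ x : Fin n → Fin q, ∏ k, w k (x k) = ∏ k, ∑ y, w k y := by
  rw [Finset.prod_univ_sum, Fintype.piFinset_univ]

/-- the second moment of a sum of independent centred variables -/
theorem second_moment {q n : ℕ} (p ψ : Fin n → Fin q → ℝ) (h1 : ∀ k, ∑ y, p k y = 1)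
    (h2 : ∀ k, ∑ y, p k y * ψ k y = 0) :
    ∑ x : Fin n → Fin q, (∏ k, p k (x k)) * (∑ i, ψ i (x i)) ^ 2
      = ∑ i, ∑ y, p i y * ψ i y ^ 2 := by
  have e1 : ∀ x : Fin n → Fin q, (∏ k, p k (x k)) * (∑ i, ψ i (x i)) ^ 2
      = ∑ i, ∑ j, ∏ k, (p k (x k) * (if k = i then ψ k (x k) else 1)
        * (if k = j then ψ k (x k) else 1)) := by
    intro x
    rw [sq, Finset.sum_mul_sum, Finset.mul_sum]
    refine Finset.sum_congr rfl ?_
    intro i _
    rw [Finset.mul_sum]
    refine Finset.sum_congr rfl ?_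
    intro j _
    rw [Finset.prod_mul_distrib, Finset.prod_mul_distrib, Finset.prod_ite_eq',
      Finset.prod_ite_eq']
    simp
    ring
  rw [Finset.sum_congr rfl (fun x _ => e1 x), Finset.sum_comm]
  refine Finset.sum_congr rfl ?_
  intro i _
  rw [Finset.sum_comm]
  rw [Finset.sum_eq_single i]
  · rw [sum_prod_fun (fun k y => p k y * (if k = i then ψ k y else 1)
        * (if k = i then ψ k y else 1))]
    rw [Finset.prod_eq_single i]
    · refine Finset.sum_congr rfl ?_
      intro y _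
      simp
      ring
    · intro k _ hk
      simp [hk, h1]
    · intro h
      exact absurd (Finset.mem_univ i) h
  · intro j _ hj
    rw [sum_prod_fun (fun k y => p k y * (if k = i then ψ k y else 1)
        * (if k = j then ψ k y else 1))]
    refine Finset.prod_eq_zero (Finset.mem_univ i) ?_
    have : ∀ y, p i y * (if i = i then ψ i y else 1) * (if i = j then ψ i y else 1)
        = p i y * ψ i y := by
      intro y
      rw [if_pos rfl, if_neg (Ne.symm hj), mul_one]
    rw [Finset.sum_congr rfl (fun y _ => this y), h2]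
  · intro h
    exact absurd (Finset.mem_univ i) h

theorem count : CountStmt := by
  intro q n b φ s ε hq hs hε hφ hb M hM
  have : Nonempty (Fin q) := ⟨⟨0, hq⟩⟩
  set Z : Fin n → ℝ := fun i => ∑ x, Real.exp (-(s * φ i x)) with hZ
  have hZ0 : ∀ i, 0 < Z i := fun i =>
    Finset.sum_pos (fun x _ => Real.exp_pos _) Finset.univ_nonempty
  set p : Fin n → Fin q → ℝ := fun i x => Real.exp (-(s * φ i x)) / Z i with hp
  set E : Fin n → ℝ := fun i => (∑ x, φ i x * Real.exp (-(s * φ i x))) / Z i with hE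
  have hME : M = ∑ i, E i := hM
  have hp0 : ∀ i x, 0 ≤ p i x := fun i x => div_nonneg (Real.exp_nonneg _) (hZ0 i).le
  have hp1 : ∀ i, ∑ x, p i x = 1 := by
    intro i
    simp only [hp]
    rw [← Finset.sum_div]
    exact div_self (hZ0 i).ne'
  have hEp : ∀ i, E i = ∑ x, p i x * φ i x := by
    intro i
    simp only [hE, hp]
    rw [Finset.sum_div]
    refine Finset.sum_congr rfl ?_
    intro x _
    ring
  have hE0 : ∀ i, 0 ≤ E i := by
    intro i
    rw [hEp]
    exact Finset.sum_nonneg fun x _ => mul_nonneg (hp0 i x) (hφ i x).1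
  have hEb : ∀ i, E i ≤ b := by
    intro i
    rw [hEp]
    calc ∑ x, p i x * φ i x ≤ ∑ x, p i x * b :=
          Finset.sum_le_sum fun x _ => mul_le_mul_of_nonneg_left (hφ i x).2 (hp0 i x)
      _ = b := by rw [← Finset.sum_mul, hp1, one_mul]
  set ψ : Fin n → Fin q → ℝ := fun i x => φ i x - E i with hψ
  have hψ0 : ∀ i, ∑ x, p i x * ψ i x = 0 := by
    intro i
    simp only [hψ, mul_sub]
    rw [Finset.sum_sub_distrib, ← hEp, ← Finset.sum_mul, hp1]
    ring
  have hψb : ∀ i x, ψ i x ^ 2 ≤ b ^ 2 := by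
    intro i x
    have h1 := hφ i x
    have h2 := hE0 i
    have h3 := hEb i
    apply sq_le_sq'
    · simp only [hψ]; linarith
    · simp only [hψ]; linarith
  have hvar : ∀ i, ∑ x, p i x * ψ i x ^ 2 ≤ b ^ 2 := by
    intro i
    calc ∑ x, p i x * ψ i x ^ 2 ≤ ∑ x, p i x * b ^ 2 :=
          Finset.sum_le_sum fun x _ => mul_le_mul_of_nonneg_left (hψb i x) (hp0 i x)
      _ = b ^ 2 := by rw [← Finset.sum_mul, hp1, one_mul]
  have hsm := second_moment p ψ hp1 hψ0
  have hsm2 : ∑ x : Fin n → Fin q, (∏ k, p k (x k)) * (∑ i, ψ i (x i)) ^ 2 ≤ n * b ^ 2 := by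
    rw [hsm]
    calc ∑ i, ∑ y, p i y * ψ i y ^ 2 ≤ ∑ _i : Fin n, b ^ 2 :=
          Finset.sum_le_sum fun i _ => hvar i
      _ = n * b ^ 2 := by simp
  have htot : ∑ x : Fin n → Fin q, ∏ k, p k (x k) = 1 := by
    rw [sum_prod_fun p]
    simp [hp1]
  have hS : ∀ x : Fin n → Fin q, ∑ i, ψ i (x i) = ∑ i, φ i (x i) - M := by
    intro x
    simp only [hψ]
    rw [Finset.sum_sub_distrib, hME]
  have hμ : ∀ x : Fin n → Fin q, ∏ k, p k (x k)
      = Real.exp (-(s * ∑ i, φ i (x i))) / ∏ i, Z i := by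
    intro x
    simp only [hp]
    rw [Finset.prod_div_distrib, ← Real.exp_sum]
    congr 2
    rw [Finset.mul_sum, Finset.sum_neg_distrib]
  have hμ0 : ∀ x : Fin n → Fin q, 0 ≤ ∏ k, p k (x k) :=
    fun x => Finset.prod_nonneg fun k _ => hp0 k (x k)
  set Good := univ.filter (fun x : Fin n → Fin q => |∑ i, φ i (x i) - M| ≤ ε * n) with hGood
  have hhalf : (1 : ℝ) / 2 ≤ ∑ x ∈ Good, ∏ k, p k (x k) := by
    rcases Nat.eq_zero_or_pos n with hn | hn
    · subst hn
      have : Good = univ := by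
        rw [hGood, Finset.filter_true_of_mem]
        intro x _
        simp [hME]
      rw [this, htot]
      norm_num
    · have hn0 : (0 : ℝ) < n := by exact_mod_cast hn
      have hbad : (ε * n) ^ 2 * ∑ x ∈ univ.filter (fun x : Fin n → Fin q =>
          ¬ |∑ i, φ i (x i) - M| ≤ ε * n), ∏ k, p k (x k) ≤ n * b ^ 2 := by
        refine le_trans ?_ hsm2
        rw [Finset.mul_sum]
        refine le_trans (Finset.sum_le_sum (fun x hx => ?_))
          (Finset.sum_le_sum_of_subset_of_nonneg (Finset.filter_subset _ _)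
            (fun x _ _ => mul_nonneg (hμ0 x) (sq_nonneg _)))
        rw [Finset.mem_filter] at hx
        have h1 := hx.2
        push Not at h1
        rw [mul_comm]
        refine mul_le_mul_of_nonneg_left ?_ (hμ0 x)
        rw [hS, ← sq_abs (∑ i, φ i (x i) - M)]
        exact pow_le_pow_left₀ (by positivity) h1.le 2
      have hsplit := Finset.sum_filter_add_sum_filter_not (univ : Finset (Fin n → Fin q))
        (fun x : Fin n → Fin q => |∑ i, φ i (x i) - M| ≤ ε * n) (fun x => ∏ k, p k (x k))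
      rw [htot] at hsplit
      set Bd := ∑ x ∈ univ.filter (fun x : Fin n → Fin q =>
          ¬ |∑ i, φ i (x i) - M| ≤ ε * n), ∏ k, p k (x k) with hBd
      have h3 : (ε * n) ^ 2 * Bd ≤ (ε * n) ^ 2 * (1 / 2) := by
        refine hbad.trans ?_
        nlinarith
      have h4 : Bd ≤ 1 / 2 := le_of_mul_le_mul_left h3 (by positivity)
      linarith
  have hbound : ∑ x ∈ Good, ∏ k, p k (x k)
      ≤ (Good.card : ℝ) * (Real.exp (-(s * (M - ε * n))) / ∏ i, Z i) := by
    rw [← nsmul_eq_mul]
    refine Finset.sum_le_card_nsmul _ _ _ ?_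
    intro x hx
    rw [hGood, Finset.mem_filter] at hx
    have h1 := (abs_le.1 hx.2).1
    rw [hμ]
    refine div_le_div_of_nonneg_right ?_ (Finset.prod_nonneg fun i _ => (hZ0 i).le)
    apply Real.exp_le_exp.2
    have : s * (M - ε * n) ≤ s * ∑ i, φ i (x i) :=
      mul_le_mul_of_nonneg_left (by linarith) hs
    linarith
  have hcard : (Good.card : ℝ) ≤
      ((univ.filter fun x : Fin n → Fin q => ∑ i, φ i (x i) ≤ M + ε * n).card : ℝ) := by
    have : Good.card ≤
        (univ.filter fun x : Fin n → Fin q => ∑ i, φ i (x i) ≤ M + ε * n).card := by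
      apply Finset.card_le_card
      intro x hx
      rw [hGood, Finset.mem_filter] at hx
      rw [Finset.mem_filter]
      refine ⟨Finset.mem_univ _, ?_⟩
      have h1 := (abs_le.1 hx.2).2
      linarith
    exact_mod_cast this
  refine le_trans ?_ hcard
  have hZp : 0 < ∏ i, Z i := Finset.prod_pos fun i _ => hZ0 i
  have h5 := hhalf.trans hbound
  have h6 : Real.exp (-(s * (M - ε * n))) * Real.exp (s * (M - ε * n)) = 1 := by
    rw [← Real.exp_add]; simp
  have h7 : 1 / 2 * Real.exp (s * (M - ε * n)) * ∏ i, Z i ≤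
      ((Good.card : ℝ) * (Real.exp (-(s * (M - ε * n))) / ∏ i, Z i))
        * Real.exp (s * (M - ε * n)) * ∏ i, Z i := by
    gcongr
  refine h7.trans (le_of_eq ?_)
  calc _ = (Good.card : ℝ) * (Real.exp (-(s * (M - ε * n))) * Real.exp (s * (M - ε * n)))
        * ((∏ i, Z i) / ∏ i, Z i) := by ring
    _ = _ := by rw [h6, div_self hZp.ne']; ring

end Pool.Agent.Lib.MP_72646e_co
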