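import Pool.Agent.Lib.MP_72646e_co.Diam

set_option autoImplicit false

/-! Two sets on an odd cycle with small cross distances. -/

namespace Pool.Agent.Lib.MP_72646e_co

open Finset

/-- Rotation by `s`. -/
def sh {m : ℕ} (x : Fin (2 * m + 1)) (s : ℕ) : Fin (2 * m + 1) :=
  ⟨((x : ℕ) + s) % (2 * m + 1), Nat.mod_lt _ (by omega)⟩

theorem sh_sh {m : ℕ} (x : Fin (2 * m + 1)) (s t : ℕ) : sh (sh x s) t = sh x (s + t) := by
  apply Fin.ext
  simp [sh, Nat.add_assoc]

theorem sh_val {m : ℕ} (x : Fin (2 * m + 1)) {s : ℕ} (hs : s ≤ 2 * m + 1) :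
    ((sh x s : Fin (2 * m + 1)) : ℕ) = if (x : ℕ) + s < 2 * m + 1 then (x : ℕ) + s
      else (x : ℕ) + s - (2 * m + 1) := by
  have hx := x.2
  unfold sh
  simp only
  split_ifs with h
  · exact Nat.mod_eq_of_lt h
  · rw [Nat.mod_eq_sub_mod (by omega), Nat.mod_eq_of_lt (by omega)]

theorem lee_sh {m : ℕ} (x : Fin (2 * m + 1)) {s : ℕ} (hs : s ≤ 2 * m + 1) :
    lee x (sh x s) = min s (2 * m + 1 - s) := by
  have hx := x.2
  have h := sh_val x hs
  simp only [lee, Nat.dist, h]
  split_ifs <;> omega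

theorem sh_inj {m : ℕ} (s : ℕ) : Function.Injective (fun x : Fin (2 * m + 1) => sh x s) := by
  have h1 : ∀ x : Fin (2 * m + 1), sh (sh x s) ((2 * m + 1) * s - s) = x := by
    intro x
    rw [sh_sh]
    apply Fin.ext
    have h2 : s ≤ (2 * m + 1) * s := Nat.le_mul_of_pos_left s (by omega)
    have h3 : (x : ℕ) + (s + ((2 * m + 1) * s - s)) = (x : ℕ) + (2 * m + 1) * s := by omega
    simp only [sh, h3, Nat.add_mul_mod_self_left]
    exact Nat.mod_eq_of_lt x.2
  intro x y hxy
  have h2 := congrArg (fun z => sh z ((2 * m + 1) * s - s)) hxy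
  simp only [h1] at h2
  exact h2

theorem exists_sh {m : ℕ} (x y : Fin (2 * m + 1)) : ∃ s, y = sh x s := by
  refine ⟨(y : ℕ) + (2 * m + 1 - (x : ℕ)), ?_⟩
  have hx := x.2
  have hy := y.2
  apply Fin.ext
  have h1 : (x : ℕ) + ((y : ℕ) + (2 * m + 1 - (x : ℕ))) = (y : ℕ) + (2 * m + 1) := by omega
  simp only [sh, h1, Nat.add_mod_right]
  exact (Nat.mod_eq_of_lt hy).symm

/-- A set closed under the rotation by one is everything. -/
theorem eq_univ_of_closed {m : ℕ} {U : Finset (Fin (2 * m + 1))} (hne : U.Nonempty)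
    (h : ∀ y ∈ U, sh y 1 ∈ U) : U = univ := by
  obtain ⟨x, hx⟩ := hne
  have h1 : ∀ s, sh x s ∈ U := by
    intro s
    induction s with
    | zero =>
      have : sh x 0 = x := by
        apply Fin.ext
        simp only [sh, Nat.add_zero]
        exact Nat.mod_eq_of_lt x.2
      rw [this]; exact hx
    | succ s ih =>
      rw [← sh_sh]
      exact h _ ih
  ext y
  simp only [mem_univ, iff_true]
  obtain ⟨s, rfl⟩ := exists_sh x y
  exact h1 s

open scoped Classical in
/-- Growth of the sum of a set and an interval. -/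
theorem growth {m : ℕ} (X : Finset (Fin (2 * m + 1))) (hX : X.Nonempty) (a k : ℕ) :
    min (2 * m + 1) (X.card + k) ≤
      (univ.filter fun y : Fin (2 * m + 1) => ∃ x ∈ X, ∃ s, a ≤ s ∧ s ≤ a + k ∧
        y = sh x s).card := by
  induction k with
  | zero =>
    have h1 : X.image (fun x => sh x a) ⊆
        (univ.filter fun y : Fin (2 * m + 1) => ∃ x ∈ X, ∃ s, a ≤ s ∧ s ≤ a + 0 ∧ y = sh x s) := by
      intro y hy
      rw [Finset.mem_image] at hy
      obtain ⟨x, hx, rfl⟩ := hy
      exact Finset.mem_filter.2 ⟨mem_univ _, x, hx, a, le_rfl, le_rfl, rfl⟩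
    have h2 := Finset.card_le_card h1
    rw [Finset.card_image_of_injective _ (sh_inj a)] at h2
    omega
  | succ k ih =>
    set U := (univ.filter fun y : Fin (2 * m + 1) => ∃ x ∈ X, ∃ s, a ≤ s ∧ s ≤ a + k ∧
        y = sh x s) with hU
    have hsub : U ⊆ (univ.filter fun y : Fin (2 * m + 1) => ∃ x ∈ X, ∃ s, a ≤ s ∧
        s ≤ a + (k + 1) ∧ y = sh x s) := by
      intro y hy
      obtain ⟨-, x, hx, s, h1, h2, h3⟩ := Finset.mem_filter.1 hy
      exact Finset.mem_filter.2 ⟨mem_univ _, x, hx, s, h1, by omega, h3⟩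
    have hUne : U.Nonempty := by
      obtain ⟨x, hx⟩ := hX
      exact ⟨sh x a, Finset.mem_filter.2 ⟨mem_univ _, x, hx, a, le_rfl, by omega, rfl⟩⟩
    by_cases hun : U = univ
    · have h1 := Finset.card_le_card hsub
      rw [hun, Finset.card_univ, Fintype.card_fin] at h1
      omega
    · have h1 : ∃ y ∈ U, sh y 1 ∉ U := by
        by_contra hcon
        push Not at hcon
        exact hun (eq_univ_of_closed hUne hcon)
      obtain ⟨y, hy, hy1⟩ := h1
      have h2 : insert (sh y 1) U ⊆ (univ.filter fun y : Fin (2 * m + 1) => ∃ x ∈ X, ∃ s, a ≤ s ∧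
        s ≤ a + (k + 1) ∧ y = sh x s) := by
        intro z hz
        rw [Finset.mem_insert] at hz
        rcases hz with rfl | hz
        · obtain ⟨-, x, hx, s, h1, h2, h3⟩ := Finset.mem_filter.1 hy
          refine Finset.mem_filter.2 ⟨mem_univ _, x, hx, s + 1, by omega, by omega, ?_⟩
          rw [h3, sh_sh]
        · exact hsub hz
      have h3 := Finset.card_le_card h2
      rw [Finset.card_insert_of_notMem hy1] at h3
      omega

open scoped Classical in
/-- Two nonempty sets on the cycle of length `2 m + 1` with all cross distances at most `d < m`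
have at most `2 (d + 1)` elements together. -/
theorem cross {m : ℕ} (X Y : Finset (Fin (2 * m + 1))) (d : ℕ) (hd : d < m) (hX : X.Nonempty)
    (hY : Y.Nonempty) (h : ∀ x ∈ X, ∀ y ∈ Y, lee x y ≤ d) : X.card + Y.card ≤ 2 * (d + 1) := by
  have h1 := growth X hX (d + 1) (2 * m - 1 - 2 * d)
  set U := (univ.filter fun y : Fin (2 * m + 1) => ∃ x ∈ X, ∃ s, d + 1 ≤ s ∧
    s ≤ d + 1 + (2 * m - 1 - 2 * d) ∧ y = sh x s) with hU
  have h2 : Disjoint U Y := by
    rw [Finset.disjoint_left]
    intro y hy hyY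
    obtain ⟨-, x, hx, s, h1, h2, h3⟩ := Finset.mem_filter.1 hy
    have h4 := h x hx y hyY
    rw [h3, lee_sh x (by omega)] at h4
    omega
  have h3 : U.card + Y.card ≤ 2 * m + 1 := by
    rw [← Finset.card_union_of_disjoint h2]
    have := Finset.card_le_univ (U ∪ Y)
    rwa [Fintype.card_fin] at this
  have h4 := hY.card_pos
  omega

end Pool.Agent.Lib.MP_72646e_co
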