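import Pool.Agent.Lib.MP_72646e_co.Stmts

set_option autoImplicit false

/-! Product sets have small Lee diameter. -/

namespace Pool.Agent.Lib.MP_72646e_co

open Finset

theorem lee_le_arc {m H : ℕ} (hH : H ≤ m) (x y : Fin (2 * m + 1)) :
    lee x y ≤ (m - H) + arcDist m H x + arcDist m H y := by
  have hx := x.2
  have hy := y.2
  simp only [lee, arcDist, Nat.dist]
  omega

theorem lee_le_ph {m H : ℕ} (hH : H ≤ m) (x y : Fin (2 * m + 1)) :
    (lee x y : ℝ) ≤ ph m H x + ph m H y := by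
  have h := lee_le_arc hH x y
  have h2 : (lee x y : ℝ) ≤ ((m - H : ℕ) : ℝ) + arcDist m H x + arcDist m H y := by
    exact_mod_cast h
  rw [Nat.cast_sub hH] at h2
  simp only [ph]
  linarith

theorem bddAbove_NL (q n D : ℕ) :
    BddAbove {c | ∃ A : Finset (Fin n → Fin q), (∀ x ∈ A, ∀ y ∈ A, dL x y ≤ D) ∧ A.card = c} := by
  refine ⟨Fintype.card (Fin n → Fin q), ?_⟩
  rintro c ⟨A, -, rfl⟩
  exact Finset.card_le_univ A

theorem card_le_NL {q n D : ℕ} {A : Finset (Fin n → Fin q)}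
    (h : ∀ x ∈ A, ∀ y ∈ A, dL x y ≤ D) : A.card ≤ NL q n D :=
  le_csSup (bddAbove_NL q n D) ⟨A, h, rfl⟩

theorem exists_NL (q n D : ℕ) :
    ∃ A : Finset (Fin n → Fin q), (∀ x ∈ A, ∀ y ∈ A, dL x y ≤ D) ∧ A.card = NL q n D := by
  have hne : {c | ∃ A : Finset (Fin n → Fin q),
      (∀ x ∈ A, ∀ y ∈ A, dL x y ≤ D) ∧ A.card = c}.Nonempty := ⟨0, ∅, by simp, rfl⟩
  exact Nat.sSup_mem hne (bddAbove_NL q n D)

theorem diam : DiamStmt := by
  intro m n D H hH A hA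
  refine card_le_NL ?_
  intro x hx y hy
  have h1 : (dL x y : ℝ) ≤ D := by
    calc (dL x y : ℝ) = ∑ t, (lee (x t) (y t) : ℝ) := by simp [dL]
      _ ≤ ∑ t, (ph m (H t) (x t) + ph m (H t) (y t)) :=
        Finset.sum_le_sum (fun t _ => lee_le_ph (hH t) _ _)
      _ = ∑ t, ph m (H t) (x t) + ∑ t, ph m (H t) (y t) := Finset.sum_add_distrib
      _ ≤ (D : ℝ) / 2 + (D : ℝ) / 2 := add_le_add (hA x hx) (hA y hy)
      _ = D := by ring
  exact_mod_cast h1

end Pool.Agent.Lib.MP_72646e_co
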