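import Pool.Agent.Lib.MP_72646e_co.Large

set_option autoImplicit false

/-! Assembly: the exponential rate, and when products of balls and subcubes attain it. -/

namespace Pool.Agent.Lib.MP_72646e_co

open Finset Filter Topology

theorem upperThm : UpperStmt := upper (oneDim intHeight rounding kapEq)

theorem lowerThm : LowerStmt := lower diam count minimax

theorem rateThm : RateStmt := rate_main upperThm lowerThm

theorem log_NL_nonneg (m n D : ℕ) : 0 ≤ Real.log (NL (2 * m + 1) n D) := by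
  apply Real.log_nonneg
  exact_mod_cast one_le_NL (2 * m + 1) n D (by omega)

theorem log_BC_nonneg (m n D : ℕ) : 0 ≤ Real.log (BC m n D) := by
  apply Real.log_nonneg
  exact_mod_cast one_le_BC m n D

theorem log_BC_le (m n D : ℕ) : Real.log (BC m n D) ≤ Real.log (NL (2 * m + 1) n D) := by
  apply Real.log_le_log
  · exact_mod_cast one_le_BC m n D
  · exact_mod_cast BC_le_NL m n D

theorem small_main (m : ℕ) (hm : m ≤ 3) (δ : ℝ) (hδ : 0 ≤ δ) :
    Tendsto (fun n : ℕ => (Real.log (NL (2 * m + 1) n ⌊δ * n⌋₊) -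
      Real.log (BC m n ⌊δ * n⌋₊)) / n) atTop (𝓝 0) := by
  rcases hδ.eq_or_lt with h0 | h0
  · subst h0
    have h1 : ∀ n : ℕ, (Real.log (NL (2 * m + 1) n ⌊(0 : ℝ) * n⌋₊) -
        Real.log (BC m n ⌊(0 : ℝ) * n⌋₊)) / n = 0 := by
      intro n
      have e1 := (rateThm m 0 le_rfl).1 n
      have e2 : (n : ℝ) * rate m 0 ≤ 0 :=
        mul_nonpos_of_nonneg_of_nonpos (Nat.cast_nonneg n) (rate_zero m)
      have e3 := log_NL_nonneg m n ⌊(0 : ℝ) * n⌋₊
      have e4 := log_BC_nonneg m n ⌊(0 : ℝ) * n⌋₊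
      have e5 := log_BC_le m n ⌊(0 : ℝ) * n⌋₊
      have e6 : Real.log (NL (2 * m + 1) n ⌊(0 : ℝ) * n⌋₊) -
        Real.log (BC m n ⌊(0 : ℝ) * n⌋₊) = 0 := by linarith
      rw [e6, zero_div]
    simp only [h1]
    exact tendsto_const_nhds
  · rw [Metric.tendsto_atTop]
    intro ε hε
    have h2 := lower_gen count minimax m 1 (fun j => if j = 0 then 0 else m)
      (fun j _ => by split_ifs <;> omega) ⟨1, le_rfl, by simp⟩ δ (ε / 2) (rate m δ) h0
      (by positivity) (by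
        intro s hs
        have e1 := rate_le m h0.le (u := Real.exp s) (Real.one_le_exp hs)
        rw [Real.log_exp] at e1
        rcases kmax_small m hm (Real.one_le_exp hs) with h | h
        · refine ⟨0, by omega, ?_⟩
          have e2 := Real.log_le_log (kmax_pos m (Real.exp_pos s)) h
          rw [kap_exp] at e2
          simp only [if_true]
          linarith
        · refine ⟨1, le_rfl, ?_⟩
          have e2 := Real.log_le_log (kmax_pos m (Real.exp_pos s)) h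
          rw [kap_exp] at e2
          simp only [one_ne_zero, if_false]
          linarith)
    obtain ⟨N, hN⟩ := (h2.and (eventually_ge_atTop 1)).exists_forall_of_atTop
    refine ⟨N, ?_⟩
    intro n hn
    obtain ⟨⟨a, ha, b, hb, k, hk, h3⟩, h4⟩ := hN n hn
    have hn' : (0 : ℝ) < n := by exact_mod_cast h4
    have hpos : 0 < (prodSet m n (if a = 0 then 0 else m) (if b = 0 then 0 else m) k
        ⌊δ * n⌋₊).card := by
      have := (Real.exp_pos (n * (rate m δ - ε / 2))).trans_le h3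
      exact_mod_cast this
    have h5 := card_le_BC_of_types (fun i : Fin n => if (i : ℕ) < k then
      (if a = 0 then 0 else m) else (if b = 0 then 0 else m)) (by
      intro i
      split_ifs <;> simp) hpos
    have h6 : Real.exp (n * (rate m δ - ε / 2)) ≤ (BC m n ⌊δ * n⌋₊ : ℝ) := by
      refine h3.trans ?_
      exact_mod_cast h5
    have h7 : (n : ℝ) * (rate m δ - ε / 2) ≤ Real.log (BC m n ⌊δ * n⌋₊) := by
      rw [← Real.log_exp (n * (rate m δ - ε / 2))]
      exact Real.log_le_log (Real.exp_pos _) h6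
    have h8 := (rateThm m δ hδ).1 n
    have h9 := log_BC_le m n ⌊δ * n⌋₊
    rw [Real.dist_eq, sub_zero, abs_lt]
    constructor
    · have : 0 ≤ (Real.log (NL (2 * m + 1) n ⌊δ * n⌋₊) - Real.log (BC m n ⌊δ * n⌋₊)) / n :=
        div_nonneg (by linarith) hn'.le
      linarith
    · rw [div_lt_iff₀ hn']
      nlinarith

/-- Jensen's inequality for the partition functions. -/
theorem ZZ_tangent (m J : ℕ) (s1 s : ℝ) :
    ZZ m J s1 * Real.exp (-((s - s1) * (WW m J s1 / ZZ m J s1))) ≤ ZZ m J s := by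
  obtain ⟨E, hE⟩ : ∃ E, E = WW m J s1 / ZZ m J s1 := ⟨_, rfl⟩
  rw [← hE]
  have hEZ : E * ZZ m J s1 = WW m J s1 := by
    rw [hE]
    exact div_mul_cancel₀ _ (ZZ_pos m J s1).ne'
  have h1 : ∀ x ∈ (univ : Finset (Fin (2 * m + 1))),
      Real.exp (-(s1 * ph m J x)) * Real.exp (-((s - s1) * E)) *
        (1 - (s - s1) * (ph m J x - E)) ≤ Real.exp (-(s * ph m J x)) := by
    intro x _
    have e1 : Real.exp (-(s * ph m J x)) = Real.exp (-(s1 * ph m J x)) *
        Real.exp (-((s - s1) * E)) * Real.exp (-((s - s1) * (ph m J x - E))) := by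
      rw [← Real.exp_add, ← Real.exp_add]
      congr 1
      ring
    rw [e1]
    apply mul_le_mul_of_nonneg_left _ (by positivity)
    have := Real.add_one_le_exp (-((s - s1) * (ph m J x - E)))
    linarith
  have h2 := Finset.sum_le_sum h1
  refine le_trans (le_of_eq ?_) h2
  have h3 : ∑ x : Fin (2 * m + 1), Real.exp (-(s1 * ph m J x)) * Real.exp (-((s - s1) * E)) *
        (1 - (s - s1) * (ph m J x - E)) = Real.exp (-((s - s1) * E)) *
        (ZZ m J s1 - (s - s1) * (WW m J s1 - E * ZZ m J s1)) := by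
    unfold ZZ WW
    rw [Finset.mul_sum, ← Finset.sum_sub_distrib, Finset.mul_sum, ← Finset.sum_sub_distrib,
      Finset.mul_sum]
    refine Finset.sum_congr rfl (fun x _ => ?_)
    ring
  rw [h3, hEZ, sub_self, mul_zero, sub_zero, mul_comm]

theorem mean_pos {m : ℕ} (hm : 1 ≤ m) {J : ℕ} (hJ : J ≤ m) (s : ℝ) :
    0 < WW m J s / ZZ m J s := by
  apply div_pos _ (ZZ_pos m J s)
  unfold WW
  apply Finset.sum_pos'
  · intro x _
    exact mul_nonneg (ph_nonneg hJ x) (Real.exp_pos _).le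
  · refine ⟨⟨m, by omega⟩, mem_univ _, mul_pos ?_ (Real.exp_pos _)⟩
    have hJ' : (J : ℝ) ≤ m := by exact_mod_cast hJ
    rcases Nat.eq_zero_or_pos J with h | h
    · subst h
      rw [ph_zero]
      have : (1 : ℝ) ≤ m := by exact_mod_cast hm
      linarith
    · have h1 : 1 ≤ arcDist m J ⟨m, by omega⟩ := by
        simp only [arcDist]
        omega
      have h2 : (1 : ℝ) ≤ arcDist m J ⟨m, by omega⟩ := by exact_mod_cast h1
      simp only [ph]
      linarith

theorem rate_mono (m : ℕ) {δ δ' : ℝ} (h0 : 0 ≤ δ) (h : δ ≤ δ') : rate m δ ≤ rate m δ' := by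
  refine le_ciInf ?_
  rintro ⟨v, hv⟩
  have hv1 : (1 : ℝ) ≤ v := hv
  refine (rate_le m h0 hv1).trans ?_
  have h1 := mul_le_mul_of_nonneg_right (by linarith : δ / 2 ≤ δ' / 2) (Real.log_nonneg hv1)
  simp only
  linarith

theorem large_main (m : ℕ) (hm : 4 ≤ m) : ∃ α β : ℝ, 0 < α ∧ α < β ∧ ∃ c : ℝ, 0 < c ∧
    ∀ δ : ℝ, α ≤ δ → δ ≤ β → ∀ᶠ n : ℕ in atTop,
      Real.exp (c * n) * (BC m n ⌊δ * n⌋₊ : ℝ) ≤ NL (2 * m + 1) n ⌊δ * n⌋₊ := by
  obtain ⟨u, hu1, hu2, hu3⟩ := large_q m hm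
  have hu0 : 0 < u := by linarith
  obtain ⟨s1, hs1⟩ : ∃ s1, s1 = Real.log u := ⟨_, rfl⟩
  have hs0 : 0 < s1 := by rw [hs1]; exact Real.log_pos hu1
  have hexp : Real.exp s1 = u := by rw [hs1, Real.exp_log hu0]
  obtain ⟨J, hJ, hJ1, hJ2⟩ := kmax_exp m s1
  rw [hexp] at hJ1
  obtain ⟨E, hE⟩ : ∃ E, E = WW m J s1 / ZZ m J s1 := ⟨_, rfl⟩
  have hE0 : 0 < E := by rw [hE]; exact mean_pos (by omega) hJ s1
  obtain ⟨K, hK⟩ : ∃ K, K = max (kap m 0 u) (kap m m u) := ⟨_, rfl⟩
  have hK0 : 0 < K := by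
    rw [hK]; exact lt_max_of_lt_left (kap_pos m 0 hu0)
  have hKlt : K < kmax m u := by
    rw [hK]
    exact (max_lt hu2 hu3).trans_le (kap_le_kmax (by omega) u)
  have hlogK : Real.log K < Real.log (kmax m u) := Real.log_lt_log hK0 hKlt
  obtain ⟨c, hc⟩ : ∃ c, c = (Real.log (kmax m u) - Real.log K) / 4 := ⟨_, rfl⟩
  have hc0 : 0 < c := by rw [hc]; linarith
  have hrate : E * s1 + Real.log (kmax m u) ≤ rate m (2 * E) := by
    refine le_ciInf ?_
    rintro ⟨v, hv⟩
    have hv1 : (1 : ℝ) ≤ v := hv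
    have hv0 : 0 < v := by linarith
    simp only
    have e1 := ZZ_tangent m J s1 (Real.log v)
    rw [← hE] at e1
    have e2 : ZZ m J (Real.log v) ≤ kmax m v := by
      have := kap_le_kmax hJ v
      rw [← Real.exp_log hv0, kap_exp] at this
      rwa [Real.exp_log hv0] at this
    have e3 := Real.log_le_log (mul_pos (ZZ_pos m J s1) (Real.exp_pos _)) (e1.trans e2)
    rw [Real.log_mul (ZZ_pos m J s1).ne' (Real.exp_pos _).ne', Real.log_exp, ← hJ1] at e3
    linarith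
  refine ⟨2 * E, 2 * E + 4 * c / s1, by linarith, by
    have : 0 < 4 * c / s1 := by positivity
    linarith, c, hc0, ?_⟩
  intro δ hδ1 hδ2
  have hδ0 : 0 < δ := by linarith
  have hrate2 := rate_mono m (by linarith) hδ1
  have hδs : δ / 2 * s1 ≤ E * s1 + 2 * c := by
    have e1 := mul_le_mul_of_nonneg_right hδ2 hs0.le
    have e2 : (2 * E + 4 * c / s1) * s1 = 2 * (E * s1) + 4 * c := by field_simp
    linarith
  filter_upwards [lowerThm m δ c hδ0 hc0] with n hn
  have hNL : (0 : ℝ) < NL (2 * m + 1) n ⌊δ * n⌋₊ := by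
    exact_mod_cast one_le_NL (2 * m + 1) n ⌊δ * n⌋₊ (by omega)
  have hBC : (0 : ℝ) < BC m n ⌊δ * n⌋₊ := by
    exact_mod_cast one_le_BC m n ⌊δ * n⌋₊
  have hn0 : (0 : ℝ) ≤ n := Nat.cast_nonneg n
  have h1 := BC_le m n ⌊δ * n⌋₊ (K := K) hu1.le (by rw [hK]; exact le_max_left _ _)
    (by rw [hK]; exact le_max_right _ _)
  have h2 := Real.log_le_log hBC h1
  rw [Real.log_mul (Real.rpow_pos_of_pos hu0 _).ne' (pow_pos hK0 n).ne',
    Real.log_rpow hu0, Real.log_pow, ← hs1] at h2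
  have h3 : (⌊δ * n⌋₊ : ℝ) ≤ δ * n := Nat.floor_le (by positivity)
  have h4 : (⌊δ * n⌋₊ : ℝ) / 2 * s1 ≤ n * (δ / 2 * s1) := by
    have := mul_le_mul_of_nonneg_right h3 hs0.le
    linarith
  have h4' := mul_le_mul_of_nonneg_left hδs hn0
  have h5 := mul_le_mul_of_nonneg_left (hrate.trans hrate2) hn0
  have h6 : c * n + Real.log (BC m n ⌊δ * n⌋₊) ≤
      Real.log (NL (2 * m + 1) n ⌊δ * n⌋₊) := by
    have e1 : (n : ℝ) * c = n * (Real.log (kmax m u) - Real.log K) / 4 := by rw [hc]; ring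
    linarith
  have h7 := Real.exp_le_exp.2 h6
  rwa [Real.exp_add, Real.exp_log hBC, Real.exp_log hNL] at h7

/-- Two types of coordinates suffice. -/
theorem sets_main (m : ℕ) (δ ε : ℝ) (hδ : 0 < δ) (hε : 0 < ε) :
    ∀ᶠ n : ℕ in atTop, ∃ a ≤ m, ∃ b ≤ m, ∃ k ≤ n,
      (∀ x ∈ prodSet m n a b k ⌊δ * n⌋₊, ∀ y ∈ prodSet m n a b k ⌊δ * n⌋₊,
        dL x y ≤ ⌊δ * n⌋₊) ∧
      (NL (2 * m + 1) n ⌊δ * n⌋₊ : ℝ) ≤
        Real.exp (ε * n) * ((prodSet m n a b k ⌊δ * n⌋₊).card : ℝ) := by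
  have h1 := lower_gen count minimax m m (fun j => j) (fun j hj => hj) ⟨m, le_rfl, rfl⟩ δ ε
    (rate m δ) hδ hε (by
      intro s hs
      obtain ⟨H, hH, hH1, -⟩ := kmax_exp m s
      refine ⟨H, hH, ?_⟩
      have e1 := rate_le m hδ.le (u := Real.exp s) (Real.one_le_exp hs)
      rw [Real.log_exp, hH1] at e1
      exact e1)
  filter_upwards [h1] with n hn
  obtain ⟨a, ha, b, hb, k, hk, h2⟩ := hn
  refine ⟨a, ha, b, hb, k, hk, ?_, ?_⟩
  · intro x hx y hy
    have hx' := (Finset.mem_filter.1 hx).2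
    have hy' := (Finset.mem_filter.1 hy).2
    have e1 : (dL x y : ℝ) ≤ (⌊δ * n⌋₊ : ℝ) := by
      calc (dL x y : ℝ) = ∑ t, (lee (x t) (y t) : ℝ) := by simp [dL]
        _ ≤ ∑ t : Fin n, (ph m (if (t : ℕ) < k then a else b) (x t) +
            ph m (if (t : ℕ) < k then a else b) (y t)) :=
          Finset.sum_le_sum (fun t _ => lee_le_ph (by split_ifs <;> assumption) _ _)
        _ = _ := Finset.sum_add_distrib
        _ ≤ (⌊δ * n⌋₊ : ℝ) / 2 + (⌊δ * n⌋₊ : ℝ) / 2 := add_le_add hx' hy'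
        _ = _ := by ring
    exact_mod_cast e1
  · have h3 := (rateThm m δ hδ.le).1 n
    have hNL : (0 : ℝ) < NL (2 * m + 1) n ⌊δ * n⌋₊ := by
      exact_mod_cast one_le_NL (2 * m + 1) n ⌊δ * n⌋₊ (by omega)
    have h4 := Real.exp_le_exp.2 h3
    rw [Real.exp_log hNL] at h4
    have h5 : Real.exp (n * rate m δ) = Real.exp (ε * n) * Real.exp (n * (rate m δ - ε)) := by
      rw [← Real.exp_add]
      congr 1
      ring
    rw [h5] at h4
    exact h4.trans (mul_le_mul_of_nonneg_left h2 (Real.exp_pos _).le)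

end Pool.Agent.Lib.MP_72646e_co
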