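import Pool.Agent.Lib.MP_72646e_co.Lower
import Pool.Agent.Lib.MP_72646e_co.Count

set_option autoImplicit false

/-! The lower bound for an arbitrary family of types. -/

namespace Pool.Agent.Lib.MP_72646e_co

open Finset Filter Topology

/-- All points `x` with `∑_{i < k} φ_a (x_i) + ∑_{i ≥ k} φ_b (x_i) ≤ D / 2`. -/
noncomputable def prodSet (m n a b k D : ℕ) : Finset (Fin n → Fin (2 * m + 1)) :=
  univ.filter fun x => ∑ i : Fin n, ph m (if (i : ℕ) < k then a else b) (x i) ≤ (D : ℝ) / 2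

/-- Existence of a minimiser, for a family of types containing the type `m`. -/
theorem exists_minimiser_gen (m M : ℕ) (ty : ℕ → ℕ) (hm : ∃ j ≤ M, ty j = m) (δ : ℝ) (hδ : 0 < δ) :
    ∃ s : ℝ, 0 ≤ s ∧ s ≤ 2 / δ * Real.log (2 * m + 1) ∧
      ∀ t, 0 ≤ t → ∃ H ≤ M, (∀ K ≤ M, gg m δ (ty K) s ≤ gg m δ (ty H) t) := by
  have hne : (range (M + 1)).Nonempty := ⟨0, by simp⟩
  obtain ⟨G, hG⟩ : ∃ G : ℝ → ℝ, G = fun s => (range (M + 1)).sup' hne
      (fun H => gg m δ (ty H) s) := ⟨_, rfl⟩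
  have hcont : Continuous G := by
    rw [hG]
    apply Continuous.finset_sup'_apply
    intro H _
    exact continuous_iff_continuousAt.2 (fun s => (hasDeriv_gg m (ty H) δ s).continuousAt)
  have hq : (1 : ℝ) ≤ 2 * m + 1 := by
    have : (0 : ℝ) ≤ m := Nat.cast_nonneg m
    linarith
  have hlq : 0 ≤ Real.log (2 * m + 1) := Real.log_nonneg hq
  have hS : 0 ≤ 2 / δ * Real.log (2 * m + 1) := by positivity
  obtain ⟨s, hs, hmin⟩ := isCompact_Icc.exists_isMinOn (Set.nonempty_Icc.2 hS) hcont.continuousOn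
  have hG0 : G 0 = Real.log (2 * m + 1) := by
    rw [hG]
    simp only
    apply le_antisymm
    · refine Finset.sup'_le _ _ (fun H _ => ?_)
      simp [gg, ZZ]
    · refine le_trans ?_ (Finset.le_sup' (fun H => gg m δ (ty H) 0)
        (Finset.mem_range.2 (Nat.succ_pos M)))
      simp [gg, ZZ]
  refine ⟨s, hs.1, hs.2, ?_⟩
  intro t ht
  have hst : G s ≤ G t := by
    rcases le_or_gt t (2 / δ * Real.log (2 * m + 1)) with h | h
    · exact hmin ⟨ht, h⟩
    · have h1 : G s ≤ G 0 := hmin ⟨le_rfl, hS⟩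
      have h2 : δ / 2 * t ≤ G t := by
        obtain ⟨j, hj, hjm⟩ := hm
        rw [hG]
        refine le_trans ?_ (Finset.le_sup' (fun H => gg m δ (ty H) t)
          (Finset.mem_range.2 (Nat.lt_succ_of_le hj)))
        have h3 : 0 ≤ Real.log (ZZ m m t) := by
          rw [← kap_exp]
          exact Real.log_nonneg (one_le_kap_mm m (Real.exp_pos t))
        simp only [gg, hjm]
        linarith
      have h3 : Real.log (2 * m + 1) ≤ δ / 2 * t := by
        have h4 := mul_le_mul_of_nonneg_left h.le (by positivity : 0 ≤ δ / 2)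
        have h5 : δ / 2 * (2 / δ * Real.log (2 * m + 1)) = Real.log (2 * m + 1) := by
          field_simp
        linarith
      linarith
  obtain ⟨H, hH, h⟩ := Finset.exists_mem_eq_sup' hne (fun H => gg m δ (ty H) t)
  rw [Finset.mem_range] at hH
  refine ⟨H, by omega, ?_⟩
  intro K hK
  have h1 : gg m δ (ty K) s ≤ G s := by
    rw [hG]
    exact Finset.le_sup' (fun H => gg m δ (ty H) s) (Finset.mem_range.2 (by omega))
  have h2 : G t = gg m δ (ty H) t := by rw [hG]; exact h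
  linarith

/-- The lower bound for an arbitrary family of types containing `m`. -/
theorem lower_gen (h2 : CountStmt) (h3 : MinimaxStmt) (m M : ℕ) (ty : ℕ → ℕ)
    (hty : ∀ j ≤ M, ty j ≤ m) (hm : ∃ j ≤ M, ty j = m) (δ ε R : ℝ) (hδ : 0 < δ) (hε : 0 < ε)
    (hR : ∀ s : ℝ, 0 ≤ s → ∃ j ≤ M, R ≤ δ / 2 * s + Real.log (ZZ m (ty j) s)) :
    ∀ᶠ n : ℕ in atTop, ∃ a ≤ M, ∃ b ≤ M, ∃ k ≤ n,
      Real.exp (n * (R - ε)) ≤ ((prodSet m n (ty a) (ty b) k ⌊δ * n⌋₊).card : ℝ) := by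
  have hm0 : (0 : ℝ) ≤ m := Nat.cast_nonneg m
  have hlq : 0 ≤ Real.log (2 * m + 1) := Real.log_nonneg (by linarith)
  obtain ⟨S, hS⟩ : ∃ S, S = 4 / δ * Real.log (2 * m + 1) := ⟨_, rfl⟩
  have hS0 : 0 ≤ S := by rw [hS]; positivity
  obtain ⟨η, hη⟩ : ∃ η, η = min (δ / 2) (ε / (2 * (S + 1))) := ⟨_, rfl⟩
  have hη0 : 0 < η := by rw [hη]; positivity
  have hη1 : η ≤ δ / 2 := by rw [hη]; exact min_le_left _ _
  have hη2 : η * (2 * (S + 1)) ≤ ε := by
    rw [← le_div_iff₀ (by positivity), hη]; exact min_le_right _ _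
  obtain ⟨δ', hδ'⟩ : ∃ δ', δ' = δ - η := ⟨_, rfl⟩
  have hδ'0 : 0 < δ' := by rw [hδ']; linarith
  obtain ⟨s, hs0, hs1, hmin⟩ := exists_minimiser_gen m M ty hm δ' hδ'0
  have hsS : s ≤ S := by
    refine hs1.trans ?_
    rw [hS]
    apply mul_le_mul_of_nonneg_right _ hlq
    rw [div_le_div_iff₀ hδ'0 hδ]
    rw [hδ']
    linarith
  obtain ⟨a, ha, b, hb, t, ht0, ht1, hHa, hKa, hd1, hd2⟩ := h3 M (fun j => gg m δ' (ty j))
    (fun j s => δ' / 2 - WW m (ty j) s / ZZ m (ty j) s) s hs0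
    (fun H _ t => hasDeriv_gg m (ty H) δ' t) hmin
  obtain ⟨H, hHdef⟩ : ∃ H, H = ty a := ⟨_, rfl⟩
  obtain ⟨K, hKdef⟩ : ∃ K, K = ty b := ⟨_, rfl⟩
  simp only [← hHdef, ← hKdef] at hHa hKa hd1 hd2
  have hH : H ≤ m := by rw [hHdef]; exact hty a ha
  have hK : K ≤ m := by rw [hKdef]; exact hty b hb
  -- both types realise the maximum
  have hZZ : ZZ m H s = ZZ m K s := by
    have e1 := hHa b hb
    have e2 := hKa a ha
    simp only [← hHdef, ← hKdef, gg] at e1 e2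
    have e3 : Real.log (ZZ m K s) ≤ Real.log (ZZ m H s) := by linarith
    have e4 : Real.log (ZZ m H s) ≤ Real.log (ZZ m K s) := by linarith
    exact le_antisymm ((Real.log_le_log_iff (ZZ_pos m H s) (ZZ_pos m K s)).1 e4)
      ((Real.log_le_log_iff (ZZ_pos m K s) (ZZ_pos m H s)).1 e3)
  obtain ⟨Z, hZ⟩ : ∃ Z, Z = ZZ m H s := ⟨_, rfl⟩
  have hZH : ZZ m H s = Z := hZ.symm
  have hZK : ZZ m K s = Z := by rw [← hZZ, hZ]
  have hZ0 : 0 < Z := by rw [hZ]; exact ZZ_pos m H s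
  obtain ⟨EH, hEH⟩ : ∃ EH, EH = WW m H s / ZZ m H s := ⟨_, rfl⟩
  obtain ⟨EK, hEK⟩ : ∃ EK, EK = WW m K s / ZZ m K s := ⟨_, rfl⟩
  have hEH0 : 0 ≤ EH := by rw [hEH]; exact mean_nonneg hH s
  have hEK0 : 0 ≤ EK := by rw [hEK]; exact mean_nonneg hK s
  have hEH1 : EH ≤ m := by rw [hEH]; exact mean_le hH s
  have hEK1 : EK ≤ m := by rw [hEK]; exact mean_le hK s
  simp only [← hEH, ← hEK] at hd1 hd2
  have hrate : R ≤ δ' / 2 * s + Real.log Z + η / 2 * s := by
    obtain ⟨j, hj, e1⟩ := hR s hs0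
    have e2 := hHa j hj
    simp only [gg] at e2
    rw [hZH] at e2
    have e3 : δ / 2 * s = δ' / 2 * s + η / 2 * s := by rw [hδ']; ring
    linarith
  obtain ⟨N, hN⟩ : ∃ N : ℕ, 4 * (m + 1) / η + 2 * m ^ 2 / (η / 4) ^ 2 + 2 * (S * m + 1) / ε ≤ N :=
    exists_nat_ge _
  filter_upwards [eventually_ge_atTop N] with n hn
  have hn' : (N : ℝ) ≤ n := by exact_mod_cast hn
  have t1 : 0 ≤ 4 * (m + 1) / η := by positivity
  have t2 : 0 ≤ 2 * (m : ℝ) ^ 2 / (η / 4) ^ 2 := by positivity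
  have t3 : 0 ≤ 2 * (S * m + 1) / ε := by positivity
  have n1 : 4 * ((m : ℝ) + 1) ≤ n * η := by
    rw [← div_le_iff₀ hη0]; linarith
  have n2 : 2 * (m : ℝ) ^ 2 ≤ (η / 4) ^ 2 * n := by
    rw [mul_comm ((η / 4) ^ 2) (n : ℝ), ← div_le_iff₀ (by positivity)]; linarith
  have n3 : 2 * (S * m + 1) ≤ n * ε := by
    rw [← div_le_iff₀ hε]; linarith
  have hn0 : (0 : ℝ) ≤ n := Nat.cast_nonneg n
  obtain ⟨k, hk⟩ : ∃ k, k = ⌊t * n⌋₊ := ⟨_, rfl⟩
  have hk1 : (k : ℝ) ≤ t * n := by rw [hk]; exact Nat.floor_le (by positivity)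
  have hk2 : t * n < k + 1 := by rw [hk]; exact Nat.lt_floor_add_one _
  have hkn : k ≤ n := by
    have e1 : t * n ≤ 1 * n := mul_le_mul_of_nonneg_right ht1 hn0
    have : (k : ℝ) ≤ n := by linarith
    exact_mod_cast this
  obtain ⟨HH, hHH⟩ : ∃ HH : Fin n → ℕ, HH = fun i : Fin n => if (i : ℕ) < k then H else K := ⟨_, rfl⟩
  have hHHm : ∀ i, HH i ≤ m := by
    intro i
    rw [hHH]
    simp only
    split_ifs <;> assumption
  have hMval : ∑ i : Fin n, (∑ x, ph m (HH i) x * Real.exp (-(s * ph m (HH i) x))) /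
      (∑ x, Real.exp (-(s * ph m (HH i) x))) = k * EH + (n - k) * EK := by
    rw [← sum_two n k hkn EH EK]
    refine Finset.sum_congr rfl (fun i _ => ?_)
    rw [hHH]
    simp only
    split_ifs
    · rw [hEH]; rfl
    · rw [hEK]; rfl
  have hprod : ∏ i : Fin n, (∑ x, Real.exp (-(s * ph m (HH i) x))) = Z ^ n := by
    rw [Finset.prod_congr rfl (g := fun _ => Z)]
    · simp
    · intro i _
      rw [hHH]
      simp only
      split_ifs
      · rw [← hZH]; rfl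
      · rw [← hZK]; rfl
  have hcount := h2 (2 * m + 1) n m (fun i => ph m (HH i)) s (η / 4) (by omega) hs0 (by positivity)
    (fun i x => ⟨ph_nonneg (hHHm i) x, ph_le (hHHm i) x⟩) n2 _ hMval.symm
  rw [hprod] at hcount
  obtain ⟨MM, hM⟩ : ∃ MM : ℝ, MM = k * EH + (n - k) * EK := ⟨_, rfl⟩
  rw [← hM] at hcount
  have ha1 : 0 ≤ t * n - k := by linarith
  have ha2 : 0 ≤ 1 - (t * n - k) := by linarith
  have hMlow : n * (t * EH + (1 - t) * EK) - m ≤ MM := by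
    rw [hM]
    have e1 := mul_nonneg ha1 (by linarith : 0 ≤ (m : ℝ) - (EH - EK))
    have e2 := mul_nonneg ha2 hm0
    linarith
  have hMup : MM ≤ n * (t * EH + (1 - t) * EK) + m := by
    rw [hM]
    have e1 := mul_nonneg ha1 (by linarith : 0 ≤ (m : ℝ) + (EH - EK))
    have e2 := mul_nonneg ha2 hm0
    linarith
  have hD : MM + η / 4 * n ≤ (⌊δ * n⌋₊ : ℝ) / 2 := by
    have e1 : δ * n < ⌊δ * n⌋₊ + 1 := Nat.lt_floor_add_one _
    have e2 : t * EH + (1 - t) * EK ≤ δ' / 2 := by linarith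
    have e3 : n * (t * EH + (1 - t) * EK) ≤ n * (δ' / 2) := mul_le_mul_of_nonneg_left e2 hn0
    rw [hδ'] at e3
    linarith
  have hcard : (univ.filter fun x : Fin n → Fin (2 * m + 1) =>
      ∑ i, ph m (HH i) (x i) ≤ MM + η / 4 * n).card ≤
      (univ.filter fun x : Fin n → Fin (2 * m + 1) =>
        ∑ i, ph m (HH i) (x i) ≤ (⌊δ * n⌋₊ : ℝ) / 2).card := by
    apply Finset.card_le_card
    intro x hx
    rw [Finset.mem_filter] at hx ⊢
    exact ⟨hx.1, hx.2.trans hD⟩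
  have hcard' : ((univ.filter fun x : Fin n → Fin (2 * m + 1) =>
      ∑ i, ph m (HH i) (x i) ≤ MM + η / 4 * n).card : ℝ) ≤
      ((univ.filter fun x : Fin n → Fin (2 * m + 1) =>
        ∑ i, ph m (HH i) (x i) ≤ (⌊δ * n⌋₊ : ℝ) / 2).card : ℝ) := by
    exact_mod_cast hcard
  refine ⟨a, ha, b, hb, k, hkn, ?_⟩
  have hset : (prodSet m n (ty a) (ty b) k ⌊δ * n⌋₊) = (univ.filter fun x : Fin n →
      Fin (2 * m + 1) => ∑ i, ph m (HH i) (x i) ≤ (⌊δ * n⌋₊ : ℝ) / 2) := by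
    rw [hHH, hHdef, hKdef]
    rfl
  rw [hset]
  have hfin := hcount.trans hcard'
  refine le_trans ?_ hfin
  have e0 : (1 / 2 : ℝ) * Real.exp (s * (MM - η / 4 * n)) * Z ^ n =
      Real.exp (Real.log (1 / 2) + s * (MM - η / 4 * n) + n * Real.log Z) := by
    rw [Real.exp_add, Real.exp_add, Real.exp_log (by norm_num), ← Real.log_pow,
      Real.exp_log (by positivity)]
  rw [e0]
  apply Real.exp_le_exp.2
  have hl2 : -1 ≤ Real.log (1 / 2 : ℝ) := by
    have e1 := Real.one_sub_inv_le_log_of_pos (by norm_num : (0 : ℝ) < 1 / 2)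
    norm_num at e1 ⊢
    linarith
  have hsd : s * (t * EH + (1 - t) * EK) = s * (δ' / 2) := by linarith
  have hsM : s * (n * (δ' / 2)) - S * m ≤ s * MM := by
    have e1 := mul_le_mul_of_nonneg_left hMlow hs0
    have e2 : s * (n * (t * EH + (1 - t) * EK) - m) = n * (s * (t * EH + (1 - t) * EK)) - s * m := by
      ring
    rw [e2, hsd] at e1
    have e3 := mul_le_mul_of_nonneg_right hsS hm0
    linarith
  have hseta : s * η ≤ ε / 2 := by
    have e1 : s * η ≤ S * η := mul_le_mul_of_nonneg_right hsS hη0.le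
    linarith
  have hnr := mul_le_mul_of_nonneg_left hrate hn0
  have hnse := mul_le_mul_of_nonneg_left hseta hn0
  have hne : 0 ≤ (n : ℝ) * ε := mul_nonneg hn0 hε.le
  linarith

end Pool.Agent.Lib.MP_72646e_co
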