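import Pool.Agent.Lib.MP_72646e_co.Phase

set_option autoImplicit false

/-! For `q ≥ 9` the type `m - 1` beats the types `0` and `m` at `u = 3 ^ (1 / m)`. -/

namespace Pool.Agent.Lib.MP_72646e_co

open Finset Filter Topology

theorem log_three_lt : Real.log 3 < 1.0989 := by
  have h1 : Real.log ((3 : ℝ) ^ 41) < Real.log ((2 : ℝ) ^ 65) :=
    Real.log_lt_log (by norm_num) (by norm_num)
  rw [Real.log_pow, Real.log_pow] at h1
  have h2 := Real.log_two_lt_d9
  push_cast at h1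
  norm_num at h1 h2 ⊢
  linarith

theorem sqrt_three_lt : Real.sqrt 3 < 1.73206 := by
  rw [Real.sqrt_lt' (by norm_num)]
  norm_num

/-- The key numerical inequality. -/
theorem key_num (m : ℕ) (hm : 4 ≤ m) (w : ℝ) (hw : 1 < w) (hw3 : w ^ (2 * m) = 3) :
    Real.sqrt 3 * ((2 * m + 1) * (w ^ 2 - 1)) < w * (w ^ 2 + 3) := by
  have hw0 : 0 < w := by linarith
  have hs0 : 0 ≤ Real.sqrt 3 := Real.sqrt_nonneg 3
  rcases Nat.eq_or_lt_of_le hm with h4 | h5
  · subst h4
    have h8 : w ^ 8 = 3 := by simpa using hw3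
    have hlo : 1.147 < w := by
      by_contra hcon
      push Not at hcon
      have : w ^ 8 ≤ (1.147 : ℝ) ^ 8 := pow_le_pow_left₀ hw0.le hcon 8
      rw [h8] at this
      norm_num at this
    have hhi : w < 1.1473 := by
      by_contra hcon
      push Not at hcon
      have : (1.1473 : ℝ) ^ 8 ≤ w ^ 8 := pow_le_pow_left₀ (by norm_num) hcon 8
      rw [h8] at this
      norm_num at this
    have h1 : w ^ 2 - 1 < 0.3163 := by nlinarith
    have h1' : 0 < w ^ 2 - 1 := by nlinarith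
    have h2 : Real.sqrt 3 * ((2 * ((4 : ℕ) : ℝ) + 1) * (w ^ 2 - 1)) ≤ 1.73206 * (9 * 0.3163) := by
      have e1 : (2 * ((4 : ℕ) : ℝ) + 1) = 9 := by norm_num
      rw [e1]
      apply mul_le_mul sqrt_three_lt.le _ (by positivity) (by norm_num)
      linarith
    have h3 : 1.147 * (1.147 ^ 2 + 3) < w * (w ^ 2 + 3) := by nlinarith
    refine h2.trans_lt (lt_trans ?_ h3)
    norm_num
  · have hm5 : 5 ≤ m := h5
    obtain ⟨u, hu⟩ : ∃ u, u = w ^ 2 := ⟨_, rfl⟩
    have hu1 : 1 < u := by rw [hu]; nlinarith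
    have hum : u ^ m = 3 := by rw [hu, ← pow_mul, hw3]
    have hu2 : u < 1.2458 := by
      by_contra hcon
      push Not at hcon
      have e1 : (1.2458 : ℝ) ^ 5 ≤ u ^ 5 := pow_le_pow_left₀ (by norm_num) hcon 5
      have e2 : u ^ 5 ≤ u ^ m := pow_le_pow_right₀ hu1.le hm5
      rw [hum] at e2
      have e3 := e1.trans e2
      norm_num at e3
    have hlog : (m : ℝ) * Real.log u = Real.log 3 := by
      rw [← Real.log_pow, hum]
    have hpade : 2 * (u - 1) / (u - 1 + 2) ≤ Real.log u := by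
      have := Real.le_log_one_add_of_nonneg (x := u - 1) (by linarith)
      simpa using this
    have h1 : 2 * (m : ℝ) * (u - 1) ≤ Real.log 3 * (u + 1) := by
      rw [div_le_iff₀ (by linarith)] at hpade
      have e1 := mul_le_mul_of_nonneg_left hpade (Nat.cast_nonneg m : (0 : ℝ) ≤ m)
      rw [← hlog]
      linarith
    have h2 : (2 * (m : ℝ) + 1) * (u - 1) ≤ 1.0989 * (u + 1) + (u - 1) := by
      have e1 := mul_le_mul_of_nonneg_right log_three_lt.le (by linarith : 0 ≤ u + 1)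
      linarith
    have h3 : 2 * u ≤ w * (1 + u) := by
      have e1 : 0 ≤ w * (w - 1) ^ 2 := mul_nonneg hw0.le (sq_nonneg _)
      rw [hu]
      linarith
    have h4 : 1.73206 * ((1.0989 * (u + 1) + (u - 1)) * (u + 1)) < 2 * u * (u + 3) := by
      have e1 : 0 ≤ (u - 1) * (1.2458 - u) := mul_nonneg (by linarith) (by linarith)
      nlinarith
    have h6 : Real.sqrt 3 * ((2 * (m : ℝ) + 1) * (u - 1)) ≤
        1.73206 * (1.0989 * (u + 1) + (u - 1)) := by
      apply mul_le_mul sqrt_three_lt.le h2 _ (by norm_num)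
      have : (0 : ℝ) ≤ m := Nat.cast_nonneg m
      exact mul_nonneg (by linarith) (by linarith)
    rw [← hu]
    have h7 : Real.sqrt 3 * ((2 * (m : ℝ) + 1) * (u - 1)) * (u + 1) < w * (u + 3) * (u + 1) := by
      calc Real.sqrt 3 * ((2 * (m : ℝ) + 1) * (u - 1)) * (u + 1)
          ≤ 1.73206 * (1.0989 * (u + 1) + (u - 1)) * (u + 1) :=
            mul_le_mul_of_nonneg_right h6 (by linarith)
        _ = 1.73206 * ((1.0989 * (u + 1) + (u - 1)) * (u + 1)) := by ring
        _ < 2 * u * (u + 3) := h4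
        _ ≤ w * (1 + u) * (u + 3) := mul_le_mul_of_nonneg_right h3 (by linarith)
        _ = _ := by ring
    exact lt_of_mul_lt_mul_right h7 (by linarith)

theorem large_q (m : ℕ) (hm : 4 ≤ m) : ∃ u : ℝ, 1 < u ∧ kap m 0 u < kap m (m - 1) u ∧
    kap m m u < kap m (m - 1) u := by
  obtain ⟨w, hw⟩ : ∃ w, w = Real.exp (Real.log 3 / (2 * m)) := ⟨_, rfl⟩
  have hm0 : (0 : ℝ) < m := by exact_mod_cast (by omega : 0 < m)
  have hw3 : w ^ (2 * m) = 3 := by
    rw [hw, ← Real.exp_nat_mul]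
    push_cast
    rw [mul_div_cancel₀ _ (by positivity), Real.exp_log (by norm_num)]
  have hw1 : 1 < w := by
    rw [hw]
    exact Real.one_lt_exp_iff.2 (div_pos (Real.log_pos (by norm_num)) (by positivity))
  have hw0 : 0 < w := by linarith
  have hkey := key_num m hm w hw1 hw3
  have hu1 : 1 < w ^ 2 := by nlinarith
  have hne : w ^ 2 ≠ 1 := ne_of_gt hu1
  have hd : 0 < w ^ 2 - 1 := by linarith
  have hwm : w ^ m = Real.sqrt 3 := by
    rw [eq_comm, Real.sqrt_eq_iff_mul_self_eq (by norm_num) (by positivity), ← pow_add,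
      ← two_mul, hw3]
  have h3 : (w ^ 2) ^ m = 3 := by rw [← pow_mul, hw3]
  -- closed forms
  have hPm : PP m m (w ^ 2) * (w ^ 2 - 1) = 3 * w ^ 2 + 1 := by
    unfold PP
    rw [if_neg (by omega), geom_sum_Ico hne (by omega), h3]
    field_simp
    ring
  obtain ⟨k, rfl⟩ : ∃ k, m = k + 1 := ⟨m - 1, by omega⟩
  have hk : (w ^ 2) ^ k * w ^ 2 = 3 := by rw [← pow_succ, h3]
  have hPk : PP (k + 1) k (w ^ 2) * (w ^ 2 - 1) * w ^ 2 = w ^ 2 * (w ^ 2 + 3) := by
    unfold PP
    rw [if_neg (by omega), geom_sum_Ico hne (by omega)]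
    push_cast
    field_simp
    linear_combination 2 * hk
  have hPk' : PP (k + 1) k (w ^ 2) * (w ^ 2 - 1) = w ^ 2 + 3 := by
    have e1 : w ^ 2 * (PP (k + 1) k (w ^ 2) * (w ^ 2 - 1)) = w ^ 2 * (w ^ 2 + 3) := by
      rw [← hPk]; ring
    exact mul_left_cancel₀ (by positivity) e1
  refine ⟨w ^ 2, hu1, ?_, ?_⟩
  · rw [Nat.add_sub_cancel]
    apply kap_lt_of (by omega) (by omega) hw0
    rw [PP_zero]
    have e1 : w ^ (k + 1 + k) * (2 * ((k + 1 : ℕ) : ℝ) + 1) * ((w ^ 2 - 1) * w) <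
        w ^ (k + 1 + 0) * PP (k + 1) k (w ^ 2) * ((w ^ 2 - 1) * w) := by
      have e2 : w ^ (k + 1 + k) * (2 * ((k + 1 : ℕ) : ℝ) + 1) * ((w ^ 2 - 1) * w) =
          w ^ (k + 1) * (w ^ (k + 1) * ((2 * ((k + 1 : ℕ) : ℝ) + 1) * (w ^ 2 - 1))) := by
        rw [pow_add w (k + 1) k, pow_succ w k]
        ring
      have e3 : w ^ (k + 1 + 0) * PP (k + 1) k (w ^ 2) * ((w ^ 2 - 1) * w) =
          w ^ (k + 1) * (w * (PP (k + 1) k (w ^ 2) * (w ^ 2 - 1))) := by
        rw [add_zero]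
        ring
      rw [e2, e3, hPk', hwm]
      exact mul_lt_mul_of_pos_left hkey (by positivity)
    exact lt_of_mul_lt_mul_right e1 (by positivity)
  · rw [Nat.add_sub_cancel]
    apply kap_lt_of (by omega) (by omega) hw0
    have e1 : w ^ (k + 1 + k) * PP (k + 1) (k + 1) (w ^ 2) * (w ^ 2 - 1) <
        w ^ (k + 1 + (k + 1)) * PP (k + 1) k (w ^ 2) * (w ^ 2 - 1) := by
      have e2 : w ^ (k + 1 + (k + 1)) * PP (k + 1) k (w ^ 2) * (w ^ 2 - 1) =
          w ^ (k + 1 + k) * (w * (PP (k + 1) k (w ^ 2) * (w ^ 2 - 1))) := by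
        rw [← add_assoc, pow_succ]
        ring
      rw [e2, mul_assoc, hPm, hPk']
      apply mul_lt_mul_of_pos_left _ (by positivity)
      have e3 : 0 < (w - 1) ^ 3 := by
        have : 0 < w - 1 := by linarith
        positivity
      linarith
    exact lt_of_mul_lt_mul_right e1 hd.le

end Pool.Agent.Lib.MP_72646e_co
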