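import Pool.Agent.Lib.MP_72646e_co.Rate

set_option autoImplicit false

/-! The lower bound for the exponential rate. -/

namespace Pool.Agent.Lib.MP_72646e_co

open Finset Filter Topology

/-- Partition function in the variable `s = log u`. -/
noncomputable def ZZ (m H : ℕ) (s : ℝ) : ℝ := ∑ x : Fin (2 * m + 1), Real.exp (-(s * ph m H x))

/-- The numerator of the mean. -/
noncomputable def WW (m H : ℕ) (s : ℝ) : ℝ :=
  ∑ x : Fin (2 * m + 1), ph m H x * Real.exp (-(s * ph m H x))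

theorem ZZ_pos (m H : ℕ) (s : ℝ) : 0 < ZZ m H s :=
  Finset.sum_pos (fun _ _ => Real.exp_pos _) ⟨0, mem_univ _⟩

theorem kap_exp (m H : ℕ) (s : ℝ) : kap m H (Real.exp s) = ZZ m H s := by
  unfold kap ZZ
  refine Finset.sum_congr rfl (fun x _ => ?_)
  rw [← Real.exp_mul]
  congr 1
  ring

theorem hasDeriv_ZZ (m H : ℕ) (s : ℝ) : HasDerivAt (ZZ m H) (-(WW m H s)) s := by
  have h1 : ∀ x ∈ (univ : Finset (Fin (2 * m + 1))),
      HasDerivAt (fun s : ℝ => Real.exp (-(s * ph m H x)))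
        (Real.exp (-(s * ph m H x)) * (-(1 * ph m H x))) s := by
    intro x _
    exact (((hasDerivAt_id s).mul_const (ph m H x)).neg).exp
  have h2 := HasDerivAt.fun_sum h1
  have h3 : ∑ x : Fin (2 * m + 1), Real.exp (-(s * ph m H x)) * (-(1 * ph m H x)) =
      -(WW m H s) := by
    unfold WW
    rw [← Finset.sum_neg_distrib]
    refine Finset.sum_congr rfl (fun x _ => ?_)
    ring
  rw [h3] at h2
  exact h2

theorem ph_nonneg {m H : ℕ} (hH : H ≤ m) (x : Fin (2 * m + 1)) : 0 ≤ ph m H x := by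
  have h1 : (H : ℝ) ≤ m := by exact_mod_cast hH
  have h2 : (0 : ℝ) ≤ arcDist m H x := Nat.cast_nonneg _
  simp only [ph]
  linarith

theorem ph_le {m H : ℕ} (hH : H ≤ m) (x : Fin (2 * m + 1)) : ph m H x ≤ m := by
  have h1 : (H : ℝ) ≤ m := by exact_mod_cast hH
  have h3 : arcDist m H x ≤ H := min_le_right _ _
  have h2 : (arcDist m H x : ℝ) ≤ H := by exact_mod_cast h3
  simp only [ph]
  linarith

theorem mean_nonneg {m H : ℕ} (hH : H ≤ m) (s : ℝ) : 0 ≤ WW m H s / ZZ m H s :=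
  div_nonneg (Finset.sum_nonneg (fun x _ => mul_nonneg (ph_nonneg hH x) (Real.exp_pos _).le))
    (ZZ_pos m H s).le

theorem mean_le {m H : ℕ} (hH : H ≤ m) (s : ℝ) : WW m H s / ZZ m H s ≤ m := by
  rw [div_le_iff₀ (ZZ_pos m H s), WW, ZZ, Finset.mul_sum]
  exact Finset.sum_le_sum (fun x _ => mul_le_mul_of_nonneg_right (ph_le hH x) (Real.exp_pos _).le)

/-- The function to be minimised. -/
noncomputable def gg (m : ℕ) (δ : ℝ) (H : ℕ) (s : ℝ) : ℝ := δ / 2 * s + Real.log (ZZ m H s)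

theorem hasDeriv_gg (m H : ℕ) (δ s : ℝ) :
    HasDerivAt (gg m δ H) (δ / 2 - WW m H s / ZZ m H s) s := by
  have h1 := (hasDeriv_ZZ m H s).log (ZZ_pos m H s).ne'
  have h2 : HasDerivAt (fun s : ℝ => δ / 2 * s) (δ / 2) s := by
    simpa using (hasDerivAt_id s).const_mul (δ / 2)
  have h3 := h2.add h1
  have h4 : δ / 2 + -(WW m H s) / ZZ m H s = δ / 2 - WW m H s / ZZ m H s := by ring
  rw [h4] at h3
  exact h3

theorem kmax_exp (m : ℕ) (s : ℝ) :
    ∃ H ≤ m, kmax m (Real.exp s) = ZZ m H s ∧ ∀ K ≤ m, ZZ m K s ≤ ZZ m H s := by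
  obtain ⟨H, hH, h⟩ := Finset.exists_mem_eq_sup' (⟨0, by simp⟩ : (range (m + 1)).Nonempty)
    (fun H => kap m H (Real.exp s))
  rw [Finset.mem_range] at hH
  refine ⟨H, by omega, ?_, ?_⟩
  · rw [← kap_exp]; exact h
  · intro K hK
    have h1 := kap_le_kmax hK (Real.exp s)
    have h2 : kmax m (Real.exp s) = kap m H (Real.exp s) := h
    rw [h2, kap_exp, kap_exp] at h1
    exact h1

/-- Existence of a minimiser. -/
theorem exists_minimiser (m : ℕ) (δ : ℝ) (hδ : 0 < δ) :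
    ∃ s : ℝ, 0 ≤ s ∧ s ≤ 2 / δ * Real.log (2 * m + 1) ∧
      ∀ t, 0 ≤ t → ∃ H ≤ m, (∀ K ≤ m, gg m δ K s ≤ gg m δ H t) := by
  have hne : (range (m + 1)).Nonempty := ⟨0, by simp⟩
  obtain ⟨G, hG⟩ : ∃ G : ℝ → ℝ, G = fun s => (range (m + 1)).sup' hne (fun H => gg m δ H s) :=
    ⟨_, rfl⟩
  have hcont : Continuous G := by
    rw [hG]
    apply Continuous.finset_sup'_apply
    intro H _
    exact continuous_iff_continuousAt.2 (fun s => (hasDeriv_gg m H δ s).continuousAt)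
  have hq : (1 : ℝ) ≤ 2 * m + 1 := by
    have : (0 : ℝ) ≤ m := Nat.cast_nonneg m
    linarith
  have hlq : 0 ≤ Real.log (2 * m + 1) := Real.log_nonneg hq
  have hS : 0 ≤ 2 / δ * Real.log (2 * m + 1) := by positivity
  obtain ⟨s, hs, hmin⟩ := isCompact_Icc.exists_isMinOn (Set.nonempty_Icc.2 hS) hcont.continuousOn
  have hG0 : G 0 = Real.log (2 * m + 1) := by
    rw [hG]
    simp only
    apply le_antisymm
    · refine Finset.sup'_le _ _ (fun H _ => ?_)
      simp [gg, ZZ]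
    · refine le_trans ?_ (Finset.le_sup' (fun H => gg m δ H 0) (Finset.mem_range.2 (Nat.succ_pos m)))
      simp [gg, ZZ]
  refine ⟨s, hs.1, hs.2, ?_⟩
  intro t ht
  have hst : G s ≤ G t := by
    rcases le_or_gt t (2 / δ * Real.log (2 * m + 1)) with h | h
    · exact hmin ⟨ht, h⟩
    · have h1 : G s ≤ G 0 := hmin ⟨le_rfl, hS⟩
      have h2 : δ / 2 * t ≤ G t := by
        rw [hG]
        refine le_trans ?_ (Finset.le_sup' (fun H => gg m δ H t)
          (Finset.mem_range.2 (Nat.lt_succ_self m)))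
        have h3 : 0 ≤ Real.log (ZZ m m t) := by
          rw [← kap_exp]
          exact Real.log_nonneg (one_le_kap_mm m (Real.exp_pos t))
        simp only [gg]
        linarith
      have h3 : Real.log (2 * m + 1) ≤ δ / 2 * t := by
        have h4 := mul_le_mul_of_nonneg_left h.le (by positivity : 0 ≤ δ / 2)
        have h5 : δ / 2 * (2 / δ * Real.log (2 * m + 1)) = Real.log (2 * m + 1) := by
          field_simp
        linarith
      linarith
  obtain ⟨H, hH, h⟩ := Finset.exists_mem_eq_sup' hne (fun H => gg m δ H t)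
  rw [Finset.mem_range] at hH
  refine ⟨H, by omega, ?_⟩
  intro K hK
  have h1 : gg m δ K s ≤ G s := by
    rw [hG]
    exact Finset.le_sup' (fun H => gg m δ H s) (Finset.mem_range.2 (by omega))
  have h2 : G t = gg m δ H t := by rw [hG]; exact h
  linarith

theorem sum_two (n k : ℕ) (hk : k ≤ n) (A B : ℝ) :
    ∑ i : Fin n, (if (i : ℕ) < k then A else B) = k * A + (n - k) * B := by
  rw [Fin.sum_univ_eq_sum_range (fun i => if i < k then A else B)]
  obtain ⟨d, rfl⟩ := Nat.exists_eq_add_of_le hk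
  rw [Finset.sum_range_add]
  have h1 : ∑ i ∈ range k, (if i < k then A else B) = k * A := by
    rw [Finset.sum_congr rfl (g := fun _ => A)]
    · simp
    · intro i hi
      rw [if_pos (Finset.mem_range.1 hi)]
  have h2 : ∑ i ∈ range d, (if k + i < k then A else B) = d * B := by
    rw [Finset.sum_congr rfl (g := fun _ => B)]
    · simp
    · intro i _
      rw [if_neg (by omega)]
  rw [h1, h2]
  push_cast
  ring

theorem lower (h1 : DiamStmt) (h2 : CountStmt) (h3 : MinimaxStmt) : LowerStmt := by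
  intro m δ ε hδ hε
  have hm0 : (0 : ℝ) ≤ m := Nat.cast_nonneg m
  have hlq : 0 ≤ Real.log (2 * m + 1) := Real.log_nonneg (by linarith)
  obtain ⟨S, hS⟩ : ∃ S, S = 4 / δ * Real.log (2 * m + 1) := ⟨_, rfl⟩
  have hS0 : 0 ≤ S := by rw [hS]; positivity
  obtain ⟨η, hη⟩ : ∃ η, η = min (δ / 2) (ε / (2 * (S + 1))) := ⟨_, rfl⟩
  have hη0 : 0 < η := by rw [hη]; positivity
  have hη1 : η ≤ δ / 2 := by rw [hη]; exact min_le_left _ _
  have hη2 : η * (2 * (S + 1)) ≤ ε := by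
    rw [← le_div_iff₀ (by positivity), hη]; exact min_le_right _ _
  obtain ⟨δ', hδ'⟩ : ∃ δ', δ' = δ - η := ⟨_, rfl⟩
  have hδ'0 : 0 < δ' := by rw [hδ']; linarith
  obtain ⟨s, hs0, hs1, hmin⟩ := exists_minimiser m δ' hδ'0
  have hsS : s ≤ S := by
    refine hs1.trans ?_
    rw [hS]
    apply mul_le_mul_of_nonneg_right _ hlq
    rw [div_le_div_iff₀ hδ'0 hδ]
    rw [hδ']
    linarith
  obtain ⟨H, hH, K, hK, t, ht0, ht1, hHa, hKa, hd1, hd2⟩ := h3 m (gg m δ')
    (fun H s => δ' / 2 - WW m H s / ZZ m H s) s hs0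
    (fun H _ t => hasDeriv_gg m H δ' t) hmin
  -- both types realise the maximum
  obtain ⟨J, hJ, hJ1, hJ2⟩ := kmax_exp m s
  have hact : ∀ L ≤ m, (∀ I ≤ m, gg m δ' I s ≤ gg m δ' L s) → ZZ m L s = kmax m (Real.exp s) := by
    intro L hL hLa
    have e1 := hLa J hJ
    simp only [gg] at e1
    have e2 : Real.log (ZZ m J s) ≤ Real.log (ZZ m L s) := by linarith
    have e3 := (Real.log_le_log_iff (ZZ_pos m J s) (ZZ_pos m L s)).1 e2
    rw [hJ1]
    exact le_antisymm (hJ2 L hL) e3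
  have hZH := hact H hH hHa
  have hZK := hact K hK hKa
  obtain ⟨Z, hZ⟩ : ∃ Z, Z = kmax m (Real.exp s) := ⟨_, rfl⟩
  rw [← hZ] at hZH hZK
  have hZ0 : 0 < Z := by rw [hZ]; exact kmax_pos m (Real.exp_pos s)
  obtain ⟨EH, hEH⟩ : ∃ EH, EH = WW m H s / ZZ m H s := ⟨_, rfl⟩
  obtain ⟨EK, hEK⟩ : ∃ EK, EK = WW m K s / ZZ m K s := ⟨_, rfl⟩
  have hEH0 : 0 ≤ EH := by rw [hEH]; exact mean_nonneg hH s
  have hEK0 : 0 ≤ EK := by rw [hEK]; exact mean_nonneg hK s
  have hEH1 : EH ≤ m := by rw [hEH]; exact mean_le hH s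
  have hEK1 : EK ≤ m := by rw [hEK]; exact mean_le hK s
  simp only [← hEH, ← hEK] at hd1 hd2
  have hrate : rate m δ ≤ δ' / 2 * s + Real.log Z + η / 2 * s := by
    have e1 := rate_le m hδ.le (u := Real.exp s) (Real.one_le_exp hs0)
    rw [Real.log_exp, ← hZ] at e1
    rw [hδ']
    linarith
  obtain ⟨N, hN⟩ : ∃ N : ℕ, 4 * (m + 1) / η + 2 * m ^ 2 / (η / 4) ^ 2 + 2 * (S * m + 1) / ε ≤ N :=
    exists_nat_ge _
  filter_upwards [eventually_ge_atTop N] with n hn
  have hn' : (N : ℝ) ≤ n := by exact_mod_cast hn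
  have t1 : 0 ≤ 4 * (m + 1) / η := by positivity
  have t2 : 0 ≤ 2 * (m : ℝ) ^ 2 / (η / 4) ^ 2 := by positivity
  have t3 : 0 ≤ 2 * (S * m + 1) / ε := by positivity
  have n1 : 4 * ((m : ℝ) + 1) ≤ n * η := by
    rw [← div_le_iff₀ hη0]; linarith
  have n2 : 2 * (m : ℝ) ^ 2 ≤ (η / 4) ^ 2 * n := by
    rw [mul_comm ((η / 4) ^ 2) (n : ℝ), ← div_le_iff₀ (by positivity)]; linarith
  have n3 : 2 * (S * m + 1) ≤ n * ε := by
    rw [← div_le_iff₀ hε]; linarith
  have hn0 : (0 : ℝ) ≤ n := Nat.cast_nonneg n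
  obtain ⟨k, hk⟩ : ∃ k, k = ⌊t * n⌋₊ := ⟨_, rfl⟩
  have hk1 : (k : ℝ) ≤ t * n := by rw [hk]; exact Nat.floor_le (by positivity)
  have hk2 : t * n < k + 1 := by rw [hk]; exact Nat.lt_floor_add_one _
  have hkn : k ≤ n := by
    have e1 : t * n ≤ 1 * n := mul_le_mul_of_nonneg_right ht1 hn0
    have : (k : ℝ) ≤ n := by linarith
    exact_mod_cast this
  obtain ⟨HH, hHH⟩ : ∃ HH : Fin n → ℕ, HH = fun i : Fin n => if (i : ℕ) < k then H else K := ⟨_, rfl⟩
  have hHHm : ∀ i, HH i ≤ m := by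
    intro i
    rw [hHH]
    simp only
    split_ifs <;> assumption
  have hMval : ∑ i : Fin n, (∑ x, ph m (HH i) x * Real.exp (-(s * ph m (HH i) x))) /
      (∑ x, Real.exp (-(s * ph m (HH i) x))) = k * EH + (n - k) * EK := by
    rw [← sum_two n k hkn EH EK]
    refine Finset.sum_congr rfl (fun i _ => ?_)
    rw [hHH]
    simp only
    split_ifs
    · rw [hEH]; rfl
    · rw [hEK]; rfl
  have hprod : ∏ i : Fin n, (∑ x, Real.exp (-(s * ph m (HH i) x))) = Z ^ n := by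
    rw [Finset.prod_congr rfl (g := fun _ => Z)]
    · simp
    · intro i _
      rw [hHH]
      simp only
      split_ifs
      · rw [← hZH]; rfl
      · rw [← hZK]; rfl
  have hcount := h2 (2 * m + 1) n m (fun i => ph m (HH i)) s (η / 4) (by omega) hs0 (by positivity)
    (fun i x => ⟨ph_nonneg (hHHm i) x, ph_le (hHHm i) x⟩) n2 _ hMval.symm
  rw [hprod] at hcount
  obtain ⟨M, hM⟩ : ∃ M : ℝ, M = k * EH + (n - k) * EK := ⟨_, rfl⟩
  rw [← hM] at hcount
  have ha1 : 0 ≤ t * n - k := by linarith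
  have ha2 : 0 ≤ 1 - (t * n - k) := by linarith
  have hMlow : n * (t * EH + (1 - t) * EK) - m ≤ M := by
    rw [hM]
    have e1 := mul_nonneg ha1 (by linarith : 0 ≤ (m : ℝ) - (EH - EK))
    have e2 := mul_nonneg ha2 hm0
    linarith
  have hMup : M ≤ n * (t * EH + (1 - t) * EK) + m := by
    rw [hM]
    have e1 := mul_nonneg ha1 (by linarith : 0 ≤ (m : ℝ) + (EH - EK))
    have e2 := mul_nonneg ha2 hm0
    linarith
  have hD : M + η / 4 * n ≤ (⌊δ * n⌋₊ : ℝ) / 2 := by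
    have e1 : δ * n < ⌊δ * n⌋₊ + 1 := Nat.lt_floor_add_one _
    have e2 : t * EH + (1 - t) * EK ≤ δ' / 2 := by linarith
    have e3 : n * (t * EH + (1 - t) * EK) ≤ n * (δ' / 2) := mul_le_mul_of_nonneg_left e2 hn0
    rw [hδ'] at e3
    linarith
  have hcard := h1 m n ⌊δ * n⌋₊ HH hHHm
    (univ.filter fun x : Fin n → Fin (2 * m + 1) => ∑ i, ph m (HH i) (x i) ≤ M + η / 4 * n) (by
      intro x hx
      exact (Finset.mem_filter.1 hx).2.trans hD)
  have hcard' : ((univ.filter fun x : Fin n → Fin (2 * m + 1) =>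
      ∑ i, ph m (HH i) (x i) ≤ M + η / 4 * n).card : ℝ) ≤ NL (2 * m + 1) n ⌊δ * n⌋₊ := by
    exact_mod_cast hcard
  have hfin := hcount.trans hcard'
  have hlog := Real.log_le_log (by positivity) hfin
  rw [Real.log_mul (by positivity) (by positivity), Real.log_mul (by norm_num) (Real.exp_pos _).ne',
    Real.log_exp, Real.log_pow] at hlog
  have hl2 : -1 ≤ Real.log (1 / 2 : ℝ) := by
    have e1 := Real.one_sub_inv_le_log_of_pos (by norm_num : (0 : ℝ) < 1 / 2)
    norm_num at e1 ⊢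
    linarith
  have hsd : s * (t * EH + (1 - t) * EK) = s * (δ' / 2) := by linarith
  have hsM : s * (n * (δ' / 2)) - S * m ≤ s * M := by
    have e1 := mul_le_mul_of_nonneg_left hMlow hs0
    have e2 : s * (n * (t * EH + (1 - t) * EK) - m) = n * (s * (t * EH + (1 - t) * EK)) - s * m := by
      ring
    rw [e2, hsd] at e1
    have e3 := mul_le_mul_of_nonneg_right hsS hm0
    linarith
  have hseta : s * η ≤ ε / 2 := by
    have e1 : s * η ≤ S * η := mul_le_mul_of_nonneg_right hsS hη0.le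
    linarith
  have hnr := mul_le_mul_of_nonneg_left hrate hn0
  have hnse := mul_le_mul_of_nonneg_left hseta hn0
  have hne : 0 ≤ (n : ℝ) * ε := mul_nonneg hn0 hε.le
  linarith

end Pool.Agent.Lib.MP_72646e_co
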