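import Pool.Agent.Lib.MP_72646e_co.BallCube

set_option autoImplicit false

/-! Comparison of the partition functions. -/

namespace Pool.Agent.Lib.MP_72646e_co

open Finset Filter Topology

theorem kap_w {m H : ℕ} (hH : H ≤ m) {w : ℝ} (hw : 0 < w) :
    kap m H (w ^ 2) * w ^ (m + H) = PP m H (w ^ 2) := by
  have h1 := kapEq m H (w ^ 2) hH (by positivity)
  have hk := kap_pos m H (u := w ^ 2) (by positivity)
  have hP : 0 ≤ PP m H (w ^ 2) := by
    have hHm : (H : ℝ) ≤ m := by exact_mod_cast hH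
    unfold PP
    split_ifs
    · positivity
    · have e1 : 0 ≤ ((m : ℝ) - H + 1) * (w ^ 2) ^ H := mul_nonneg (by linarith) (by positivity)
      have e2 : 0 ≤ ∑ j ∈ Finset.Ico 1 H, (w ^ 2) ^ j :=
        Finset.sum_nonneg (fun _ _ => by positivity)
      linarith
  have h2 : (kap m H (w ^ 2) * w ^ (m + H)) ^ 2 = PP m H (w ^ 2) ^ 2 := by
    rw [h1, mul_pow, ← pow_mul, ← pow_mul, mul_comm (m + H) 2, mul_comm]
  exact (pow_left_inj₀ (by positivity) hP (by norm_num)).1 h2

/-- Comparison criterion. -/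
theorem kap_le_of {m H K : ℕ} (hH : H ≤ m) (hK : K ≤ m) {w : ℝ} (hw : 0 < w)
    (h : w ^ (m + K) * PP m H (w ^ 2) ≤ w ^ (m + H) * PP m K (w ^ 2)) :
    kap m H (w ^ 2) ≤ kap m K (w ^ 2) := by
  rw [← kap_w hH hw, ← kap_w hK hw] at h
  have h1 : 0 < w ^ (m + H) * w ^ (m + K) := by positivity
  have h2 : w ^ (m + H) * w ^ (m + K) * kap m H (w ^ 2) ≤
      w ^ (m + H) * w ^ (m + K) * kap m K (w ^ 2) := by
    refine le_trans (le_of_eq (by ring)) (h.trans (le_of_eq (by ring)))
  exact le_of_mul_le_mul_left h2 h1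

theorem kap_lt_of {m H K : ℕ} (hH : H ≤ m) (hK : K ≤ m) {w : ℝ} (hw : 0 < w)
    (h : w ^ (m + K) * PP m H (w ^ 2) < w ^ (m + H) * PP m K (w ^ 2)) :
    kap m H (w ^ 2) < kap m K (w ^ 2) := by
  rw [← kap_w hH hw, ← kap_w hK hw] at h
  have h1 : 0 < w ^ (m + H) * w ^ (m + K) := by positivity
  have h2 : w ^ (m + H) * w ^ (m + K) * kap m H (w ^ 2) <
      w ^ (m + H) * w ^ (m + K) * kap m K (w ^ 2) := by
    refine lt_of_le_of_lt (le_of_eq (by ring)) (h.trans_le (le_of_eq (by ring)))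
  exact lt_of_mul_lt_mul_left h2 h1.le

theorem PP_zero (m : ℕ) (u : ℝ) : PP m 0 u = 2 * m + 1 := by simp [PP]

/-- For `q ≤ 7` only the types `0` and `m` matter. -/
theorem small_q (m : ℕ) (hm : m ≤ 3) {u : ℝ} (hu : 1 ≤ u) (H : ℕ) (hH : H ≤ m) :
    kap m H u ≤ kap m 0 u ∨ kap m H u ≤ kap m m u := by
  obtain ⟨w, hw1, rfl⟩ : ∃ w : ℝ, 1 ≤ w ∧ u = w ^ 2 := by
    refine ⟨Real.sqrt u, Real.one_le_sqrt.2 hu, (Real.sq_sqrt (by linarith)).symm⟩
  have hw : 0 < w := by linarith
  have hw0 : 0 ≤ w - 1 := by linarith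
  by_cases h0 : H = 0
  · left; rw [h0]
  by_cases hmm : H = m
  · right; rw [hmm]
  have hcases : (m = 2 ∧ H = 1) ∨ (m = 3 ∧ H = 1) ∨ (m = 3 ∧ H = 2) := by omega
  rcases hcases with ⟨rfl, rfl⟩ | ⟨rfl, rfl⟩ | ⟨rfl, rfl⟩
  · rcases le_total w (3 / 2) with h | h
    · left
      apply kap_le_of (by omega) (by omega) hw
      rw [PP_zero]
      simp only [PP, one_ne_zero, if_false, Finset.Ico_self, Finset.sum_empty]
      have h1 : 0 ≤ w ^ 2 * ((w - 1) * (3 - 2 * w)) :=
        mul_nonneg (by positivity) (mul_nonneg hw0 (by linarith))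
      norm_num
      nlinarith
    · right
      apply kap_le_of (by omega) (by omega) hw
      have e1 : Finset.Ico 1 2 = {1} := by decide
      simp only [PP, one_ne_zero, if_false, Finset.Ico_self, Finset.sum_empty, e1,
        Finset.sum_singleton, OfNat.ofNat_ne_zero]
      have h1 : 0 ≤ w ^ 3 - w ^ 2 + w - 2 := by nlinarith [mul_nonneg hw0 (sub_nonneg.2 h)]
      have h2 : 0 ≤ w ^ 3 * ((w - 1) * (w ^ 3 - w ^ 2 + w - 2)) :=
        mul_nonneg (by positivity) (mul_nonneg hw0 h1)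
      norm_num
      nlinarith
  · rcases le_total w (4 / 3) with h | h
    · left
      apply kap_le_of (by omega) (by omega) hw
      rw [PP_zero]
      simp only [PP, one_ne_zero, if_false, Finset.Ico_self, Finset.sum_empty]
      have h1 : 0 ≤ w ^ 3 * ((w - 1) * (4 - 3 * w)) :=
        mul_nonneg (by positivity) (mul_nonneg hw0 (by linarith))
      norm_num
      nlinarith
    · right
      apply kap_le_of (by omega) (by omega) hw
      have e1 : Finset.Ico 1 3 = {1, 2} := by decide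
      simp only [PP, one_ne_zero, if_false, Finset.Ico_self, Finset.sum_empty, e1,
        OfNat.ofNat_ne_zero]
      rw [Finset.sum_pair (by norm_num)]
      have h1 : 0 ≤ (w ^ 2 - 1) * (w ^ 4 - 2) := by
        apply mul_nonneg
        · nlinarith
        · have : 16 / 9 ≤ w ^ 2 := by nlinarith
          nlinarith
      have h2 : 0 ≤ w ^ 4 * ((w ^ 2 - 1) * (w ^ 4 - 2)) := mul_nonneg (by positivity) h1
      norm_num
      nlinarith
  · rcases le_total (w ^ 2) (3 / 2) with h | h
    · left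
      apply kap_le_of (by omega) (by omega) hw
      rw [PP_zero]
      have e1 : Finset.Ico 1 2 = {1} := by decide
      simp only [PP, one_ne_zero, if_false, Finset.Ico_self, Finset.sum_empty, e1,
        OfNat.ofNat_ne_zero, Finset.sum_singleton]
      have h1 : 0 ≤ w ^ 3 * ((w ^ 2 - 1) * (3 - 2 * w ^ 2)) := by
        apply mul_nonneg (by positivity)
        apply mul_nonneg
        · nlinarith
        · linarith
      norm_num
      nlinarith
    · right
      apply kap_le_of (by omega) (by omega) hw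
      have e1 : Finset.Ico 1 2 = {1} := by decide
      have e2 : Finset.Ico 1 3 = {1, 2} := by decide
      simp only [PP, one_ne_zero, if_false, Finset.Ico_self, Finset.sum_empty, e1, e2,
        OfNat.ofNat_ne_zero, Finset.sum_singleton]
      rw [Finset.sum_pair (by norm_num)]
      have h1 : 122 / 100 ≤ w := by nlinarith
      have h2 : 9 / 4 ≤ w ^ 4 := by nlinarith
      have h3 : 1 ≤ (w - 1) * (w ^ 4 + w ^ 2 + 1) := by nlinarith
      have h4 : 0 ≤ w ^ 5 * ((w - 1) * ((w - 1) * (w ^ 4 + w ^ 2 + 1) - 1)) :=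
        mul_nonneg (by positivity) (mul_nonneg hw0 (by linarith))
      norm_num
      nlinarith

theorem kmax_small (m : ℕ) (hm : m ≤ 3) {u : ℝ} (hu : 1 ≤ u) :
    kmax m u ≤ kap m 0 u ∨ kmax m u ≤ kap m m u := by
  obtain ⟨H, hH, h⟩ := Finset.exists_mem_eq_sup' (⟨0, by simp⟩ : (range (m + 1)).Nonempty)
    (fun H => kap m H u)
  rw [Finset.mem_range] at hH
  have h2 : kmax m u = kap m H u := h
  rw [h2]
  exact small_q m hm hu H (by omega)

end Pool.Agent.Lib.MP_72646e_co
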