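import Pool.Agent.Lib.MP_72646e_co.Cross

set_option autoImplicit false

/-! The exact value of `NL (2 m + 1) 2 D`. -/

namespace Pool.Agent.Lib.MP_72646e_co

open Finset

theorem pair_sum (h : ℕ → ℕ) (r K : ℕ) (hp : ∀ i < 2 * r, h i + h (2 * r - 1 - i) ≤ K) :
    ∑ i ∈ range (2 * r), h i ≤ r * K := by
  have h1 : ∑ i ∈ range (2 * r), (h i + h (2 * r - 1 - i)) ≤ ∑ _i ∈ range (2 * r), K :=
    Finset.sum_le_sum (fun i hi => hp i (Finset.mem_range.1 hi))
  rw [Finset.sum_add_distrib, Finset.sum_range_reflect, Finset.sum_const, Finset.card_range,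
    smul_eq_mul] at h1
  have h2 : 2 * r * K = 2 * (r * K) := by ring
  omega

theorem sum_zero_tail (h : ℕ → ℕ) (R N : ℕ) (hRN : R ≤ N) (hz : ∀ i, R ≤ i → h i = 0) :
    ∑ i ∈ range N, h i = ∑ i ∈ range R, h i := by
  symm
  apply Finset.sum_subset (Finset.range_mono hRN)
  intro i _ hi
  rw [Finset.mem_range] at hi
  exact hz i (by omega)

/-- The sum of a nonincreasing sequence with the pair constraints. -/
theorem seq_bound (m D : ℕ) (hD : D < 2 * m) (h : ℕ → ℕ) (hanti : ∀ i j, i ≤ j → h j ≤ h i)
    (hR : ∀ i j, 0 < h i → 0 < h j → (i + j + 1) / 2 ≤ m → D < m + (i + j + 1) / 2 →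
      h i + h j + 2 * ((i + j + 1) / 2) ≤ 2 * (D + 1))
    (R : ℕ) (hR1 : ∀ i, 0 < h i ↔ i < R) (hRq : R ≤ 2 * m + 1) :
    (R = 2 * m + 1 → ∑ i ∈ range (2 * m + 1), h i ≤ (2 * m + 1) * (D + 1 - m)) ∧
    (R ≤ 2 * m → D < m + R / 2 → ∑ i ∈ range (2 * m + 1), h i ≤ ((D + 1) ^ 2 + 1) / 2) ∧
    (m + R / 2 ≤ D → h 0 ≤ 2 * (D - m) + 1 →
      ∑ i ∈ range (2 * m + 1), h i ≤ (2 * m + 1) * (D + 1 - m)) := by
  have hz : ∀ i, R ≤ i → h i = 0 := by
    intro i hi
    by_contra hc
    have := (hR1 i).1 (Nat.pos_of_ne_zero hc)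
    omega
  refine ⟨?_, ?_, ?_⟩
  · intro hRe
    have hm0 : 0 < m := by omega
    have e1 := hR m m ((hR1 m).2 (by omega)) ((hR1 m).2 (by omega)) (by omega) (by omega)
    have e2 : (m + m + 1) / 2 = m := by omega
    rw [e2] at e1
    have e3 := hanti m (2 * m) (by omega)
    have e4 : ∑ i ∈ range (2 * m), h i ≤ m * (2 * (D + 1 - m)) := by
      apply pair_sum
      intro i hi
      have e5 := hR i (2 * m - 1 - i) ((hR1 _).2 (by omega)) ((hR1 _).2 (by omega)) (by omega)
        (by omega)
      have e6 : (i + (2 * m - 1 - i) + 1) / 2 = m := by omega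
      rw [e6] at e5
      omega
    rw [Finset.sum_range_succ]
    have e7 : (2 * m + 1) * (D + 1 - m) = m * (2 * (D + 1 - m)) + (D + 1 - m) := by ring
    omega
  · intro hR2 hDR
    rw [sum_zero_tail h R _ hRq hz]
    obtain ⟨r, hr | hr⟩ : ∃ r, R = 2 * r ∨ R = 2 * r + 1 := ⟨R / 2, by omega⟩
    · subst hr
      have hdiv : 2 * r / 2 = r := by omega
      rw [hdiv] at hDR
      rcases Nat.eq_zero_or_pos r with h0 | h0
      · subst h0
        simp
      · have e1 : r ≤ D + 1 := by
          have e5 := hR 0 (2 * r - 1) ((hR1 _).2 (by omega)) ((hR1 _).2 (by omega)) (by omega)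
            (by omega)
          have e6 : (0 + (2 * r - 1) + 1) / 2 = r := by omega
          rw [e6] at e5
          omega
        have e4 : ∑ i ∈ range (2 * r), h i ≤ r * (2 * (D + 1 - r)) := by
          apply pair_sum
          intro i hi
          have e5 := hR i (2 * r - 1 - i) ((hR1 _).2 (by omega)) ((hR1 _).2 (by omega)) (by omega)
            (by omega)
          have e6 : (i + (2 * r - 1 - i) + 1) / 2 = r := by omega
          rw [e6] at e5
          omega
        refine e4.trans ?_
        rw [Nat.le_div_iff_mul_le (by norm_num)]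
        obtain ⟨d, hd⟩ := Nat.exists_eq_add_of_le e1
        rw [hd, Nat.add_sub_cancel_left]
        nlinarith [sq_nonneg ((r : ℤ) - d), sq_nonneg (r - d), Nat.zero_le (r * d),
          (by
            have := sq_nonneg ((r : ℤ) - d)
            have h9 : (2 * (r : ℤ) * d) ≤ r ^ 2 + d ^ 2 := by nlinarith
            exact_mod_cast h9 : 2 * r * d ≤ r ^ 2 + d ^ 2)]
    · subst hr
      have hdiv : (2 * r + 1) / 2 = r := by omega
      rw [hdiv] at hDR
      have e0 := hR 0 (2 * r) ((hR1 _).2 (by omega)) ((hR1 _).2 (by omega)) (by omega)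
            (by omega)
      have e0' : (0 + 2 * r + 1) / 2 = r := by omega
      rw [e0'] at e0
      have e1 : r ≤ D + 1 := by omega
      have e2 : 0 < r → r + 1 ≤ D + 1 := by
        intro hr0
        have e5 := hR 1 (2 * r) ((hR1 _).2 (by omega)) ((hR1 _).2 (by omega)) (by omega)
            (by omega)
        have e6 : (1 + 2 * r + 1) / 2 = r + 1 := by omega
        rw [e6] at e5
        omega
      have e4 : ∑ i ∈ range (2 * r), h i ≤ r * (2 * (D + 1) - 2 * r) := by
        apply pair_sum
        intro i hi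
        have e5 := hR i (2 * r - 1 - i) ((hR1 _).2 (by omega)) ((hR1 _).2 (by omega)) (by omega)
            (by omega)
        have e6 : (i + (2 * r - 1 - i) + 1) / 2 = r := by omega
        rw [e6] at e5
        omega
      have e5 : ∑ i ∈ range (2 * r), h (i + 1) ≤ r * (2 * (D + 1) - 2 * (r + 1)) := by
        apply pair_sum (fun i => h (i + 1))
        intro i hi
        have e5 := hR (i + 1) (2 * r - 1 - i + 1) ((hR1 _).2 (by omega)) ((hR1 _).2 (by omega))
          (by omega) (by omega)
        have e6 : (i + 1 + (2 * r - 1 - i + 1) + 1) / 2 = r + 1 := by omega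
        rw [e6] at e5
        omega
      have t1 : ∑ i ∈ range (2 * r + 1), h i = ∑ i ∈ range (2 * r), h i + h (2 * r) :=
        Finset.sum_range_succ _ _
      have t2 : ∑ i ∈ range (2 * r + 1), h i = ∑ i ∈ range (2 * r), h (i + 1) + h 0 :=
        Finset.sum_range_succ' _ _
      rw [Nat.le_div_iff_mul_le (by norm_num)]
      rcases Nat.eq_zero_or_pos r with h0 | h0
      · subst h0
        simp only [mul_zero, zero_mul, Nat.zero_add, range_zero, sum_empty, range_one,
          sum_singleton] at *
        nlinarith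
      · have e2' := e2 h0
        obtain ⟨d, hd⟩ := Nat.exists_eq_add_of_le e2'
        have s1 : 2 * (D + 1) - 2 * r = 2 * (d + 1) := by omega
        have s2 : 2 * (D + 1) - 2 * (r + 1) = 2 * d := by omega
        rw [s1] at e4
        rw [s2] at e5
        have s3 : h 0 + h (2 * r) ≤ 2 * (d + 1) := by omega
        rw [hd]
        have h9 : 2 * r * d ≤ r ^ 2 + d ^ 2 := by
          have h8 : (2 * (r : ℤ) * d) ≤ r ^ 2 + d ^ 2 := by
            have := sq_nonneg ((r : ℤ) - d)
            nlinarith
          exact_mod_cast h8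
        nlinarith
  · intro hDR h0
    obtain ⟨t, ht⟩ : ∃ t, t = D + 1 - m := ⟨_, rfl⟩
    have hDt : D + 1 = m + t := by omega
    have ht0 : 0 < t := by omega
    have htm : t ≤ m := by omega
    have hRt : R ≤ 2 * t - 1 := by omega
    have h0' : h 0 ≤ 2 * t - 1 := by omega
    have hle : ∀ i, h i ≤ 2 * t - 1 := fun i => (hanti 0 i (Nat.zero_le i)).trans h0'
    rw [← ht, sum_zero_tail h R _ hRq hz]
    rcases Nat.lt_or_ge t R with h1 | h1
    · obtain ⟨l, hl⟩ : ∃ l, R = t + l := ⟨R - t, by omega⟩
      have hRs : R = (t - l) + 2 * l := by omega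
      rw [hRs, Finset.sum_range_add]
      have e1 : ∑ i ∈ range (t - l), h i ≤ (t - l) * (2 * m) := by
        have := Finset.sum_le_card_nsmul (range (t - l)) h (2 * m)
          (fun i _ => (hle i).trans (by omega))
        rwa [Finset.card_range, smul_eq_mul] at this
      have e2 : ∑ i ∈ range (2 * l), h (t - l + i) ≤ l * (2 * m) := by
        apply pair_sum (fun i => h (t - l + i))
        intro i hi
        have e5 := hR (t - l + i) (t - l + (2 * l - 1 - i)) ((hR1 _).2 (by omega))
          ((hR1 _).2 (by omega)) (by omega) (by omega)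
        have e6 : (t - l + i + (t - l + (2 * l - 1 - i)) + 1) / 2 = t := by omega
        rw [e6] at e5
        omega
      have e3 : (t - l) * (2 * m) + l * (2 * m) = t * (2 * m) := by
        rw [← Nat.add_mul]
        congr 1
        omega
      have e4 : (2 * m + 1) * t = t * (2 * m) + t := by ring
      omega
    · have e1 : ∑ i ∈ range R, h i ≤ R * (2 * t - 1) := by
        have := Finset.sum_le_card_nsmul (range R) h (2 * t - 1) (fun i _ => hle i)
        rwa [Finset.card_range, smul_eq_mul] at this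
      have e2 : R * (2 * t - 1) ≤ t * (2 * m + 1) := Nat.mul_le_mul h1 (by omega)
      have e3 : (2 * m + 1) * t = t * (2 * m + 1) := Nat.mul_comm _ _
      omega

end Pool.Agent.Lib.MP_72646e_co
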