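import Pool.Agent.Lib.MP_72646e_co.PlaneSec

set_option autoImplicit false

/-! Extremal planar sets and the exact value of `NL (2 m + 1) 2 D`. -/

namespace Pool.Agent.Lib.MP_72646e_co

open Finset

theorem dL_two {q : ℕ} (x y : Fin 2 → Fin q) :
    dL x y = lee (x 0) (y 0) + lee (x 1) (y 1) := by
  simp [dL, Fin.sum_univ_two]

theorem NL_two_le {m D M : ℕ} (h : ∀ B : Finset (Fin (2 * m + 1) × Fin (2 * m + 1)),
    (∀ p ∈ B, ∀ p' ∈ B, lee p.1 p'.1 + lee p.2 p'.2 ≤ D) → B.card ≤ M) :
    NL (2 * m + 1) 2 D ≤ M := by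
  obtain ⟨A, hA, hcard⟩ := exists_NL (2 * m + 1) 2 D
  rw [← hcard, ← Finset.card_map (finTwoArrowEquiv (Fin (2 * m + 1))).toEmbedding]
  apply h
  intro p hp p' hp'
  obtain ⟨x, hx, rfl⟩ := Finset.mem_map.1 hp
  obtain ⟨y, hy, rfl⟩ := Finset.mem_map.1 hp'
  have := hA x hx y hy
  rw [dL_two] at this
  exact this

theorem le_NL_two {m D : ℕ} (B : Finset (Fin (2 * m + 1) × Fin (2 * m + 1)))
    (h : ∀ p ∈ B, ∀ p' ∈ B, lee p.1 p'.1 + lee p.2 p'.2 ≤ D) :
    B.card ≤ NL (2 * m + 1) 2 D := by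
  rw [← Finset.card_map (finTwoArrowEquiv (Fin (2 * m + 1))).symm.toEmbedding]
  apply card_le_NL
  intro x hx y hy
  obtain ⟨p, hp, rfl⟩ := Finset.mem_map.1 hx
  obtain ⟨p', hp', rfl⟩ := Finset.mem_map.1 hy
  rw [dL_two]
  exact h p hp p' hp'

theorem lee_le_m {m : ℕ} (x y : Fin (2 * m + 1)) : lee x y ≤ m := by
  have hx := x.2
  have hy := y.2
  simp only [lee, Nat.dist]
  omega

theorem lee_le_dist {q : ℕ} (x y : Fin q) : lee x y ≤ Nat.dist x y := min_le_left _ _

/-- The strip. -/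
def strip (m D : ℕ) : Finset (Fin 2 → Fin (2 * m + 1)) :=
  univ.filter fun x => ((x 1 : Fin (2 * m + 1)) : ℕ) < D + 1 - m

theorem strip_diam {m D : ℕ} : ∀ x ∈ strip m D, ∀ y ∈ strip m D, dL x y ≤ D := by
  intro x hx y hy
  have e1 := (Finset.mem_filter.1 hx).2
  have e2 := (Finset.mem_filter.1 hy).2
  have e3 := lee_le_m (x 0) (y 0)
  have e4 := lee_le_dist (x 1) (y 1)
  simp only [Nat.dist] at e4
  rw [dL_two]
  omega

theorem strip_card {m D : ℕ} (hD : D < 2 * m) :
    (strip m D).card = (2 * m + 1) * (D + 1 - m) := by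
  have h0 : (strip m D).map (finTwoArrowEquiv (Fin (2 * m + 1))).toEmbedding = univ ×ˢ
      (univ.filter fun y : Fin (2 * m + 1) => (y : ℕ) < D + 1 - m) := by
    ext p
    rw [Finset.mem_map, Finset.mem_product]
    constructor
    · rintro ⟨x, hx, rfl⟩
      exact ⟨mem_univ _, Finset.mem_filter.2 ⟨mem_univ _, (Finset.mem_filter.1 hx).2⟩⟩
    · rintro ⟨-, h⟩
      refine ⟨(finTwoArrowEquiv (Fin (2 * m + 1))).symm p, Finset.mem_filter.2 ⟨mem_univ _, ?_⟩,
        by simp⟩
      exact (Finset.mem_filter.1 h).2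
  rw [← Finset.card_map (finTwoArrowEquiv (Fin (2 * m + 1))).toEmbedding, h0,
    Finset.card_product, Finset.card_univ, Fintype.card_fin]
  congr 1
  have h3 : (univ.filter fun y : Fin (2 * m + 1) => (y : ℕ) < D + 1 - m).map
      Fin.valEmbedding = range (D + 1 - m) := by
    ext i
    rw [Finset.mem_map, Finset.mem_range]
    constructor
    · rintro ⟨y, hy, rfl⟩
      exact (Finset.mem_filter.1 hy).2
    · intro hi
      exact ⟨⟨i, by omega⟩, Finset.mem_filter.2 ⟨mem_univ _, hi⟩, rfl⟩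
  rw [← Finset.card_map Fin.valEmbedding, h3, Finset.card_range]

theorem strip_le {m D : ℕ} (hD : D < 2 * m) :
    (2 * m + 1) * (D + 1 - m) ≤ NL (2 * m + 1) 2 D := by
  rw [← strip_card hD]
  exact card_le_NL strip_diam

theorem sum_min : ∀ D : ℕ, ∑ x ∈ range (D + 1), (2 * min x (D - x) + 1) = ((D + 1) ^ 2 + 1) / 2
  | 0 => by simp
  | 1 => by decide
  | D + 2 => by
    rw [Finset.sum_range_succ, Finset.sum_range_succ']
    have h1 : ∑ k ∈ range (D + 1), (2 * min (k + 1) (D + 2 - (k + 1)) + 1) =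
        ∑ k ∈ range (D + 1), (2 * min k (D - k) + 1) + 2 * (D + 1) := by
      have : 2 * (D + 1) = ∑ _k ∈ range (D + 1), 2 := by
        rw [Finset.sum_const, Finset.card_range, smul_eq_mul]
        ring
      rw [this, ← Finset.sum_add_distrib]
      refine Finset.sum_congr rfl (fun k hk => ?_)
      rw [Finset.mem_range] at hk
      omega
    rw [h1, sum_min D]
    have h2 : (D + 2 + 1) ^ 2 = (D + 1) ^ 2 + 4 * (D + 1) + 4 := by ring
    rw [h2]
    omega

/-- The diamond. -/
def diamond (m D : ℕ) : Finset (Fin 2 → Fin (2 * m + 1)) :=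
  univ.filter fun x => ((x 0 : Fin (2 * m + 1)) : ℕ) ≤ D ∧
    Nat.dist (x 1 : Fin (2 * m + 1)) (D / 2) ≤
      min ((x 0 : Fin (2 * m + 1)) : ℕ) (D - (x 0 : Fin (2 * m + 1)))

theorem diamond_diam {m D : ℕ} : ∀ x ∈ diamond m D, ∀ y ∈ diamond m D, dL x y ≤ D := by
  intro x hx y hy
  have e1 := (Finset.mem_filter.1 hx).2
  have e2 := (Finset.mem_filter.1 hy).2
  have e3 := lee_le_dist (x 0) (y 0)
  have e4 := lee_le_dist (x 1) (y 1)
  simp only [Nat.dist] at e1 e2 e3 e4
  rw [dL_two]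
  omega

theorem diamond_card {m D : ℕ} (hD : D < 2 * m) :
    (diamond m D).card = ((D + 1) ^ 2 + 1) / 2 := by
  obtain ⟨B, hB⟩ : ∃ B : Finset (Fin (2 * m + 1) × Fin (2 * m + 1)), B = univ.filter fun p =>
      (p.1 : ℕ) ≤ D ∧ Nat.dist p.2 (D / 2) ≤ min (p.1 : ℕ) (D - p.1) := ⟨_, rfl⟩
  have h0 : (diamond m D).map (finTwoArrowEquiv (Fin (2 * m + 1))).toEmbedding = B := by
    rw [hB]
    ext p
    rw [Finset.mem_map]
    constructor
    · rintro ⟨x, hx, rfl⟩
      exact Finset.mem_filter.2 ⟨mem_univ _, (Finset.mem_filter.1 hx).2⟩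
    · intro h
      refine ⟨(finTwoArrowEquiv (Fin (2 * m + 1))).symm p, Finset.mem_filter.2 ⟨mem_univ _, ?_⟩,
        by simp⟩
      exact (Finset.mem_filter.1 h).2
  rw [← Finset.card_map (finTwoArrowEquiv (Fin (2 * m + 1))).toEmbedding, h0]
  rw [← sum_min D, card_eq_sum_sec B]
  have h2 : ∀ k : Fin (2 * m + 1), (sec B k).card =
      if (k : ℕ) < D + 1 then 2 * min (k : ℕ) (D - k) + 1 else 0 := by
    intro k
    split_ifs with hk
    · have h3 : (sec B k).map Fin.valEmbedding =
          Finset.Icc (D / 2 - min (k : ℕ) (D - k)) (D / 2 + min (k : ℕ) (D - k)) := by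
        ext i
        rw [Finset.mem_map, Finset.mem_Icc]
        constructor
        · rintro ⟨y, hy, rfl⟩
          have h4 := (Finset.mem_filter.1 hy).2
          rw [hB] at h4
          have h5 := (Finset.mem_filter.1 h4).2
          simp only [Nat.dist] at h5
          simp only [Fin.valEmbedding_apply]
          omega
        · rintro ⟨h4, h5⟩
          refine ⟨⟨i, by omega⟩, Finset.mem_filter.2 ⟨mem_univ _, ?_⟩, rfl⟩
          rw [hB]
          refine Finset.mem_filter.2 ⟨mem_univ _, ?_⟩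
          simp only [Nat.dist]
          omega
      rw [← Finset.card_map Fin.valEmbedding, h3, Nat.card_Icc]
      omega
    · rw [Finset.card_eq_zero, Finset.eq_empty_iff_forall_notMem]
      intro y hy
      have h4 := (Finset.mem_filter.1 hy).2
      rw [hB] at h4
      have h5 := (Finset.mem_filter.1 h4).2
      simp only at h5
      omega
  rw [Finset.sum_congr rfl (fun k _ => h2 k),
    Fin.sum_univ_eq_sum_range (fun k => if k < D + 1 then 2 * min k (D - k) + 1 else 0)]
  rw [← Finset.sum_subset (Finset.range_mono (by omega : D + 1 ≤ 2 * m + 1))]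
  · refine Finset.sum_congr rfl (fun k hk => ?_)
    rw [if_pos (Finset.mem_range.1 hk)]
  · intro i _ hi
    rw [Finset.mem_range] at hi
    rw [if_neg hi]

theorem diamond_le {m D : ℕ} (hD : D < 2 * m) :
    ((D + 1) ^ 2 + 1) / 2 ≤ NL (2 * m + 1) 2 D := by
  rw [← diamond_card hD]
  exact card_le_NL diamond_diam

/-- The exact value of `NL (2 m + 1) 2 D`. -/
theorem plane (m D : ℕ) : NL (2 * m + 1) 2 D =
    if 2 * m ≤ D then (2 * m + 1) ^ 2
    else max (((D + 1) ^ 2 + 1) / 2) ((2 * m + 1) * (D + 1 - m)) := by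
  split_ifs with h
  · apply le_antisymm
    · apply NL_two_le
      intro B _
      have := Finset.card_le_univ B
      rw [Fintype.card_prod, Fintype.card_fin] at this
      rw [sq]
      exact this
    · have h1 := le_NL_two (m := m) (D := D) univ (by
        intro p _ p' _
        have e1 := lee_le_m p.1 p'.1
        have e2 := lee_le_m p.2 p'.2
        omega)
      rw [Finset.card_univ, Fintype.card_prod, Fintype.card_fin] at h1
      rw [sq]
      exact h1
  · apply le_antisymm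
    · exact NL_two_le (fun B hB => plane_upper (by omega) B hB)
    · exact max_le (diamond_le (by omega)) (strip_le (by omega))

end Pool.Agent.Lib.MP_72646e_co
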