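import Pool.Agent.Lib.MP_72646e_co.Plane

set_option autoImplicit false

/-! Sections of a planar set and the exact value of `NL (2 m + 1) 2 D`. -/

namespace Pool.Agent.Lib.MP_72646e_co

open Finset

/-- The section of `B` over `k`. -/
def sec {m : ℕ} (B : Finset (Fin (2 * m + 1) × Fin (2 * m + 1))) (k : Fin (2 * m + 1)) :
    Finset (Fin (2 * m + 1)) := univ.filter fun y => (k, y) ∈ B

theorem card_eq_sum_sec {m : ℕ} (B : Finset (Fin (2 * m + 1) × Fin (2 * m + 1))) :
    B.card = ∑ k, (sec B k).card := by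
  have h1 : B.card = ∑ p : Fin (2 * m + 1) × Fin (2 * m + 1), if p ∈ B then 1 else 0 := by
    rw [Finset.sum_ite_mem, Finset.univ_inter, Finset.sum_const, smul_eq_mul, mul_one]
  rw [h1, Fintype.sum_prod_type]
  refine Finset.sum_congr rfl (fun k _ => ?_)
  rw [sec, Finset.card_filter]

/-- The pair constraint for the sections. -/
theorem sec_pair {m D : ℕ} (B : Finset (Fin (2 * m + 1) × Fin (2 * m + 1)))
    (hB : ∀ p ∈ B, ∀ p' ∈ B, lee p.1 p'.1 + lee p.2 p'.2 ≤ D) (k l : Fin (2 * m + 1))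
    (hk : 0 < (sec B k).card) (hl : 0 < (sec B l).card) (hD : D < m + lee k l) :
    (sec B k).card + (sec B l).card + 2 * lee k l ≤ 2 * (D + 1) := by
  rw [Finset.card_pos] at hk hl
  have h1 : ∀ x ∈ sec B k, ∀ y ∈ sec B l, lee k l + lee x y ≤ D := by
    intro x hx y hy
    exact hB (k, x) (Finset.mem_filter.1 hx).2 (l, y) (Finset.mem_filter.1 hy).2
  obtain ⟨x, hx⟩ := hk
  obtain ⟨y, hy⟩ := hl
  have h2 := h1 x hx y hy
  have h3 := cross (sec B k) (sec B l) (D - lee k l) (by omega) ⟨x, hx⟩ ⟨y, hy⟩ (by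
    intro x hx y hy
    have := h1 x hx y hy
    omega)
  omega

/-- The sequence of section sizes in nonincreasing order. -/
theorem exists_sorted {m D : ℕ} (hD : D < 2 * m)
    (B : Finset (Fin (2 * m + 1) × Fin (2 * m + 1)))
    (hB : ∀ p ∈ B, ∀ p' ∈ B, lee p.1 p'.1 + lee p.2 p'.2 ≤ D) :
    ∃ h : ℕ → ℕ, (∀ i j, i ≤ j → h j ≤ h i) ∧
      (∀ i j, 0 < h i → 0 < h j → (i + j + 1) / 2 ≤ m → D < m + (i + j + 1) / 2 →
        h i + h j + 2 * ((i + j + 1) / 2) ≤ 2 * (D + 1)) ∧
      (∑ i ∈ range (2 * m + 1), h i = B.card) ∧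
      ∃ R ≤ 2 * m + 1, (∀ i, 0 < h i ↔ i < R) ∧
        (univ.filter fun k => 0 < (sec B k).card).card ≤ R ∧ ∃ k, h 0 = (sec B k).card := by
  obtain ⟨a, ha⟩ : ∃ a : Fin (2 * m + 1) → ℕ, a = fun k => (sec B k).card := ⟨_, rfl⟩
  obtain ⟨e, he⟩ : ∃ e : Equiv.Perm (Fin (2 * m + 1)), e = Tuple.sort (fun k => -(a k : ℤ)) :=
    ⟨_, rfl⟩
  have hmono : ∀ i j, i ≤ j → a (e j) ≤ a (e i) := by
    intro i j hij
    have h1 := Tuple.monotone_sort (fun k => -(a k : ℤ)) hij
    rw [← he] at h1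
    simp only [Function.comp] at h1
    omega
  obtain ⟨h, hh⟩ : ∃ h : ℕ → ℕ, h = fun i => if hi : i < 2 * m + 1 then a (e ⟨i, hi⟩) else 0 :=
    ⟨_, rfl⟩
  have hval : ∀ i : Fin (2 * m + 1), h i = a (e i) := by
    intro i
    rw [hh]
    simp only [i.2, dif_pos]
  have hz : ∀ i, 2 * m + 1 ≤ i → h i = 0 := by
    intro i hi
    rw [hh]
    simp only
    rw [dif_neg (by omega)]
  have hanti : ∀ i j, i ≤ j → h j ≤ h i := by
    intro i j hij
    rcases Nat.lt_or_ge j (2 * m + 1) with hj | hj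
    · have e1 := hval ⟨i, by omega⟩
      have e2 := hval ⟨j, hj⟩
      simp only at e1 e2
      rw [e1, e2]
      exact hmono _ _ (by simpa using hij)
    · rw [hz j hj]
      exact Nat.zero_le _
  have hlt : ∀ i, 0 < h i → i < 2 * m + 1 := by
    intro i hi
    by_contra hc
    rw [hz i (by omega)] at hi
    exact lt_irrefl _ hi
  have hex : ∃ i, h i = 0 := ⟨2 * m + 1, hz _ le_rfl⟩
  obtain ⟨R, hRdef⟩ : ∃ R, R = Nat.find hex := ⟨_, rfl⟩
  have hR1 : ∀ i, 0 < h i ↔ i < R := by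
    intro i
    constructor
    · intro hi
      by_contra hc
      push Not at hc
      have e1 := Nat.find_spec hex
      rw [← hRdef] at e1
      have e2 := hanti R i hc
      omega
    · intro hi
      rw [hRdef] at hi
      exact Nat.pos_of_ne_zero (Nat.find_min hex hi)
  have hRq : R ≤ 2 * m + 1 := by
    by_contra hc
    have := (hR1 (2 * m + 1)).2 (by omega)
    rw [hz _ le_rfl] at this
    exact lt_irrefl _ this
  refine ⟨h, hanti, ?_, ?_, R, hRq, hR1, ?_, ?_⟩
  · intro i j hi hj hp hDp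
    have hi' := hlt i hi
    have hj' := hlt j hj
    -- top sets
    obtain ⟨X, hX⟩ : ∃ X : Finset (Fin (2 * m + 1)), X = (Finset.Iic (⟨i, hi'⟩ : Fin (2 * m + 1))).map
      e.toEmbedding := ⟨_, rfl⟩
    obtain ⟨Y, hY⟩ : ∃ Y : Finset (Fin (2 * m + 1)), Y = (Finset.Iic (⟨j, hj'⟩ : Fin (2 * m + 1))).map
      e.toEmbedding := ⟨_, rfl⟩
    have hXc : X.card = i + 1 := by rw [hX, Finset.card_map, Fin.card_Iic]
    have hYc : Y.card = j + 1 := by rw [hY, Finset.card_map, Fin.card_Iic]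
    have hXa : ∀ k ∈ X, h i ≤ a k := by
      intro k hk
      rw [hX, Finset.mem_map] at hk
      obtain ⟨i', hi2, rfl⟩ := hk
      rw [Finset.mem_Iic] at hi2
      have e1 := hval ⟨i, hi'⟩
      simp only at e1
      rw [e1]
      exact hmono _ _ hi2
    have hYa : ∀ k ∈ Y, h j ≤ a k := by
      intro k hk
      rw [hY, Finset.mem_map] at hk
      obtain ⟨i', hi2, rfl⟩ := hk
      rw [Finset.mem_Iic] at hi2
      have e1 := hval ⟨j, hj'⟩
      simp only at e1
      rw [e1]
      exact hmono _ _ hi2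
    have hkl : ∃ k ∈ X, ∃ l ∈ Y, (i + j + 1) / 2 ≤ lee k l := by
      by_contra hcon
      push Not at hcon
      have hXn : X.Nonempty := Finset.card_pos.1 (by omega)
      have hYn : Y.Nonempty := Finset.card_pos.1 (by omega)
      obtain ⟨k, hk⟩ := hXn
      obtain ⟨l, hl⟩ := hYn
      have e1 := hcon k hk l hl
      have e2 := cross X Y ((i + j + 1) / 2 - 1) (by omega) ⟨k, hk⟩ ⟨l, hl⟩ (by
        intro x hx y hy
        have := hcon x hx y hy
        omega)
      omega
    obtain ⟨k, hk, l, hl, hkl2⟩ := hkl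
    have e1 := hXa k hk
    have e2 := hYa l hl
    have e3 := sec_pair B hB k l (by rw [ha] at e1; simp only at e1; omega)
      (by rw [ha] at e2; simp only at e2; omega) (by omega)
    rw [ha] at e1 e2
    simp only at e1 e2
    omega
  · rw [← Fin.sum_univ_eq_sum_range (fun i => h i), card_eq_sum_sec B]
    rw [← Equiv.sum_comp e (fun k => (sec B k).card)]
    refine Finset.sum_congr rfl (fun i _ => ?_)
    rw [hval, ha]
  · have h1 : (univ.filter fun k => 0 < (sec B k).card) ⊆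
        (univ.filter fun i : Fin (2 * m + 1) => (i : ℕ) < R).map e.toEmbedding := by
      intro k hk
      have hk1 := (Finset.mem_filter.1 hk).2
      refine Finset.mem_map.2 ⟨e.symm k, Finset.mem_filter.2 ⟨mem_univ _, ?_⟩, by simp⟩
      rw [← hR1, hval, Equiv.apply_symm_apply, ha]
      exact hk1
    refine (Finset.card_le_card h1).trans ?_
    rw [Finset.card_map]
    have h2 : (univ.filter fun i : Fin (2 * m + 1) => (i : ℕ) < R).map Fin.valEmbedding ⊆
        range R := by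
      intro i hi
      obtain ⟨j, hj, rfl⟩ := Finset.mem_map.1 hi
      exact Finset.mem_range.2 (Finset.mem_filter.1 hj).2
    have h3 := Finset.card_le_card h2
    rwa [Finset.card_map, Finset.card_range] at h3
  · refine ⟨e 0, ?_⟩
    have := hval 0
    rw [ha] at this
    exact this

/-- The transposed set. -/
def tr {m : ℕ} (B : Finset (Fin (2 * m + 1) × Fin (2 * m + 1))) :
    Finset (Fin (2 * m + 1) × Fin (2 * m + 1)) := B.map (Equiv.prodComm _ _).toEmbedding

theorem mem_tr {m : ℕ} (B : Finset (Fin (2 * m + 1) × Fin (2 * m + 1)))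
    (p : Fin (2 * m + 1) × Fin (2 * m + 1)) : p ∈ tr B ↔ (p.2, p.1) ∈ B := by
  unfold tr
  rw [Finset.mem_map]
  constructor
  · rintro ⟨q, hq, rfl⟩
    simpa using hq
  · intro h
    exact ⟨(p.2, p.1), h, rfl⟩

theorem plane_upper {m D : ℕ} (hD : D < 2 * m)
    (B : Finset (Fin (2 * m + 1) × Fin (2 * m + 1)))
    (hB : ∀ p ∈ B, ∀ p' ∈ B, lee p.1 p'.1 + lee p.2 p'.2 ≤ D) :
    B.card ≤ max (((D + 1) ^ 2 + 1) / 2) ((2 * m + 1) * (D + 1 - m)) := by
  obtain ⟨h, hanti, hR, hsum, R, hRq, hR1, hRc, k, hk⟩ := exists_sorted hD B hB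
  obtain ⟨s1, s2, s3⟩ := seq_bound m D hD h hanti hR R hR1 hRq
  rw [hsum] at s1 s2 s3
  by_cases c1 : R = 2 * m + 1
  · exact (s1 c1).trans (le_max_right _ _)
  by_cases c2 : D < m + R / 2
  · exact (s2 (by omega) c2).trans (le_max_left _ _)
  obtain ⟨h', hanti', hR', hsum', R', hRq', hR1', hRc', k', hk'⟩ := exists_sorted hD (tr B) (by
    intro p hp p' hp'
    rw [mem_tr] at hp hp'
    have := hB _ hp _ hp'
    simp only at this
    omega)
  obtain ⟨s1', s2', s3'⟩ := seq_bound m D hD h' hanti' hR' R' hR1' hRq'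
  have hcard : (tr B).card = B.card := by unfold tr; rw [Finset.card_map]
  rw [hsum', hcard] at s1' s2' s3'
  by_cases c1' : R' = 2 * m + 1
  · exact (s1' c1').trans (le_max_right _ _)
  by_cases c2' : D < m + R' / 2
  · exact (s2' (by omega) c2').trans (le_max_left _ _)
  have h0 : h 0 ≤ R' := by
    rw [hk]
    refine le_trans (Finset.card_le_card ?_) hRc'
    intro y hy
    have hy1 := (Finset.mem_filter.1 hy).2
    refine Finset.mem_filter.2 ⟨mem_univ _, Finset.card_pos.2 ⟨k, ?_⟩⟩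
    refine Finset.mem_filter.2 ⟨mem_univ _, ?_⟩
    rw [mem_tr]
    exact hy1
  exact (s3 (by omega) (by omega)).trans (le_max_right _ _)

end Pool.Agent.Lib.MP_72646e_co
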