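import Pool.Agent.Lib.MP_72646e_co.Upper

set_option autoImplicit false

/-! The exponential rate of `NL (2 m + 1) n D`. -/

namespace Pool.Agent.Lib.MP_72646e_co

open Finset Filter Topology

theorem ph_zero_mm (m : ℕ) : ph m m 0 = 0 := by
  simp [ph, arcDist]

theorem one_le_kap_mm (m : ℕ) {u : ℝ} (hu : 0 < u) : 1 ≤ kap m m u := by
  have h1 : u ^ (-(ph m m 0)) ≤ kap m m u :=
    Finset.single_le_sum (f := fun x : Fin (2 * m + 1) => u ^ (-(ph m m x)))
      (fun _ _ => (Real.rpow_pos_of_pos hu _).le) (mem_univ 0)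
  rw [ph_zero_mm] at h1
  simpa using h1

theorem one_le_kmax (m : ℕ) {u : ℝ} (hu : 0 < u) : 1 ≤ kmax m u :=
  (one_le_kap_mm m hu).trans (kap_le_kmax le_rfl u)

theorem one_le_NL (q n D : ℕ) (hq : 0 < q) : 1 ≤ NL q n D := by
  have h1 := card_le_NL (q := q) (n := n) (D := D) (A := {fun _ => ⟨0, hq⟩}) (by
    intro x hx y hy
    rw [Finset.mem_singleton] at hx hy
    subst hx
    subst hy
    simp [dL, lee])
  simpa using h1

theorem bddBelow_rate (m : ℕ) {δ : ℝ} (hδ : 0 ≤ δ) :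
    BddBelow (Set.range fun u : Set.Ici (1 : ℝ) =>
      (δ / 2 * Real.log u + Real.log (kmax m u))) := by
  refine ⟨0, ?_⟩
  rintro _ ⟨⟨u, hu⟩, rfl⟩
  have hu1 : (1 : ℝ) ≤ u := hu
  have h1 : 0 ≤ Real.log u := Real.log_nonneg hu1
  have h2 : 0 ≤ Real.log (kmax m u) := Real.log_nonneg (one_le_kmax m (by linarith))
  simp only
  positivity

theorem rate_le (m : ℕ) {δ : ℝ} (hδ : 0 ≤ δ) {u : ℝ} (hu : 1 ≤ u) :
    rate m δ ≤ δ / 2 * Real.log u + Real.log (kmax m u) :=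
  ciInf_le (bddBelow_rate m hδ) ⟨u, hu⟩

theorem log_NL_le (h1 : UpperStmt) (m : ℕ) (δ : ℝ) (hδ : 0 ≤ δ) (n : ℕ) :
    Real.log (NL (2 * m + 1) n ⌊δ * n⌋₊) ≤ n * rate m δ := by
  have hNL : (0 : ℝ) < NL (2 * m + 1) n ⌊δ * n⌋₊ := by
    have := one_le_NL (2 * m + 1) n ⌊δ * n⌋₊ (by omega)
    exact_mod_cast this
  have key : ∀ u : ℝ, 1 ≤ u → Real.log (NL (2 * m + 1) n ⌊δ * n⌋₊) ≤
      n * (δ / 2 * Real.log u + Real.log (kmax m u)) := by
    intro u hu
    have hu0 : 0 < u := by linarith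
    have h2 := h1 m n ⌊δ * n⌋₊ u hu
    have h3 := Real.log_le_log hNL h2
    rw [Real.log_mul (Real.rpow_pos_of_pos hu0 _).ne' (pow_pos (kmax_pos m hu0) n).ne',
      Real.log_rpow hu0, Real.log_pow] at h3
    have h4 : (⌊δ * n⌋₊ : ℝ) ≤ δ * n := Nat.floor_le (by positivity)
    have h5 : 0 ≤ Real.log u := Real.log_nonneg hu
    nlinarith
  rcases Nat.eq_zero_or_pos n with hn | hn
  · have := key 1 le_rfl
    subst hn
    simpa using this
  · have hn' : (0 : ℝ) < n := by exact_mod_cast hn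
    have h2 : Real.log (NL (2 * m + 1) n ⌊δ * n⌋₊) / n ≤ rate m δ := by
      refine le_ciInf ?_
      rintro ⟨u, hu⟩
      rw [div_le_iff₀ hn']
      exact (key u hu).trans (le_of_eq (mul_comm _ _))
    rw [div_le_iff₀ hn'] at h2
    linarith

theorem kap_lt_le {m H : ℕ} (hH : H < m) {u : ℝ} (hu : 1 ≤ u) :
    kap m H u ≤ (2 * m + 1) * u ^ (-(1 / 2 : ℝ)) := by
  have h1 : ∀ x ∈ (univ : Finset (Fin (2 * m + 1))), u ^ (-(ph m H x)) ≤ u ^ (-(1 / 2 : ℝ)) := by
    intro x _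
    apply Real.rpow_le_rpow_of_exponent_le hu
    have h2 : (H : ℝ) + 1 ≤ m := by exact_mod_cast hH
    have h3 : (0 : ℝ) ≤ arcDist m H x := Nat.cast_nonneg _
    simp only [ph]
    linarith
  have h2 := Finset.sum_le_sum h1
  rw [Finset.sum_const, Finset.card_univ, Fintype.card_fin, nsmul_eq_mul] at h2
  push_cast at h2
  exact h2

theorem kap_mm_le (m : ℕ) {u : ℝ} (hu : 1 ≤ u) :
    kap m m u ≤ 1 + (2 * m + 1) * u ^ (-(1 / 2 : ℝ)) := by
  have hu0 : 0 < u := by linarith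
  have h0 : 0 ≤ u ^ (-(1 / 2 : ℝ)) := (Real.rpow_pos_of_pos hu0 _).le
  have h1 : ∀ x ∈ (univ : Finset (Fin (2 * m + 1))), u ^ (-(ph m m x)) ≤
      (if x = 0 then 1 else 0) + u ^ (-(1 / 2 : ℝ)) := by
    intro x _
    by_cases hx : x = 0
    · subst hx
      rw [ph_zero_mm, if_pos rfl]
      simpa using h0
    · rw [if_neg hx, zero_add]
      apply Real.rpow_le_rpow_of_exponent_le hu
      have h2 : 1 ≤ arcDist m m x := by
        have h3 : (x : ℕ) ≠ 0 := fun h => hx (Fin.ext h)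
        have h4 := x.2
        simp only [arcDist]
        omega
      have h3 : (1 : ℝ) ≤ arcDist m m x := by exact_mod_cast h2
      simp only [ph]
      linarith
  have h2 := Finset.sum_le_sum h1
  rw [Finset.sum_add_distrib, Finset.sum_const, Finset.card_univ, Fintype.card_fin,
    nsmul_eq_mul, Finset.sum_ite_eq'] at h2
  simp only [mem_univ, if_true] at h2
  push_cast at h2
  exact h2

theorem kmax_le (m : ℕ) {u : ℝ} (hu : 1 ≤ u) :
    kmax m u ≤ 1 + (2 * m + 1) * u ^ (-(1 / 2 : ℝ)) := by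
  refine Finset.sup'_le _ _ ?_
  intro H hH
  rw [Finset.mem_range] at hH
  rcases Nat.lt_or_ge H m with h | h
  · exact (kap_lt_le h hu).trans (by linarith)
  · have : H = m := by omega
    subst this
    exact kap_mm_le H hu

theorem rate_zero (m : ℕ) : rate m 0 ≤ 0 := by
  have h1 : ∀ u : ℝ, 1 ≤ u → rate m 0 ≤ (2 * m + 1) * u ^ (-(1 / 2 : ℝ)) := by
    intro u hu
    have hu0 : 0 < u := by linarith
    have h2 := rate_le m le_rfl hu
    have h3 := Real.log_le_sub_one_of_pos (kmax_pos m hu0)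
    have h4 := kmax_le m hu
    simp only [zero_div, zero_mul, zero_add] at h2
    linarith
  have h2 : Tendsto (fun u : ℝ => (2 * (m : ℝ) + 1) * u ^ (-(1 / 2 : ℝ))) atTop
      (𝓝 ((2 * (m : ℝ) + 1) * 0)) :=
    (tendsto_rpow_neg_atTop (by norm_num)).const_mul _
  rw [mul_zero] at h2
  refine ge_of_tendsto h2 ?_
  filter_upwards [eventually_ge_atTop (1 : ℝ)] with u hu
  exact h1 u hu

theorem rate_main (h1 : UpperStmt) (h2 : LowerStmt) : RateStmt := by
  intro m δ hδ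
  refine ⟨log_NL_le h1 m δ hδ, ?_⟩
  have hlog0 : ∀ n : ℕ, 0 ≤ Real.log (NL (2 * m + 1) n ⌊δ * n⌋₊) := by
    intro n
    apply Real.log_nonneg
    have := one_le_NL (2 * m + 1) n ⌊δ * n⌋₊ (by omega)
    exact_mod_cast this
  rcases hδ.eq_or_lt with h0 | h0
  · subst h0
    have h3 : ∀ n : ℕ, Real.log (NL (2 * m + 1) n ⌊(0 : ℝ) * n⌋₊) = 0 := by
      intro n
      have h4 := log_NL_le h1 m 0 le_rfl n
      have h5 := rate_zero m
      have h6 : (n : ℝ) * rate m 0 ≤ 0 := mul_nonpos_of_nonneg_of_nonpos (Nat.cast_nonneg n) h5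
      exact le_antisymm (h4.trans h6) (hlog0 n)
    have h4 : rate m 0 = 0 := by
      refine le_antisymm (rate_zero m) ?_
      have := log_NL_le h1 m 0 le_rfl 1
      rw [h3 1] at this
      simpa using this
    simp only [h3, zero_div, h4]
    exact tendsto_const_nhds
  · rw [Metric.tendsto_atTop]
    intro ε hε
    have h3 := h2 m δ (ε / 2) h0 (by positivity)
    obtain ⟨N, hN⟩ := (h3.and (eventually_ge_atTop 1)).exists_forall_of_atTop
    refine ⟨N, ?_⟩
    intro n hn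
    obtain ⟨h4, h5⟩ := hN n hn
    have hn' : (0 : ℝ) < n := by exact_mod_cast h5
    have h6 := log_NL_le h1 m δ h0.le n
    have h7 : rate m δ - ε / 2 ≤ Real.log (NL (2 * m + 1) n ⌊δ * n⌋₊) / n := by
      rw [le_div_iff₀ hn']
      linarith
    have h8 : Real.log (NL (2 * m + 1) n ⌊δ * n⌋₊) / n ≤ rate m δ := by
      rw [div_le_iff₀ hn']
      linarith
    rw [Real.dist_eq, abs_lt]
    constructor <;> linarith

end Pool.Agent.Lib.MP_72646e_co
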