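import Mathlib

set_option autoImplicit false

/-! The diametric problem for the Lee metric, odd `q = 2 m + 1`: definitions and the statements of
the modules. -/

namespace Pool.Agent.Lib.MP_72646e_co

open Finset Filter Topology

/-- The Lee distance on `{0, ..., q - 1}`. -/
def lee {q : ℕ} (a b : Fin q) : ℕ := min (Nat.dist a b) (q - Nat.dist a b)

/-- The Lee metric on `(ℤ/q)^n`. -/
def dL {q n : ℕ} (x y : Fin n → Fin q) : ℕ := ∑ t, lee (x t) (y t)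

/-- The maximal cardinality of a set of Lee diameter at most `D`. -/
noncomputable def NL (q n D : ℕ) : ℕ :=
  sSup {c | ∃ A : Finset (Fin n → Fin q), (∀ x ∈ A, ∀ y ∈ A, dL x y ≤ D) ∧ A.card = c}

/-- Distance of `x` from the arc `{0, ..., m - H}` of the cycle of length `2 m + 1`, truncated
at `H`. -/
def arcDist (m H : ℕ) (x : Fin (2 * m + 1)) : ℕ :=
  min (min ((x : ℕ) - (m - H)) (2 * m + 1 - (x : ℕ))) H

/-- The height function of type `H`. -/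
noncomputable def ph (m H : ℕ) (x : Fin (2 * m + 1)) : ℝ := ((m : ℝ) - H) / 2 + arcDist m H x

/-- The partition function of type `H`. -/
noncomputable def kap (m H : ℕ) (u : ℝ) : ℝ := ∑ x : Fin (2 * m + 1), u ^ (-(ph m H x))

/-- The largest partition function, over the types `0, ..., m`. -/
noncomputable def kmax (m : ℕ) (u : ℝ) : ℝ :=
  (Finset.range (m + 1)).sup' ⟨0, by simp⟩ (fun H => kap m H u)

/-- The exponential rate. -/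
noncomputable def rate (m : ℕ) (δ : ℝ) : ℝ :=
  ⨅ u : Set.Ici (1 : ℝ), (δ / 2 * Real.log u + Real.log (kmax m u))

/-- `u ^ H` times the normalised partition function of type `H`. -/
noncomputable def PP (m H : ℕ) (u : ℝ) : ℝ :=
  if H = 0 then 2 * m + 1
  else ((m : ℝ) - H + 1) * u ^ H + 2 * ∑ j ∈ Finset.Ico 1 H, u ^ j + ((m : ℝ) - H + 2)

/-- M1: integer heights. -/
def IntStmt : Prop :=
  ∀ (m H : ℕ) (u : ℝ) (h : ℕ → ℕ), 1 ≤ u → h (2 * m + 1) = h 0 →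
    (∀ i < 2 * m + 1, h (i + 1) ≤ h i + 1 ∧ h i ≤ h (i + 1) + 1) →
    (∀ i < 2 * m + 1, h i ≤ H) → (∃ i < 2 * m + 1, h i = 0) → (∃ i < 2 * m + 1, h i = H) →
    H ≤ m ∧ u ^ H * ((∑ i ∈ range (2 * m + 1), (u ^ (h i))⁻¹) *
      ∑ i ∈ range (2 * m + 1), u ^ (min (h i) (h (i + 1)))) ≤ PP m H u ^ 2

/-- M2: rounding. -/
def RoundStmt : Prop :=
  ∀ (q : ℕ) (u : ℝ) (a : ℕ → ℝ), 0 < q → 1 < u → (∀ i, 0 < a i) → a q = a 0 →
    (∀ i < q, a (i + 1) ≤ u * a i ∧ a i ≤ u * a (i + 1)) →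
    ∃ k : ℕ → ℤ, k q = k 0 ∧ (∀ i < q, k (i + 1) ≤ k i + 1 ∧ k i ≤ k (i + 1) + 1) ∧
      (∑ i ∈ range q, (a i)⁻¹) * (∑ i ∈ range q, min (a i) (a (i + 1))) ≤
        (∑ i ∈ range q, (u ^ (k i))⁻¹) * ∑ i ∈ range q, u ^ (min (k i) (k (i + 1)))

/-- M3: partition functions in closed form. -/
def KapStmt : Prop :=
  ∀ (m H : ℕ) (u : ℝ), H ≤ m → 0 < u → PP m H u ^ 2 = u ^ (m + H) * kap m H u ^ 2

/-- M4: the one-dimensional inequality. -/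
def OneStmt : Prop :=
  ∀ (m : ℕ) (u : ℝ) (f g : Fin (2 * m + 1) → ℝ), 1 ≤ u → (∀ x, 0 ≤ f x) → (∀ x, 0 ≤ g x) →
    (∀ x y, f x * g y * u ^ (lee x y) ≤ 1) → (∑ x, f x) * (∑ y, g y) ≤ kmax m u ^ 2

/-- M5: tensorisation and the upper bound. -/
def UpperStmt : Prop :=
  ∀ (m n D : ℕ) (u : ℝ), 1 ≤ u → (NL (2 * m + 1) n D : ℝ) ≤ u ^ ((D : ℝ) / 2) * kmax m u ^ n

/-- M6: product sets have small diameter. -/
def DiamStmt : Prop :=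
  ∀ (m n D : ℕ) (H : Fin n → ℕ), (∀ i, H i ≤ m) → ∀ A : Finset (Fin n → Fin (2 * m + 1)),
    (∀ x ∈ A, ∑ i, ph m (H i) (x i) ≤ (D : ℝ) / 2) → A.card ≤ NL (2 * m + 1) n D

/-- M7: tilted counting (Chebyshev). -/
def CountStmt : Prop :=
  ∀ (q n : ℕ) (b : ℝ) (φ : Fin n → Fin q → ℝ) (s ε : ℝ), 0 < q → 0 ≤ s → 0 < ε →
    (∀ i x, 0 ≤ φ i x ∧ φ i x ≤ b) → 2 * b ^ 2 ≤ ε ^ 2 * n → ∀ M : ℝ,
    M = ∑ i, (∑ x, φ i x * Real.exp (-(s * φ i x))) / (∑ x, Real.exp (-(s * φ i x))) →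
    1 / 2 * Real.exp (s * (M - ε * n)) * ∏ i, (∑ x, Real.exp (-(s * φ i x))) ≤
      ((univ.filter fun x : Fin n → Fin q => ∑ i, φ i (x i) ≤ M + ε * n).card : ℝ)

/-- M8: one-dimensional minimax. -/
def MinimaxStmt : Prop :=
  ∀ (m : ℕ) (g g' : ℕ → ℝ → ℝ) (s : ℝ), 0 ≤ s →
    (∀ H ≤ m, ∀ t, HasDerivAt (g H) (g' H t) t) →
    (∀ t, 0 ≤ t → ∃ H ≤ m, (∀ K ≤ m, g K s ≤ g H t)) →
    ∃ H ≤ m, ∃ K ≤ m, ∃ t : ℝ, 0 ≤ t ∧ t ≤ 1 ∧ (∀ J ≤ m, g J s ≤ g H s) ∧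
      (∀ J ≤ m, g J s ≤ g K s) ∧ 0 ≤ t * g' H s + (1 - t) * g' K s ∧
      s * (t * g' H s + (1 - t) * g' K s) = 0

/-- M9: the lower bound for the exponential rate. -/
def LowerStmt : Prop :=
  ∀ (m : ℕ) (δ ε : ℝ), 0 < δ → 0 < ε → ∀ᶠ n : ℕ in atTop,
    (n : ℝ) * (rate m δ - ε) ≤ Real.log (NL (2 * m + 1) n ⌊δ * n⌋₊)

/-- M10: the exponential rate. -/
def RateStmt : Prop :=
  ∀ (m : ℕ) (δ : ℝ), 0 ≤ δ →
    (∀ n : ℕ, Real.log (NL (2 * m + 1) n ⌊δ * n⌋₊) ≤ n * rate m δ) ∧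
    Tendsto (fun n : ℕ => Real.log (NL (2 * m + 1) n ⌊δ * n⌋₊) / n) atTop (𝓝 (rate m δ))

end Pool.Agent.Lib.MP_72646e_co
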