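import Pool.Agent.Lib.MP_72646e_co.Diam

set_option autoImplicit false

/-! Tensorisation of the one-dimensional inequality and the upper bound for `NL`. -/

namespace Pool.Agent.Lib.MP_72646e_co

open Finset

lemma sum_cons {q N : ℕ} (F : (Fin (N + 1) → Fin q) → ℝ) :
    ∑ x, F x = ∑ a : Fin q, ∑ x : Fin N → Fin q, F (Fin.cons a x) := by
  rw [← (Fin.consEquiv (fun _ : Fin (N + 1) => Fin q)).sum_comp, Fintype.sum_prod_type]
  rfl

theorem tensor (h1 : OneStmt) (m : ℕ) (u : ℝ) (hu : 1 ≤ u) :
    ∀ (n : ℕ) (f g : (Fin n → Fin (2 * m + 1)) → ℝ), (∀ x, 0 ≤ f x) → (∀ x, 0 ≤ g x) →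
      (∀ x y, f x * g y * u ^ (dL x y) ≤ 1) →
      (∑ x, f x) * (∑ y, g y) ≤ (kmax m u ^ 2) ^ n := by
  have hu0 : 0 < u := by linarith
  intro n
  induction n with
  | zero =>
    intro f g hf hg h
    have e1 : ∀ F : (Fin 0 → Fin (2 * m + 1)) → ℝ, ∑ x, F x = F Fin.elim0 := by
      intro F
      rw [Fintype.sum_unique]
      congr 1
    rw [e1, e1]
    have := h Fin.elim0 Fin.elim0
    simpa [dL] using this
  | succ N ih =>
    intro f g hf hg h
    rw [sum_cons f, sum_cons g]
    have hC0 : 0 ≤ (kmax m u ^ 2) ^ N := by positivity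
    rcases hC0.eq_or_lt with hC | hC
    · -- degenerate
      have hz : ∀ a b, (∑ x : Fin N → Fin (2 * m + 1), f (Fin.cons a x)) *
          (∑ x : Fin N → Fin (2 * m + 1), g (Fin.cons b x)) ≤ 0 := by
        intro a b
        have h2 := ih (fun x => f (Fin.cons a x)) (fun y => g (Fin.cons b y) * u ^ (lee a b))
          (fun _ => hf _) (fun _ => mul_nonneg (hg _) (by positivity)) (by
            intro x y
            have h3 := h (Fin.cons a x) (Fin.cons b y)
            have h4 : dL (Fin.cons a x : Fin (N + 1) → Fin (2 * m + 1)) (Fin.cons b y) =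
                lee a b + dL x y := by
              simp only [dL, Fin.sum_univ_succ, Fin.cons_zero, Fin.cons_succ]
            rw [h4, pow_add] at h3
            calc _ = f (Fin.cons a x) * g (Fin.cons b y) * (u ^ (lee a b) * u ^ (dL x y)) := by ring
              _ ≤ 1 := h3)
        rw [← sum_mul, ← hC, ← mul_assoc] at h2
        exact nonpos_of_mul_nonpos_left h2 (by positivity)
      rw [pow_succ, ← hC, zero_mul, sum_mul_sum]
      exact Finset.sum_nonpos (fun a _ => Finset.sum_nonpos (fun b _ => hz a b))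
    · have key := h1 m u (fun a => (∑ x : Fin N → Fin (2 * m + 1), f (Fin.cons a x)) /
          (kmax m u ^ 2) ^ N)
        (fun a => (∑ x : Fin N → Fin (2 * m + 1), g (Fin.cons a x))) hu
        (fun a => div_nonneg (sum_nonneg (fun _ _ => hf _)) hC.le)
        (fun a => sum_nonneg (fun _ _ => hg _)) (by
          intro a b
          have h2 := ih (fun x => f (Fin.cons a x)) (fun y => g (Fin.cons b y) * u ^ (lee a b))
            (fun _ => hf _) (fun _ => mul_nonneg (hg _) (by positivity)) (by
              intro x y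
              have h3 := h (Fin.cons a x) (Fin.cons b y)
              have h4 : dL (Fin.cons a x : Fin (N + 1) → Fin (2 * m + 1)) (Fin.cons b y) =
                  lee a b + dL x y := by
                simp only [dL, Fin.sum_univ_succ, Fin.cons_zero, Fin.cons_succ]
              rw [h4, pow_add] at h3
              calc _ = f (Fin.cons a x) * g (Fin.cons b y) *
                    (u ^ (lee a b) * u ^ (dL x y)) := by ring
                _ ≤ 1 := h3)
          rw [← sum_mul] at h2
          rw [div_mul_eq_mul_div, div_mul_eq_mul_div, div_le_one hC]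
          refine le_trans (le_of_eq ?_) h2
          ring)
      rw [← sum_div, div_mul_eq_mul_div, div_le_iff₀ hC] at key
      refine key.trans (le_of_eq ?_)
      rw [pow_succ]
      ring

theorem kap_pos (m H : ℕ) {u : ℝ} (hu : 0 < u) : 0 < kap m H u :=
  Finset.sum_pos (fun _ _ => Real.rpow_pos_of_pos hu _) ⟨0, mem_univ _⟩

theorem kap_le_kmax {m H : ℕ} (hH : H ≤ m) (u : ℝ) : kap m H u ≤ kmax m u :=
  Finset.le_sup' (fun H => kap m H u) (Finset.mem_range.2 (by omega))

theorem kmax_pos (m : ℕ) {u : ℝ} (hu : 0 < u) : 0 < kmax m u :=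
  (kap_pos m 0 hu).trans_le (kap_le_kmax (Nat.zero_le m) u)

theorem upper (h1 : OneStmt) : UpperStmt := by
  intro m n D u hu
  have hu0 : 0 < u := by linarith
  obtain ⟨A, hA, hcard⟩ := exists_NL (2 * m + 1) n D
  rw [← hcard]
  set c : ℝ := u ^ (-((D : ℝ) / 2)) with hc
  have hc0 : 0 < c := Real.rpow_pos_of_pos hu0 _
  have hc2 : c * c = (u ^ D)⁻¹ := by
    rw [hc, ← Real.rpow_add hu0, ← Real.rpow_natCast, ← Real.rpow_neg hu0.le]
    congr 1
    ring
  have key := tensor h1 m u hu n (fun x => if x ∈ A then c else 0) (fun x => if x ∈ A then c else 0)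
    (fun x => by split <;> positivity) (fun x => by split <;> positivity) (by
      intro x y
      by_cases hx : x ∈ A
      · by_cases hy : y ∈ A
        · simp only [if_pos hx, if_pos hy]
          rw [hc2, inv_mul_le_iff₀ (by positivity), mul_one]
          exact pow_le_pow_right₀ hu (hA x hx y hy)
        · simp [if_neg hy]
      · simp [if_neg hx])
  have e1 : ∑ x : Fin n → Fin (2 * m + 1), (if x ∈ A then c else 0) = A.card * c := by
    rw [← sum_filter, sum_const, nsmul_eq_mul]
    simp
  rw [e1, ← sq, ← pow_mul, mul_comm 2 n, pow_mul] at key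
  have hk := kmax_pos m hu0
  have h3 : A.card * c ≤ kmax m u ^ n :=
    (pow_le_pow_iff_left₀ (by positivity) (by positivity) (by norm_num)).1 key
  have h4 : c * u ^ ((D : ℝ) / 2) = 1 := by
    rw [hc, ← Real.rpow_add hu0]
    simp
  calc (A.card : ℝ) = (A.card * c) * u ^ ((D : ℝ) / 2) := by rw [mul_assoc, h4, mul_one]
    _ ≤ kmax m u ^ n * u ^ ((D : ℝ) / 2) :=
        mul_le_mul_of_nonneg_right h3 (Real.rpow_pos_of_pos hu0 _).le
    _ = _ := mul_comm _ _

end Pool.Agent.Lib.MP_72646e_co
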